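import Pool.Agent.Lib.MP_17a322_ntVK.Stmt

/-!
# The condition on the fixed curves
-/

namespace VK

open Finset NumberField

/-- `D = -1` and `B = 0`, or `D = -3` and `A = 0`, or: for all large primes `p` modulo which `D` is not a square, the curve
`y² = x³ + A x + B` has `p` affine points over the residue field of every place of `K` of degree one over `p`.  By a theorem
of Deuring this holds for the curves with complex multiplication by an order of `ℚ(√D)` -/
def CMD {K : Type} [Field K] [NumberField K] (D : ℤ) (A B : 𝓞 K) : Prop :=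
  (D = -1 ∧ B = 0) ∨ (D = -3 ∧ A = 0) ∨ ∃ p1 : ℕ, ∀ p : ℕ, p.Prime → p1 ≤ p → ¬ IsSquare ((D : ℤ) : ZMod p) →
    ∀ φ : 𝓞 K →+* ZMod p, Nat.card {z : ZMod p × ZMod p // z.2 ^ 2 = z.1 ^ 3 + φ A * z.1 + φ B} = p

end VK
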