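import Pool.Agent.Lib.MP_17a322_ntVY.Stmt
import Pool.Agent.Lib.MP_17a322_ntVY.CM

/-!
# Integral points on complete intersections in, and cyclic covers of, any fixed variety over `G_m^n × B`: the points
-/

namespace VK

open Finset NumberField

/-- the pair `(X, D)` has an `S`-integral point with coordinates of the torus in `Γ`.  In `G_m^n × E_1 × .. × E_(h+g) × ℙ^M`
the variety `X` is given by the sections with the coefficients `b` (on the first `h` curves) of index not in `W`, the
sections `F_j` with the coefficients `a` of index `j` not in `V` and not in `R`, and the equations `F_j = γ t ^ (ρ j)` with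
`γ ∈ Γ` for `j ∈ R` (a cyclic cover); `D` is the sum of the divisors of the sections of index in `W` and in `V`;
`S`-integral: the local heights of all these divisors vanish at the places outside of `S` -/
def IntQ {K : Type} [Field K] [NumberField K] {n h g M w s : ℕ} {κ ι : Type} [Fintype κ] [Fintype ι] {δ : Fin w → ℕ}
    {d' : Fin w → Fin h → ℕ} {ν : Fin s → ℕ} {d : Fin s → Fin (h + g) → ℕ} (Γ : Subgroup Kˣ)
    (S : Finset (FinitePlace K)) (W : Finset (Fin w)) (V R : Finset (Fin s)) (ρ : Fin s → ℕ) (E' : Fin w → κ → Fin n → ℤ)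
    (b : IxM κ M δ d' → K) (E : Fin s → ι → Fin n → ℤ) (A B : Fin (h + g) → K) (a : IxM ι M ν d → K) : Prop :=
  ∃ x : Fin n → Kˣ, (∀ l, x l ∈ Γ) ∧ ∃ (P : Fin (h + g) → Option (K × K)) (u : Fin (M + 1) → K),
    (∀ l, IsPt (A l) (B l) (P l)) ∧ u ≠ 0 ∧
    (∀ k ∉ W, sM E' b (fun l => (x l : K)) (fun l => P (Fin.castAdd g l)) u k = 0) ∧
    (∀ j, j ∉ V → j ∉ R → sM E a (fun l => (x l : K)) P u j = 0) ∧
    (∀ j ∈ R, ∃ γ ∈ Γ, ∃ t : K, sM E a (fun l => (x l : K)) P u j = (γ : K) * t ^ ρ j) ∧
    ∀ v : FinitePlace K, v ∉ S →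
      (∀ k ∈ W, v (sM E' b (fun l => (x l : K)) (fun l => P (Fin.castAdd g l)) u k) =
        lf v (δ k) (d' k) (fun l => P (Fin.castAdd g l)) u) ∧
      ∀ j ∈ V, v (sM E a (fun l => (x l : K)) P u j) = lf v (ν j) (d j) P u

end VK
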