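import Pool.Agent.Lib.MP_17a322_ntVY.Defs
import Pool.Agent.Lib.MP_17a322_ntVK.SD5

/-!
# LEAF VD: reduction at a place

PROOF.  `res_hom`: `π.ρ` composed with the map `𝓞 K → π.V` (`int_mem`); `res π (a : K) = π.ρ ⟨a, _⟩` (`res`, `dif_pos`).
`rd_on`: `rdK π .zero = none` is fine; for `P = .some x y _` with `x ∉ π.V` also `none`; for `x ∈ π.V` also `y ∈ π.V` (`y ^ 2 = x ^ 3 + A x + B ∈ π.V`, a valuation ring is integrally closed), and the equation reduces (`Rd.mul`, `Rd.add`, `Rd.unique`, `rd_res`; the equation of the point of `EK A B`: `WeierstrassCurve.Affine.equation_iff`, as in the proofs of `bT_red` in `MP_17a322_ntVK/SC1.lean`).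
`adm_RY`: as `adm_RB` (`MP_17a322_ntVK/SD5.lean`), with `ct_scale` for the vector `u` (one scalar `c0` and one vector `y'` for all the sections) and `bT_red` for every `j : Fin s` (curves `A`, `B`, `g' = h + g`) and for every `k : Fin w` (the first `h` curves: the places satisfy the hypotheses for the subfamily `fun l => A (castAdd g l)`, `rdK π` of `P (castAdd g l)`); the coefficients `b t` reduce to `res π (b t)` (`rd_res`, `int_mem`).  The first condition is `rd_on` with `hA`, `hB`.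
-/

namespace VK

open Finset NumberField LVH

private theorem VD_mo {K : Type} [Field K] {m n : ℕ} (c : K) (u : Fin (m + 1) → K) (e : MWS.Mo m n) :
    MWS.mo (fun l => c * u l) e = c ^ n * MWS.mo u e := by
  unfold MWS.mo
  simp only [mul_pow]
  rw [Finset.prod_mul_distrib, Finset.prod_pow_eq_pow_sum, e.2]

private theorem VD_mo_rd {K : Type} [Field K] {p : ℕ} {π : Pl K p} {m n : ℕ} {u : Fin (m + 1) → K}
    {y : Fin (m + 1) → ZMod p} (h : ∀ l, Rd π (u l) (y l)) (e : MWS.Mo m n) :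
    Rd π (MWS.mo u e) (MWS.mo y e) :=
  Rd.prod _ fun l _ => (h l).pow _

private theorem VD_sec {K : Type} [Field K] {p : ℕ} [Fact p.Prime] (π : Pl K p) {n M g s : ℕ} {ι : Type}
    [Fintype ι] {ν : Fin s → ℕ} {d : Fin s → Fin g → ℕ} (hd : ∀ j l, 1 ≤ d j l) (E : Fin s → ι → Fin n → ℤ)
    {A B : Fin g → K} (hAB : ∀ l, A l ∈ π.V ∧ B l ∈ π.V) (a : IxM ι M ν d → K) (a' : IxM ι M ν d → ZMod p)
    (ha : ∀ t, Rd π (a t) (a' t)) (x : Fin n → K) (hx : ∀ l, x l ∈ π.V ∧ (x l)⁻¹ ∈ π.V)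
    (P : (l : Fin g) → Pt (A l) (B l)) (u : Fin (M + 1) → K) (c0 : K) (y' : Fin (M + 1) → ZMod p)
    (hR : ∀ l, Rd π (c0 * u l) (y' l)) (j : Fin s) (h : sM E a x (fun l => opK (P l)) u j = 0) :
    sM E a' (fun l => res π (x l)) (fun l => rdK π (P l)) y' j = 0 := by
  obtain ⟨σ, hσ, hb⟩ := bT_red π hAB (q := 1) (d := d j) (hd j) (fun l => one_dvd _) P (E j)
    x (fun l => (hx l).1) (fun l => (hx l).2)
  have hrd : Rd π (∑ t : MWS.Mo M (ν j) × IxT ι (d j), a ⟨j, t⟩ *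
      (MWS.mo (fun l => c0 * u l) t.1 * (σ ^ 1 * bT (E j) x (fun l => opK (P l)) t.2)))
      (∑ t : MWS.Mo M (ν j) × IxT ι (d j), a' ⟨j, t⟩ *
        (MWS.mo y' t.1 * bT (E j) (fun l => res π (x l)) (fun l => rdK π (P l)) t.2)) := by
    refine Rd.sum _ fun t _ => ?_
    exact (ha ⟨j, t⟩).mul ((VD_mo_rd hR t.1).mul (hb t.2))
  have hz : (∑ t : MWS.Mo M (ν j) × IxT ι (d j), a ⟨j, t⟩ *
      (MWS.mo (fun l => c0 * u l) t.1 * (σ ^ 1 * bT (E j) x (fun l => opK (P l)) t.2))) = 0 := by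
    have h1 := h
    unfold sM at h1
    have h2 : (∑ t : MWS.Mo M (ν j) × IxT ι (d j), a ⟨j, t⟩ *
        (MWS.mo (fun l => c0 * u l) t.1 * (σ ^ 1 * bT (E j) x (fun l => opK (P l)) t.2))) =
        c0 ^ ν j * σ * ∑ t : MWS.Mo M (ν j) × IxT ι (d j), a ⟨j, t⟩ *
          (MWS.mo u t.1 * bT (E j) x (fun l => opK (P l)) t.2) := by
      rw [Finset.mul_sum]
      refine Finset.sum_congr rfl fun t _ => ?_
      rw [VD_mo]
      ring
    rw [h2, h1, mul_zero]
  rw [hz] at hrd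
  exact hrd.unique Rd.zero

theorem res_hom {K : Type} [Field K] [NumberField K] {p : ℕ} (π : Pl K p) :
    ∃ φ : 𝓞 K →+* ZMod p, ∀ a : 𝓞 K, φ a = res π ((a : 𝓞 K) : K) := by
  refine ⟨π.ρ.comp ((algebraMap (𝓞 K) K).codRestrict π.V fun x => int_mem π x), fun a => ?_⟩
  unfold res
  rw [dif_pos (int_mem π a)]
  rfl

theorem rd_on {K : Type} [Field K] {p : ℕ} [Fact p.Prime] (π : Pl K p) {A B : K} (hA : A ∈ π.V) (hB : B ∈ π.V)
    (P : Pt A B) : IsPt (res π A) (res π B) (rdK π P) := by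
  classical
  rcases P with _ | ⟨x, y, hxy⟩
  · exact trivial
  · have he : y ^ 2 = x ^ 3 + A * x + B := (EK_eqn A B x y).1 hxy.1
    by_cases hx : x ∈ π.V
    · have h1 : rdK π (.some x y hxy : Pt A B) = some (res π x, res π y) := by
        unfold rdK
        exact if_pos hx
      rw [h1]
      have hy : y ∈ π.V := (den_xyK π hA hB he).1 hx
      show res π y ^ 2 = res π x ^ 3 + res π A * res π x + res π B
      have h2 := (rd_res hy).pow 2
      rw [he] at h2
      exact h2.unique ((((rd_res hx).pow 3).add ((rd_res hA).mul (rd_res hx))).add (rd_res hB))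
    · have h1 : rdK π (.some x y hxy : Pt A B) = none := by
        unfold rdK
        exact if_neg hx
      rw [h1]
      exact trivial

theorem adm_RY {K : Type} [Field K] [NumberField K] (L : Type) [Field L] [NumberField L] (p0 : ℕ)
    {n h g M w s e : ℕ} {κ ι : Type} [Fintype κ] [Fintype ι] (A' B' : Fin h → 𝓞 K) {δ : Fin w → ℕ}
    {d' : Fin w → Fin h → ℕ} (hd' : ∀ k l, 1 ≤ d' k l) (E' : Fin w → κ → Fin n → ℤ) (b : IxM κ M δ d' → 𝓞 K)
    {ν : Fin s → ℕ} {d : Fin s → Fin (h + g) → ℕ} (hd : ∀ j l, 1 ≤ d j l) (E : Fin s → ι → Fin n → ℤ)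
    (ω : Fin e → 𝓞 K) {A B : Fin (h + g) → K} (hA : ∀ l, A (Fin.castAdd g l) = A' l)
    (hB : ∀ l, B (Fin.castAdd g l) = B' l) (c : IxM ι M ν d × Fin e → ℤ) (x : Fin n → Kˣ)
    (P : (l : Fin (h + g)) → Pt (A l) (B l)) (u : Fin (M + 1) → K) (hu : u ≠ 0)
    (hY : OnY E' (fun t => ((b t : 𝓞 K) : K)) (fun l => (x l : K)) (fun l => opK (P (Fin.castAdd g l))) u)
    (hj : ∀ j, sM E (cf ω c) (fun l => (x l : K)) (fun l => opK (P l)) u j = 0) :
    AdmK L p0 (RY A' B' E' b ν d E ω) c x P := by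
  intro p hp _ _ π hAB _ hx
  have hF : Fact p.Prime := ⟨hp⟩
  obtain ⟨c0, y', hc0, hy', hR⟩ := ct_scale π u hu
  refine ⟨hF, fun l => ?_, y', hy', fun k => ?_, fun j => ?_⟩
  · rw [← hA l, ← hB l]
    exact rd_on π (hAB _).1 (hAB _).2 _
  · exact VD_sec π hd' E' (A := fun l => A (Fin.castAdd g l)) (B := fun l => B (Fin.castAdd g l))
      (fun l => hAB _) _ _ (fun t => rd_res (int_mem π (b t))) (fun l => (x l : K)) hx
      (fun l => P (Fin.castAdd g l)) u c0 y' hR k (hY k)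
  · exact VD_sec π hd E hAB (cf ω c) (fun t => ∑ k, ((c (t, k) : ℤ) : ZMod p) * res π ((ω k : 𝓞 K) : K))
      (fun t => el_rd (fun k => rd_res (int_mem π (ω k))) (fun k => c (t, k))) (fun l => (x l : K)) hx
      P u c0 y' hR j (hj j)

end VK
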