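import Pool.Agent.Lib.MP_17a322_ntVY.CM
import Pool.Agent.Lib.MP_17a322_ntVY.VD
import Pool.Agent.Lib.MP_17a322_ntVB.BB2
import Pool.Agent.Lib.MP_17a322_ntVB.BI

/-!
# LEAF ZS: the fixed curves are supersingular at the primes modulo which the elements of `𝒟` are not squares

PROOF.  As `ssg_types` (`MP_17a322_ntVB/BI.lean`; the discriminants by `unit_pl` as there).  Let `l` with `D ∈ 𝒟`, `CMD D (A' l) (B' l)`, and `p` large with `D` not a square modulo `p`.  `D = -1`, `B' l = 0`: `p % 4 = 3` (`BB2_four`, private in `MP_17a322_ntVB/BB2.lean`: copy it with the prefix `ZS_`), `nz_four`.  `D = -3`, `A' l = 0`: `p % 3 = 2` (`BB2_three`), `nz_three`.  Third case: `φ` of `res_hom π` (leaf `VD`), `MWS.nz` is the number of affine points.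
-/

namespace VK

open Finset NumberField LVH

private theorem ZS_four {p : ℕ} (hp : p.Prime) (h : ¬ IsSquare (((-1 : ℤ) : ℤ) : ZMod p)) : p % 4 = 3 := by
  have : Fact p.Prime := ⟨hp⟩
  by_contra h1
  apply h
  have h2 := (ZMod.exists_sq_eq_neg_one_iff (p := p)).2 h1
  have h3 : (((-1 : ℤ) : ℤ) : ZMod p) = -1 := by push_cast; rfl
  rw [h3]
  exact h2

private theorem ZS_three {p : ℕ} (hp : p.Prime) (hp3 : 3 < p) (h : ¬ IsSquare (((-3 : ℤ) : ℤ) : ZMod p)) : p % 3 = 2 := by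
  have : Fact p.Prime := ⟨hp⟩
  by_contra h1
  have h0 : p % 3 ≠ 0 := by
    intro h2
    have h3 : 3 ∣ p := Nat.dvd_of_mod_eq_zero h2
    rcases (Nat.dvd_prime hp).1 h3 with h4 | h4 <;> omega
  have h2 : 3 ∣ p - 1 := by omega
  apply h
  have h3 : 3 ∣ Nat.card (ZMod p)ˣ := by
    rw [Nat.card_eq_fintype_card, ZMod.card_units]
    exact h2
  have : Fact (Nat.Prime 3) := ⟨Nat.prime_three⟩
  obtain ⟨u, hu⟩ := exists_prime_orderOf_dvd_card' 3 h3
  have h4 : (u : ZMod p) ^ 3 = 1 := by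
    have h5 := pow_orderOf_eq_one u
    rw [hu] at h5
    rw [← Units.val_pow_eq_pow_val, h5, Units.val_one]
  have h5 : (u : ZMod p) ≠ 1 := by
    intro h6
    have h7 : u = 1 := Units.ext h6
    rw [h7, orderOf_one] at hu
    omega
  have h6 : ((u : ZMod p) - 1) * ((u : ZMod p) ^ 2 + u + 1) = 0 := by
    linear_combination h4
  have h7 : (u : ZMod p) ^ 2 + u + 1 = 0 := by
    rcases mul_eq_zero.1 h6 with h8 | h8
    · exact absurd (sub_eq_zero.1 h8) h5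
    · exact h8
  refine ⟨2 * u + 1, ?_⟩
  push_cast
  linear_combination (-4) * h7

private theorem ZS_nz {K : Type} [Field K] [NumberField K] (𝒟 : Finset ℤ) {A B : 𝓞 K}
    (hc : ∃ D ∈ 𝒟, CMD D A B) : ∃ N : ℕ, ∀ p : ℕ, p.Prime → N ≤ p →
      (∀ D ∈ 𝒟, ¬ IsSquare ((D : ℤ) : ZMod p)) → ∀ π : Pl K p,
        MWS.nz (res π ((A : 𝓞 K) : K)) (res π ((B : 𝓞 K) : K)) = p := by
  obtain ⟨D, hD, h | h | ⟨p1, h⟩⟩ := hc
  · obtain ⟨rfl, rfl⟩ := h
    refine ⟨0, fun p hp _ hJ π => ?_⟩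
    have : Fact p.Prime := ⟨hp⟩
    have hz : res π (0 : K) = 0 := res_eq Rd.zero
    have h1 : ((0 : 𝓞 K) : K) = 0 := rfl
    rw [h1, hz]
    exact nz_four (ZS_four hp (hJ _ hD)) _
  · obtain ⟨rfl, rfl⟩ := h
    refine ⟨4, fun p hp hp4 hJ π => ?_⟩
    have : Fact p.Prime := ⟨hp⟩
    have hz : res π (0 : K) = 0 := res_eq Rd.zero
    have h1 : ((0 : 𝓞 K) : K) = 0 := rfl
    rw [h1, hz]
    exact nz_three (ZS_three hp hp4 (hJ _ hD)) _
  · refine ⟨p1, fun p hp hp1 hJ π => ?_⟩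
    obtain ⟨φ, hφ⟩ := res_hom π
    have h1 := h p hp hp1 (hJ D hD) φ
    rw [hφ, hφ] at h1
    exact h1

theorem ssg_multi {K : Type} [Field K] [NumberField K] (L : Type) [Field L] [NumberField L] (𝒟 : Finset ℤ) {h : ℕ}
    (A' B' : Fin h → 𝓞 K) (hd : ∀ l, ds (A' l) (B' l) ≠ 0) (hc : ∀ l, ∃ D ∈ 𝒟, CMD D (A' l) (B' l)) :
    ∃ p0 : ℕ, Ssg L (fun p => ∀ D ∈ 𝒟, ¬ IsSquare ((D : ℤ) : ZMod p)) p0 A' B' := by
  choose M hM using fun l : Fin h => unit_pl K (g := ((ds (A' l) (B' l) : 𝓞 K) : K))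
    (fun h0 => hd l (NumberField.RingOfIntegers.coe_eq_zero_iff.1 h0))
  choose N hN using fun l : Fin h => ZS_nz 𝒟 (hc l)
  refine ⟨1 + (∑ l, M l + ∑ l, N l), fun p hp hp0 _ hJ π l => ?_⟩
  have : Fact p.Prime := ⟨hp⟩
  have hl : M l < p := by
    have h1 : M l ≤ ∑ l, M l := single_le_sum (f := M) (fun i _ => Nat.zero_le _) (mem_univ l)
    omega
  have hl2 : N l ≤ p := by
    have h1 : N l ≤ ∑ l, N l := single_le_sum (f := N) (fun i _ => Nat.zero_le _) (mem_univ l)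
    omega
  obtain ⟨u1, u2⟩ := hM l p hp hl π
  have hn0 : ((ds (A' l) (B' l) : 𝓞 K) : K) ≠ 0 := fun h0 => hd l (NumberField.RingOfIntegers.coe_eq_zero_iff.1 h0)
  have hr := res_ne hn0 u1 u2
  have hA := rd_res (int_mem π (A' l))
  have hB := rd_res (int_mem π (B' l))
  have e4 : Rd π ((4 : ℤ) : K) ((4 : ℤ) : ZMod p) := Rd.int 4
  have e27 : Rd π ((27 : ℤ) : K) ((27 : ℤ) : ZMod p) := Rd.int 27
  have hds : Rd π ((ds (A' l) (B' l) : 𝓞 K) : K) (ds (res π ((A' l : 𝓞 K) : K)) (res π ((B' l : 𝓞 K) : K))) := by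
    have h1 := (e4.mul (hA.pow 3)).add (e27.mul (hB.pow 2))
    have h2 : ((ds (A' l) (B' l) : 𝓞 K) : K) = ((4 : ℤ) : K) * ((A' l : 𝓞 K) : K) ^ 3 + ((27 : ℤ) : K) * ((B' l : 𝓞 K) : K) ^ 2 := by
      unfold ds
      push_cast
      rfl
    have h3 : ds (res π ((A' l : 𝓞 K) : K)) (res π ((B' l : 𝓞 K) : K))
        = ((4 : ℤ) : ZMod p) * res π ((A' l : 𝓞 K) : K) ^ 3 + ((27 : ℤ) : ZMod p) * res π ((B' l : 𝓞 K) : K) ^ 2 := by
      unfold ds
      push_cast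
      rfl
    rw [h2, h3]
    exact h1
  refine ⟨?_, hN l p hp hl2 hJ π⟩
  rw [← res_eq hds]
  exact hr

end VK
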