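import Pool.Agent.Lib.MP_17a322_ntVY.UG
import Pool.Agent.Lib.MP_17a322_ntVU.U5

/-!
# LEAF VG: linear forms at every point of the base, and finitely many systems of integral linear forms
-/

namespace VK

open Finset NumberField

private theorem VG_smul {F : Type} [Field F] {q n : ℕ} {g : MvPolynomial (Fin q) F} (hg : g.IsHomogeneous n) (t : F)
    (u : Fin q → F) : MvPolynomial.eval (t • u) g = t ^ n * MvPolynomial.eval u g := by
  rw [MvPolynomial.eval_eq', MvPolynomial.eval_eq', Finset.mul_sum]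
  refine Finset.sum_congr rfl fun α hα => ?_
  have h1 : ∑ i, α i = n := by
    rw [← hg (MvPolynomial.mem_support_iff.1 hα)]
    simp [Finsupp.weight_apply, Finsupp.sum_fintype]
  have h2 : ∏ i, (t • u) i ^ α i = t ^ n * ∏ i, u i ^ α i := by
    simp only [Pi.smul_apply, smul_eq_mul, mul_pow]
    rw [Finset.prod_mul_distrib, Finset.prod_pow_eq_pow_sum, h1]
  rw [h2]
  ring

/-- a nonzero minor: no common zero -/
private theorem VG_zero {F ι : Type} [Field F] [Infinite F] {q r D : ℕ} (hD : 1 ≤ D) (G : ι → MvPolynomial (Fin q) F)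
    (μ : ι → ℕ) (hG : ∀ k, (G k).IsHomogeneous (μ k)) (m : Fin r → Fin q → F)
    (f : VU.Ex q D → VU.Rw (ι ⊕ Fin r) q D) (hf : VU.mn (Sum.elim G (VU.lf m)) f ≠ 0)
    (u : Fin q → F) (hu : ∀ k, MvPolynomial.eval u (G k) = 0) (hl : ∀ i, ∑ j, m i j * u j = 0) : u = 0 := by
  classical
  by_contra hne
  obtain ⟨i, hi⟩ := Function.ne_iff.1 hne
  obtain ⟨S0, hS0⟩ := Infinite.exists_subset_card_eq F (D ^ q + 1)
  have hinj : Function.Injective fun t : F => t • u := by
    intro t t' h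
    exact mul_right_cancel₀ hi (congrFun h i)
  have h1 := VU.fib_le hD G μ hG (VU.lf m) (VU.lf_hom m) f hf (fun _ => 0) (S0.image fun t => t • u) (fun v hv => by
    obtain ⟨t, _, rfl⟩ := mem_image.1 hv
    refine ⟨fun k => ?_, fun i => ?_⟩
    · rw [VG_smul (hG k), hu k, mul_zero]
    · rw [VU.lf_eval]
      have h2 : ∑ j, m i j * (t • u) j = t * ∑ j, m i j * u j := by
        rw [mul_sum]
        exact sum_congr rfl fun j _ => by rw [Pi.smul_apply, smul_eq_mul]; ring
      rw [h2, hl i, mul_zero])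
  rw [card_image_of_injective _ hinj, hS0] at h1
  omega

section

variable {K : Type} [Field K] {n h M w : ℕ} {κ : Type} [Fintype κ] {δ : Fin w → ℕ}
    {d' : Fin w → Fin h → ℕ}

/-- the sections in the chart `c` -/
private noncomputable def VG_G (E' : Fin w → κ → Fin n → ℤ) (b : IxM κ M δ d' → 𝓞 K) (c : Fin h → Bool) (k : Fin w) :
    MvPolynomial (Fin (M + 1)) (MvPolynomial (BV n h) (𝓞 K)) :=
  ∑ β : MWS.Mo M (δ k), MvPolynomial.C (cfY (fun t => MvPolynomial.C (b t)) (fun k t => bP (𝓞 K) c (E' k) t) k β) *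
    ∏ i, MvPolynomial.X i ^ (β.1 i : ℕ)

private theorem VG_hom (E' : Fin w → κ → Fin n → ℤ) (b : IxM κ M δ d' → 𝓞 K) (c : Fin h → Bool) (k : Fin w) :
    (VG_G E' b c k).IsHomogeneous (δ k) := by
  refine MvPolynomial.IsHomogeneous.sum _ _ _ fun β _ => ?_
  have h1 := (MvPolynomial.isHomogeneous_C (Fin (M + 1))
    (cfY (fun t => MvPolynomial.C (b t)) (fun k t => bP (𝓞 K) c (E' k) t) k β)).mul
    (MvPolynomial.IsHomogeneous.prod univ (fun i => (MvPolynomial.X i : MvPolynomial (Fin (M + 1)) (MvPolynomial (BV n h) (𝓞 K))) ^ (β.1 i : ℕ))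
      (fun i => (β.1 i : ℕ)) fun i _ => by
        have h2 := (MvPolynomial.isHomogeneous_X (MvPolynomial (BV n h) (𝓞 K)) i).pow (β.1 i : ℕ)
        rwa [one_mul] at h2)
  rwa [zero_add, β.2] at h1

private theorem VG_ev {F : Type} [Field F] (φ : 𝓞 K →+* F) (E' : Fin w → κ → Fin n → ℤ) (b : IxM κ M δ d' → 𝓞 K)
    (c : Fin h → Bool) (k : Fin w) (x : Fin n → F) (hx : ∀ l, x l ≠ 0) (X Y : Fin h → F) (u : Fin (M + 1) → F) :
    MvPolynomial.eval u (VU.sp φ (pv x (fun l => (x l)⁻¹) X Y) (VG_G E' b c k)) =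
      sM E' (fun t => φ (b t)) x (InCh c X Y) u k := by
  rw [← fm_cfY]
  unfold VU.sp VG_G fm
  rw [map_sum, map_sum]
  refine sum_congr rfl fun β _ => ?_
  rw [map_mul, map_mul, MvPolynomial.map_C, MvPolynomial.eval_C, cfY_map, map_prod, map_prod]
  congr 1
  · have e1 : (fun t => (MvPolynomial.eval₂Hom φ (pv x (fun l => (x l)⁻¹) X Y)) (MvPolynomial.C (b t))) =
        fun t => φ (b t) := by
      funext t
      rw [MvPolynomial.coe_eval₂Hom, MvPolynomial.eval₂_C]
    have e2 : (fun (k : Fin w) (t : IxT κ (d' k)) => (MvPolynomial.eval₂Hom φ (pv x (fun l => (x l)⁻¹) X Y))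
        (bP (𝓞 K) c (E' k) t)) = fun k t => bT (E' k) x (InCh c X Y) t := by
      funext k t
      rw [MvPolynomial.coe_eval₂Hom]
      exact eval_bP φ c (E' k) x hx X Y t
    rw [e1, e2]
  · unfold MWS.mo
    refine prod_congr rfl fun i _ => ?_
    rw [map_pow, map_pow, MvPolynomial.map_X, MvPolynomial.eval_X]

/-- the equations of the chart -/
private def VG_E (A' B' : Fin h → 𝓞 K) (c : Fin h → Bool) : Set (MvPolynomial (BV n h) (𝓞 K)) :=
  {s | (∃ l : Fin n, s = MvPolynomial.X (.inl (.inl l)) * MvPolynomial.X (.inl (.inr l)) - 1) ∨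
    ∃ l : Fin h, c l = true ∧ s = MvPolynomial.X (.inr (.inr l)) ^ 2 - (MvPolynomial.X (.inr (.inl l)) ^ 3 +
      MvPolynomial.C (A' l) * MvPolynomial.X (.inr (.inl l)) + MvPolynomial.C (B' l))}

end

theorem fib_of {K : Type} [Field K] [NumberField K] {n h M w : ℕ} {κ : Type} [Fintype κ] {δ : Fin w → ℕ}
    {d' : Fin w → Fin h → ℕ} {A' B' : Fin h → 𝓞 K} {E' : Fin w → κ → Fin n → ℤ} {b : IxM κ M δ d' → 𝓞 K} {r : ℕ}
    (hF : FibP A' B' E' b r) : Fib A' B' E' b r := by
  classical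
  set Kb := AlgebraicClosure K with hKb
  set φ : 𝓞 K →+* Kb := (algebraMap K Kb).comp (algebraMap (𝓞 K) K) with hφ
  have hφa : ∀ a : 𝓞 K, φ a = algebraMap K Kb (a : K) := fun a => rfl
  -- finitely many systems for every chart
  have key : ∀ c : Fin h → Bool, ∃ T : Finset (Fin r → Fin (M + 1) → ℤ), ∀ (x : Fin n → Kb) (X Y : Fin h → Kb),
      (∀ l, x l ≠ 0) → (∀ l, IsPt (φ (A' l)) (φ (B' l)) (InCh c X Y l)) → ∃ m ∈ T, ∀ u : Fin (M + 1) → Kb,
        OnY E' (fun t => φ (b t)) x (InCh c X Y) u → (∀ a, ∑ j, ((m a j : ℤ) : Kb) * u j = 0) → u = 0 := by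
    intro c
    set MM : Set (MvPolynomial (BV n h) (𝓞 K)) := {s | ∃ D : ℕ, 1 ≤ D ∧
      ∃ (f : VU.Ex (M + 1) D → VU.Rw (Fin w ⊕ Fin r) (M + 1) D) (m : Fin r → Fin (M + 1) → ℤ),
        s = VU.mi (VG_G E' b c) f m} with hMM
    obtain ⟨N0, T, hN0, hT, hspan⟩ := VU.nulls (VG_E (n := n) A' B' c ∪ MM) (by
      intro v
      by_cases hv : ∀ e ∈ VG_E (n := n) A' B' c, MvPolynomial.eval₂ φ v e = 0
      · set x : Fin n → Kb := fun l => v (.inl (.inl l)) with hx
        set X : Fin h → Kb := fun l => v (.inr (.inl l)) with hX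
        set Y : Fin h → Kb := fun l => v (.inr (.inr l)) with hY
        have h1 : ∀ l, x l * v (.inl (.inr l)) = 1 := by
          intro l
          have h2 := hv _ (Or.inl ⟨l, rfl⟩)
          rw [MvPolynomial.eval₂_sub, MvPolynomial.eval₂_mul, MvPolynomial.eval₂_X, MvPolynomial.eval₂_X,
            MvPolynomial.eval₂_one] at h2
          exact sub_eq_zero.1 h2
        have hx0 : ∀ l, x l ≠ 0 := fun l => left_ne_zero_of_mul (by rw [h1 l]; exact one_ne_zero)
        have hvv : v = pv x (fun l => (x l)⁻¹) X Y := by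
          funext i
          rcases i with (l | l) | (l | l)
          · rfl
          · show v (.inl (.inr l)) = (x l)⁻¹
            exact (inv_eq_of_mul_eq_one_right (h1 l)).symm
          · rfl
          · rfl
        have hP : ∀ l, IsPt (φ (A' l)) (φ (B' l)) (InCh c X Y l) := by
          intro l
          unfold InCh
          by_cases hc : c l = true
          · rw [if_pos hc]
            have h2 := hv _ (Or.inr ⟨l, hc, rfl⟩)
            simp only [MvPolynomial.eval₂_sub, MvPolynomial.eval₂_mul, MvPolynomial.eval₂_X, MvPolynomial.eval₂_pow,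
              MvPolynomial.eval₂_add, MvPolynomial.eval₂_C] at h2
            exact sub_eq_zero.1 h2
          · rw [if_neg hc]
            trivial
        obtain ⟨l, hl⟩ := hF x (InCh c X Y) hx0 hP
        obtain ⟨D, hD, f, m, hf⟩ := VU.int_mn (fun k => VU.sp φ v (VG_G E' b c k)) l (fun u h2 h3 => by
          refine hl u (fun k => ?_) h3
          have h4 := h2 k
          rw [hvv, VG_ev φ E' b c k x hx0 X Y u] at h4
          exact h4)
        refine ⟨VU.mi (VG_G E' b c) f m, Or.inr ⟨D, hD, f, m, rfl⟩, ?_⟩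
        rw [VU.mi_ev]
        exact hf
      · push Not at hv
        obtain ⟨e, he, hne⟩ := hv
        exact ⟨e, Or.inl he, hne⟩)
    have hN0' : ((N0 : ℕ) : Kb) ≠ 0 := by
      exact_mod_cast hN0
    -- one system for every element of `T`
    have h1 : ∀ s ∈ T, ∃ m : Fin r → Fin (M + 1) → ℤ, s ∈ MM → ∃ D : ℕ, 1 ≤ D ∧
        ∃ f : VU.Ex (M + 1) D → VU.Rw (Fin w ⊕ Fin r) (M + 1) D, s = VU.mi (VG_G E' b c) f m := by
      intro s hs
      by_cases h2 : s ∈ MM
      · obtain ⟨D, hD, f, m, h3⟩ := h2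
        exact ⟨m, fun _ => ⟨D, hD, f, h3⟩⟩
      · exact ⟨0, fun h3 => absurd h3 h2⟩
    choose! mm hmm using h1
    refine ⟨T.image mm, fun x X Y hx hP => ?_⟩
    obtain ⟨s, hs, hne⟩ := VU.nulls_pt φ hspan hN0' (pv x (fun l => (x l)⁻¹) X Y)
    have hsM : s ∈ MM := by
      rcases hT (Finset.mem_coe.2 hs) with h2 | h2
      · exfalso
        apply hne
        rcases h2 with ⟨l, rfl⟩ | ⟨l, hc, rfl⟩
        · rw [MvPolynomial.eval₂_sub, MvPolynomial.eval₂_mul, MvPolynomial.eval₂_X, MvPolynomial.eval₂_X,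
            MvPolynomial.eval₂_one]
          show x l * (x l)⁻¹ - 1 = 0
          rw [mul_inv_cancel₀ (hx l), sub_self]
        · simp only [MvPolynomial.eval₂_sub, MvPolynomial.eval₂_mul, MvPolynomial.eval₂_X, MvPolynomial.eval₂_pow,
            MvPolynomial.eval₂_add, MvPolynomial.eval₂_C]
          have h3 := hP l
          unfold InCh at h3
          rw [if_pos hc] at h3
          exact sub_eq_zero.2 h3
      · exact h2
    obtain ⟨D, hD, f, hsf⟩ := hmm s hs hsM
    refine ⟨mm s, mem_image_of_mem mm hs, fun u hu hl => ?_⟩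
    rw [hsf, VU.mi_ev] at hne
    refine VG_zero hD _ δ (fun k => (VG_hom E' b c k).map _) _ f hne u (fun k => ?_) hl
    exact (VG_ev φ E' b c k x hx X Y u).trans (hu k)
  choose T hT using key
  -- the list of all the systems
  set TT' : Finset (Fin r → Fin (M + 1) → ℤ) := univ.biUnion T with hTT
  let e := TT'.equivFin
  refine ⟨TT'.card, fun i a j => (((e.symm i).1 a j : ℤ) : 𝓞 K), fun x P hx hP => ?_⟩
  obtain ⟨c, X, Y, rfl⟩ := chart P
  obtain ⟨m, hm, hm'⟩ := hT c x X Y hx hP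
  have hmT : m ∈ TT' := mem_biUnion.2 ⟨c, mem_univ _, hm⟩
  refine ⟨e ⟨m, hmT⟩, fun u hu hl => hm' u hu fun a => ?_⟩
  have h4 : (e.symm (e ⟨m, hmT⟩)).1 = m := by rw [e.symm_apply_apply]
  refine Eq.trans ?_ (hl a)
  refine sum_congr rfl fun j _ => ?_
  have h3 : (algebraMap K (AlgebraicClosure K)) (((((e.symm (e ⟨m, hmT⟩)).1 a j : ℤ) : 𝓞 K) : 𝓞 K) : K) =
      φ (((e.symm (e ⟨m, hmT⟩)).1 a j : ℤ) : 𝓞 K) := rfl
  show ((m a j : ℤ) : Kb) * u j = (algebraMap K (AlgebraicClosure K)) (((((e.symm (e ⟨m, hmT⟩)).1 a j : ℤ) : 𝓞 K) : 𝓞 K) : K) * u j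
  rw [h3, map_intCast, h4]

end VK
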