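import Pool.Agent.Lib.MP_17a322_ntVY.Defs

/-!
# LEAF UB: the next degree

PROOF.  Let `y : Mo M (D + 1) → F`.  Every `α : Mo M (D + 1)` has a `b` with `1 ≤ α b` (the sum of the exponents is `D + 1`); choose `β α` with this property.  For every `b` the vector `y_b : Mo M D → F`, `y_b α' = y (α' + e_b)` if `β (α' + e_b) = b` and `0` otherwise, gives `a_b` by `h`.  Put `a ⟨k, γ'⟩ = ∑ b, if δ k ≤ D and 1 ≤ γ' b then a_b ⟨k, γ' - e_b⟩ else 0` for `γ' : Mo M (D + 1 - δ k)` (if `δ k ≤ D` then `D + 1 - δ k = (D - δ k) + 1`).  Then `∑ q, a q * Ent (D + 1) T q α = ∑ b with 1 ≤ α b, ∑ q', a_b q' * Ent D T q' (α - e_b) = ∑ b with 1 ≤ α b, y_b (α - e_b) = y α` (for `δ k = D + 1` the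
entries `Ent D T ⟨k, _⟩` vanish, `a ⟨k, _⟩ = 0`).
(Another way, perhaps easier: the statement for polynomials.  `Sj D T` iff every homogeneous polynomial of degree `D` in `Fin (M + 1)` variables is `∑ k, c k * f k` with `f k = ∑ γ, C (T k γ) * monomial γ`; use that a homogeneous polynomial of degree `D + 1` is `∑ b, X b * h b` with `h b` homogeneous of degree `D`.)
-/

namespace VK

open Finset

private theorem ub_lt {M n : ℕ} (e : Fin (M + 1) → ℕ) (h : ∑ i, e i = n) (i : Fin (M + 1)) : e i < n + 1 := by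
  have := Finset.single_le_sum (f := e) (fun j _ => Nat.zero_le _) (Finset.mem_univ i)
  omega

private def ub_mk {M n : ℕ} (e : Fin (M + 1) → ℕ) (h : ∑ i, e i = n) : MWS.Mo M n :=
  ⟨fun i => ⟨e i, ub_lt e h i⟩, h⟩

private theorem ub_mk_val {M n : ℕ} (e : Fin (M + 1) → ℕ) (h : ∑ i, e i = n) (i : Fin (M + 1)) :
    ((ub_mk e h).1 i : ℕ) = e i := rfl

private theorem ub_ext {M n : ℕ} {x y : MWS.Mo M n} (h : ∀ i, (x.1 i : ℕ) = (y.1 i : ℕ)) : x = y :=
  Subtype.ext (funext fun i => Fin.ext (h i))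

private theorem ub_sum_up {M n : ℕ} (b : Fin (M + 1)) (γ : MWS.Mo M n) :
    ∑ i, ((γ.1 i : ℕ) + if i = b then 1 else 0) = n + 1 := by
  rw [Finset.sum_add_distrib, γ.2]
  simp

private theorem ub_sum_dn {M n : ℕ} (b : Fin (M + 1)) (γ : MWS.Mo M (n + 1)) (hb : 1 ≤ (γ.1 b : ℕ)) :
    ∑ i, ((γ.1 i : ℕ) - if i = b then 1 else 0) = n := by
  have h1 : ∑ i, (γ.1 i : ℕ) = ∑ i, (((γ.1 i : ℕ) - if i = b then 1 else 0) + if i = b then 1 else 0) := by
    refine Finset.sum_congr rfl fun i _ => ?_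
    by_cases hi : i = b
    · subst hi
      simp only [if_true]
      omega
    · simp [hi]
  rw [Finset.sum_add_distrib, γ.2] at h1
  simp only [Finset.sum_ite_eq', Finset.mem_univ, if_true] at h1
  omega

private theorem ub_ent {F κ : Type} [Field F] {M : ℕ} {δ : κ → ℕ} (D : ℕ) (T : (k : κ) → MWS.Mo M (δ k) → F)
    (k : κ) (b : Fin (M + 1)) (γ' : MWS.Mo M (D + 1 - δ k)) (γ'' : MWS.Mo M (D - δ k))
    (hg : ∀ i, (γ'.1 i : ℕ) = (γ''.1 i : ℕ) + if i = b then 1 else 0) (α : MWS.Mo M (D + 1)) :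
    Ent (D + 1) T ⟨k, γ'⟩ α =
      ∑ α' : MWS.Mo M D, if ∀ i, (α.1 i : ℕ) = (α'.1 i : ℕ) + (if i = b then 1 else 0) then Ent D T ⟨k, γ''⟩ α' else 0 := by
  by_cases hb : 1 ≤ (α.1 b : ℕ)
  · set β : MWS.Mo M D := ub_mk _ (ub_sum_dn b α hb) with hβ
    have hβv : ∀ i, (β.1 i : ℕ) = (α.1 i : ℕ) - if i = b then 1 else 0 := fun i => rfl
    have hβ' : ∀ i, (α.1 i : ℕ) = (β.1 i : ℕ) + if i = b then 1 else 0 := by
      intro i
      rw [hβv]
      by_cases hi : i = b
      · subst hi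
        simp only [if_true]
        omega
      · simp [hi]
    rw [Finset.sum_eq_single β]
    · rw [if_pos hβ']
      unfold Ent
      refine Finset.sum_congr rfl fun γ _ => ?_
      refine if_congr (forall_congr' fun i => ?_) rfl rfl
      simp only
      rw [hg i, hβ' i]
      omega
    · intro α' _ hne
      rw [if_neg]
      intro h
      apply hne
      apply ub_ext
      intro i
      have h1 := h i
      have h2 := hβ' i
      omega
    · intro h
      exact absurd (Finset.mem_univ _) h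
  · rw [Finset.sum_eq_zero]
    · unfold Ent
      refine Finset.sum_eq_zero fun γ _ => ?_
      rw [if_neg]
      intro h
      have h1 := h b
      have h2 := hg b
      simp only [if_true] at h2
      simp only at h1
      omega
    · intro α' _
      rw [if_neg]
      intro h
      have h1 := h b
      simp only [if_true] at h1
      omega

private theorem ub_ent_zero {F κ : Type} [Field F] {M : ℕ} {δ : κ → ℕ} (D : ℕ) (T : (k : κ) → MWS.Mo M (δ k) → F)
    (k : κ) (hk : ¬ δ k ≤ D) (γ : MWS.Mo M (D - δ k)) (α : MWS.Mo M D) : Ent D T ⟨k, γ⟩ α = 0 := by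
  unfold Ent
  refine Finset.sum_eq_zero fun γ₁ _ => ?_
  rw [if_neg]
  intro h
  have h1 : ∑ i, ((γ₁.1 i : ℕ) + (γ.1 i : ℕ)) = ∑ i, (α.1 i : ℕ) := Finset.sum_congr rfl fun i _ => h i
  rw [Finset.sum_add_distrib, γ₁.2, γ.2, α.2] at h1
  have h2 : δ k + (D - δ k) = D := h1
  omega

private theorem ub_one {F κ : Type} [Field F] [Fintype κ] {M : ℕ} {δ : κ → ℕ} (D : ℕ)
    (T : (k : κ) → MWS.Mo M (δ k) → F) (h : Sj D T) (α₀ : MWS.Mo M (D + 1)) :
    ∃ a : ((k : κ) × MWS.Mo M (D + 1 - δ k)) → F, ∀ α, ∑ q, a q * Ent (D + 1) T q α = if α = α₀ then 1 else 0 := by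
  classical
  obtain ⟨b, hb⟩ : ∃ b, 1 ≤ (α₀.1 b : ℕ) := by
    by_contra hcon
    have h0 : ∀ b, (α₀.1 b : ℕ) = 0 := fun b => by
      by_contra hne
      exact hcon ⟨b, by omega⟩
    have h1 := α₀.2
    rw [Finset.sum_eq_zero (fun i _ => h0 i)] at h1
    omega
  set β : MWS.Mo M D := ub_mk _ (ub_sum_dn b α₀ hb) with hβ
  have hβv : ∀ i, (β.1 i : ℕ) = (α₀.1 i : ℕ) - if i = b then 1 else 0 := fun i => rfl
  have hβ' : ∀ i, (α₀.1 i : ℕ) = (β.1 i : ℕ) + if i = b then 1 else 0 := by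
    intro i
    rw [hβv]
    by_cases hi : i = b
    · subst hi
      simp only [if_true]
      omega
    · simp [hi]
  obtain ⟨a', ha'⟩ := h (fun α => if α = β then 1 else 0)
  refine ⟨fun q => ∑ γ : MWS.Mo M (D - δ q.1), if ∀ i, (q.2.1 i : ℕ) = (γ.1 i : ℕ) + (if i = b then 1 else 0)
    then a' ⟨q.1, γ⟩ else 0, fun α => ?_⟩
  have key : ∀ k : κ, ∑ γ' : MWS.Mo M (D + 1 - δ k), (∑ γ : MWS.Mo M (D - δ k),
      if ∀ i, (γ'.1 i : ℕ) = (γ.1 i : ℕ) + (if i = b then 1 else 0) then a' ⟨k, γ⟩ else 0) * Ent (D + 1) T ⟨k, γ'⟩ α =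
      ∑ γ : MWS.Mo M (D - δ k), a' ⟨k, γ⟩ * ∑ α' : MWS.Mo M D,
        if ∀ i, (α.1 i : ℕ) = (α'.1 i : ℕ) + (if i = b then 1 else 0) then Ent D T ⟨k, γ⟩ α' else 0 := by
    intro k
    simp_rw [Finset.sum_mul]
    rw [Finset.sum_comm]
    refine Finset.sum_congr rfl fun γ _ => ?_
    by_cases hk : δ k ≤ D
    · have e1 : D - δ k + 1 = D + 1 - δ k := by omega
      set γ₁ : MWS.Mo M (D + 1 - δ k) := ub_mk _ ((ub_sum_up b γ).trans e1) with hγ₁
      have hv : ∀ i, (γ₁.1 i : ℕ) = (γ.1 i : ℕ) + if i = b then 1 else 0 := fun i => rfl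
      rw [Finset.sum_eq_single γ₁]
      · rw [if_pos hv, ub_ent D T k b γ₁ γ hv]
      · intro γ₂ _ hne
        rw [if_neg, zero_mul]
        intro hc
        apply hne
        apply ub_ext
        intro i
        rw [hc i, hv i]
      · intro h
        exact absurd (Finset.mem_univ _) h
    · rw [Finset.sum_eq_zero, Finset.sum_eq_zero, mul_zero]
      · intro α' _
        rw [ub_ent_zero D T k hk, ite_self]
      · intro γ' _
        rw [if_neg, zero_mul]
        intro hc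
        have h1 := hc b
        simp only [if_true] at h1
        have h2 := (γ'.1 b).2
        omega
  rw [Fintype.sum_sigma]
  simp only
  rw [Finset.sum_congr rfl fun k _ => key k]
  have h3 : ∀ k : κ, ∑ γ : MWS.Mo M (D - δ k), a' ⟨k, γ⟩ * ∑ α' : MWS.Mo M D,
        (if ∀ i, (α.1 i : ℕ) = (α'.1 i : ℕ) + (if i = b then 1 else 0) then Ent D T ⟨k, γ⟩ α' else 0) =
      ∑ α' : MWS.Mo M D, if ∀ i, (α.1 i : ℕ) = (α'.1 i : ℕ) + (if i = b then 1 else 0) then
        ∑ γ : MWS.Mo M (D - δ k), a' ⟨k, γ⟩ * Ent D T ⟨k, γ⟩ α' else 0 := by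
    intro k
    simp_rw [Finset.mul_sum]
    rw [Finset.sum_comm]
    refine Finset.sum_congr rfl fun α' _ => ?_
    split_ifs
    · rfl
    · simp
  rw [Finset.sum_congr rfl fun k _ => h3 k, Finset.sum_comm]
  have h4 : ∀ α' : MWS.Mo M D, (∑ k : κ, if ∀ i, (α.1 i : ℕ) = (α'.1 i : ℕ) + (if i = b then 1 else 0) then
        ∑ γ : MWS.Mo M (D - δ k), a' ⟨k, γ⟩ * Ent D T ⟨k, γ⟩ α' else 0) =
      if ∀ i, (α.1 i : ℕ) = (α'.1 i : ℕ) + (if i = b then 1 else 0) then (if α' = β then 1 else 0) else 0 := by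
    intro α'
    split_ifs with h5 h6
    · have := ha' α'
      rw [Fintype.sum_sigma, if_pos h6] at this
      exact this
    · have := ha' α'
      rw [Fintype.sum_sigma, if_neg h6] at this
      exact this
    · simp
  rw [Finset.sum_congr rfl fun α' _ => h4 α', Finset.sum_eq_single β]
  · rw [if_pos rfl]
    refine if_congr ⟨fun hh => ?_, fun hh => ?_⟩ rfl rfl
    · apply ub_ext
      intro i
      rw [hh i, hβ' i]
    · rw [hh]
      exact hβ'
  · intro α' _ hne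
    rw [if_neg hne, ite_self]
  · intro h
    exact absurd (Finset.mem_univ _) h

theorem sj_succ {F κ : Type} [Field F] [Fintype κ] {M : ℕ} {δ : κ → ℕ} (D : ℕ) (T : (k : κ) → MWS.Mo M (δ k) → F)
    (h : Sj D T) : Sj (D + 1) T := by
  classical
  intro y
  choose a ha using fun α₀ => ub_one D T h α₀
  refine ⟨fun q => ∑ α₀, y α₀ * a α₀ q, fun α => ?_⟩
  simp_rw [Finset.sum_mul]
  rw [Finset.sum_comm]
  have h1 : ∀ α₀, ∑ q, y α₀ * a α₀ q * Ent (D + 1) T q α = y α₀ * if α = α₀ then 1 else 0 := by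
    intro α₀
    rw [← ha α₀ α, Finset.mul_sum]
    refine Finset.sum_congr rfl fun q _ => ?_
    ring
  rw [Finset.sum_congr rfl fun α₀ _ => h1 α₀]
  simp

end VK
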