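import Pool.Agent.Lib.MP_17a322_ntVY.Defs

/-!
# LEAF UG: the charts

PROOF.  `eval_bP`: `eval₂ φ v` is a ring homomorphism; `MvPolynomial.eval₂_mul`, `eval₂_prod` (or `MvPolynomial.coe_eval₂Hom`), `eval₂_X`; in `bT E x P t = (∏ l, x l ^ E t.1 l) * ∏ l, RamCov.bas F (d l) (P l) (t.2 l)` the first factor: `x ^ E = x ^ E.toNat * x⁻¹ ^ (-E).toNat` for `x ≠ 0` (cases `0 ≤ E`, `E < 0`); the second one by cases on `c l` and on `t.2 l` (definition of `RamCov.bas`, `bc`, `InCh`).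
`chart`: `c l = (P l).isSome`, `X l`, `Y l` the coordinates (`0` for `none`).
`TT_map`, `cfY_map`, `Ent_map`: unfold, `map_sum`, `map_mul`, `apply_ite`, `map_zero`.
`fm_TT`: the value of the linear form: for `γ : Mo M 1` exactly one exponent is `1` and the others are `0`; `∑ γ : Mo M 1, (∑ c, if γ c = 1 then ell i c else 0) * mo u γ = ∑ c, ell i c * u c` (the bijection `c ↦` the monomial `u c`).
`fm_cfY`: `sM E' b x P u k = ∑ t : Mo × IxT, b ⟨k, t⟩ * (mo u t.1 * bT (E' k) x P t.2)`; `Fintype.sum_prod_type`, `Finset.sum_mul`.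
-/

namespace VK

open Finset NumberField

private theorem UG_zpow {F : Type} [Field F] (x : F) (_hx : x ≠ 0) (e : ℤ) :
    x ^ e.toNat * x⁻¹ ^ (-e).toNat = x ^ e := by
  rcases le_total 0 e with h | h
  · obtain ⟨n, rfl⟩ := Int.eq_ofNat_of_zero_le h
    have h1 : (-(n : ℤ)).toNat = 0 := Int.toNat_of_nonpos (by omega)
    rw [h1, pow_zero, mul_one, Int.toNat_natCast, zpow_natCast]
  · obtain ⟨n, hn⟩ := Int.eq_ofNat_of_zero_le (neg_nonneg.2 h)
    have h1 : e.toNat = 0 := Int.toNat_of_nonpos h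
    have h2 : e = -(n : ℤ) := by omega
    rw [h1, pow_zero, one_mul, hn, Int.toNat_natCast, h2, zpow_neg, zpow_natCast, inv_pow]

private theorem UG_mul {R F σ : Type} [CommRing R] [CommRing F] (φ : R →+* F) (v : σ → F) (p q : MvPolynomial σ R) :
    MvPolynomial.eval₂ φ v (p * q) = MvPolynomial.eval₂ φ v p * MvPolynomial.eval₂ φ v q :=
  MvPolynomial.eval₂_mul φ v

private theorem UG_b1 {S : Type} [CommRing S] (X Y : S) {d : ℕ} (i : Fin (d + 1)) :
    bc true X Y (Sum.inl i : RamCov.Ix d) = X ^ (i : ℕ) := rfl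

private theorem UG_b2 {S : Type} [CommRing S] (X Y : S) {d : ℕ} (i : Fin (d + 1)) :
    bc false X Y (Sum.inl i : RamCov.Ix d) = if i = Fin.last d then 1 else 0 := rfl

private theorem UG_b3 {S : Type} [CommRing S] (X Y : S) {d : ℕ} (i : Fin (d - 1)) :
    bc true X Y (Sum.inr i : RamCov.Ix d) = X ^ (i : ℕ) * Y := rfl

private theorem UG_b4 {S : Type} [CommRing S] (X Y : S) {d : ℕ} (i : Fin (d - 1)) :
    bc false X Y (Sum.inr i : RamCov.Ix d) = 0 := rfl

private theorem UG_bc {R F : Type} [CommRing R] [Field F] (φ : R →+* F) {n h : ℕ} (c : Fin h → Bool) (v : BV n h → F)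
    (X Y : Fin h → F) (l : Fin h) (hX : v (.inr (.inl l)) = X l) (hY : v (.inr (.inr l)) = Y l) {d : ℕ}
    (t : RamCov.Ix d) :
    MvPolynomial.eval₂ φ v (bc (c l) (MvPolynomial.X (.inr (.inl l)) : MvPolynomial (BV n h) R)
      (MvPolynomial.X (.inr (.inr l))) t) = RamCov.bas F d (InCh c X Y l) t := by
  unfold InCh
  rcases t with i | i
  · cases hc : c l
    · rw [if_neg (by simp), UG_b2]
      show _ = if i = Fin.last d then (1 : F) else 0
      by_cases hi : i = Fin.last d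
      · rw [if_pos hi, if_pos hi]
        exact MvPolynomial.eval₂_one φ v
      · rw [if_neg hi, if_neg hi]
        exact MvPolynomial.eval₂_zero φ v
    · rw [if_pos rfl, UG_b1, MvPolynomial.eval₂_pow, MvPolynomial.eval₂_X, hX]
      rfl
  · cases hc : c l
    · rw [if_neg (by simp), UG_b4]
      exact MvPolynomial.eval₂_zero φ v
    · rw [if_pos rfl, UG_b3, UG_mul, MvPolynomial.eval₂_pow, MvPolynomial.eval₂_X, MvPolynomial.eval₂_X, hX, hY]
      rfl

theorem eval_bP {R F : Type} [CommRing R] [Field F] (φ : R →+* F) {n h : ℕ} {κ : Type} (c : Fin h → Bool)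
    (E : κ → Fin n → ℤ) {d : Fin h → ℕ} (x : Fin n → F) (hx : ∀ l, x l ≠ 0) (X Y : Fin h → F) (t : IxT κ d) :
    MvPolynomial.eval₂ φ (pv x (fun l => (x l)⁻¹) X Y) (bP R c E t) = bT E x (InCh c X Y) t := by
  unfold bP bT
  rw [UG_mul, MvPolynomial.eval₂_prod, MvPolynomial.eval₂_prod]
  refine congrArg₂ _ (prod_congr rfl fun l _ => ?_) (prod_congr rfl fun l _ => ?_)
  · rw [UG_mul, MvPolynomial.eval₂_pow, MvPolynomial.eval₂_pow, MvPolynomial.eval₂_X, MvPolynomial.eval₂_X]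
    exact UG_zpow (x l) (hx l) (E t.1 l)
  · exact UG_bc φ c (pv x (fun l => (x l)⁻¹) X Y) X Y l rfl rfl (t.2 l)

theorem chart {F : Type} [Field F] {h : ℕ} (P : Fin h → Option (F × F)) :
    ∃ (c : Fin h → Bool) (X Y : Fin h → F), P = InCh c X Y := by
  refine ⟨fun l => (P l).isSome, fun l => ((P l).getD (0, 0)).1, fun l => ((P l).getD (0, 0)).2, funext fun l => ?_⟩
  unfold InCh
  cases hP : P l with
  | none => simp [hP]
  | some z => simp [hP]

theorem TT_map {S S' κ : Type} [CommRing S] [CommRing S'] (f : S →+* S') {M r : ℕ} {δ : κ → ℕ}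
    (T : (k : κ) → MWS.Mo M (δ k) → S) (ell : Fin r → Fin (M + 1) → S) (k : κ ⊕ Fin r)
    (γ : MWS.Mo M (Sum.elim δ (fun _ => 1) k)) :
    f (TT T ell k γ) = TT (fun k γ => f (T k γ)) (fun i c => f (ell i c)) k γ := by
  rcases k with k | i
  · rfl
  · show f (∑ c, if (γ.1 c : ℕ) = 1 then ell i c else 0) = ∑ c, if (γ.1 c : ℕ) = 1 then f (ell i c) else 0
    rw [map_sum]
    refine sum_congr rfl fun c _ => ?_
    rw [apply_ite f, map_zero]

theorem cfY_map {S S' : Type} [CommRing S] [CommRing S'] (f : S →+* S') {h M w : ℕ} {κ : Type} [Fintype κ]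
    {δ : Fin w → ℕ} {d' : Fin w → Fin h → ℕ} (b : IxM κ M δ d' → S) (g : (k : Fin w) → IxT κ (d' k) → S) (k : Fin w)
    (β : MWS.Mo M (δ k)) : f (cfY b g k β) = cfY (fun t => f (b t)) (fun k t => f (g k t)) k β := by
  unfold cfY
  rw [map_sum]
  exact sum_congr rfl fun t _ => map_mul _ _ _

theorem Ent_map {S S' κ : Type} [CommRing S] [CommRing S'] (f : S →+* S') {M : ℕ} {δ : κ → ℕ} (D : ℕ)
    (T : (k : κ) → MWS.Mo M (δ k) → S) (q : (k : κ) × MWS.Mo M (D - δ k)) (α : MWS.Mo M D) :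
    f (Ent D T q α) = Ent D (fun k γ => f (T k γ)) q α := by
  unfold Ent
  rw [map_sum]
  refine sum_congr rfl fun γ _ => ?_
  rw [apply_ite f, map_zero]

/-- the monomial `u c` -/
private def UG_e {M : ℕ} (c : Fin (M + 1)) : MWS.Mo M 1 :=
  ⟨fun j => if j = c then 1 else 0, by
    have h : ∀ j : Fin (M + 1), ((if j = c then (1 : Fin (1 + 1)) else 0 : Fin (1 + 1)) : ℕ) = if j = c then 1 else 0 := by
      intro j
      by_cases hj : j = c
      · rw [if_pos hj, if_pos hj]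
        rfl
      · rw [if_neg hj, if_neg hj]
        rfl
    rw [sum_congr rfl fun j _ => h j, sum_ite_eq' univ c, if_pos (mem_univ c)]⟩

private theorem UG_e_val {M : ℕ} (c j : Fin (M + 1)) : (((UG_e c).1 j : Fin (1 + 1)) : ℕ) = if j = c then 1 else 0 := by
  show ((if j = c then (1 : Fin (1 + 1)) else 0 : Fin (1 + 1)) : ℕ) = _
  by_cases hj : j = c
  · rw [if_pos hj, if_pos hj]
    rfl
  · rw [if_neg hj, if_neg hj]
    rfl

private theorem UG_mo {S : Type} [CommRing S] {M : ℕ} (u : Fin (M + 1) → S) (c : Fin (M + 1)) :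
    MWS.mo u (UG_e c) = u c := by
  unfold MWS.mo
  rw [prod_eq_single c]
  · rw [UG_e_val, if_pos rfl, pow_one]
  · intro j _ hj
    rw [UG_e_val, if_neg hj, pow_zero]
  · intro h
    exact absurd (mem_univ c) h

private theorem UG_eq {M : ℕ} (γ : MWS.Mo M 1) (c : Fin (M + 1)) (h : (γ.1 c : ℕ) = 1) : γ = UG_e c := by
  apply Subtype.ext
  funext j
  apply Fin.ext
  rw [UG_e_val]
  by_cases hj : j = c
  · rw [if_pos hj, hj, h]
  · rw [if_neg hj]
    have h1 := γ.2
    have h2 : (γ.1 c : ℕ) + (γ.1 j : ℕ) ≤ ∑ i, (γ.1 i : ℕ) := by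
      rw [← sum_pair (f := fun i => (γ.1 i : ℕ)) (Ne.symm hj)]
      exact sum_le_sum_of_subset (subset_univ _)
    omega

theorem fm_TT {S κ : Type} [CommRing S] {M r : ℕ} {δ : κ → ℕ} (T : (k : κ) → MWS.Mo M (δ k) → S)
    (ell : Fin r → Fin (M + 1) → S) (i : Fin r) (u : Fin (M + 1) → S) :
    fm (TT T ell (Sum.inr i)) u = ∑ c, ell i c * u c := by
  unfold fm
  show ∑ γ : MWS.Mo M 1, (∑ c, if (γ.1 c : ℕ) = 1 then ell i c else 0) * MWS.mo u γ = ∑ c, ell i c * u c
  have h1 : ∀ γ : MWS.Mo M 1, (∑ c, if (γ.1 c : ℕ) = 1 then ell i c else 0) * MWS.mo u γ =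
      ∑ c, (if (γ.1 c : ℕ) = 1 then ell i c else 0) * MWS.mo u γ := fun γ => sum_mul _ _ _
  rw [sum_congr rfl fun γ _ => h1 γ, sum_comm]
  refine sum_congr rfl fun c _ => ?_
  rw [sum_eq_single (UG_e c)]
  · rw [UG_e_val, if_pos rfl, if_pos rfl, UG_mo]
  · intro γ _ hγ
    rw [if_neg (fun h => hγ (UG_eq γ c h)), zero_mul]
  · intro h
    exact absurd (mem_univ _) h

theorem fm_cfY {F : Type} [Field F] {n h M w : ℕ} {κ : Type} [Fintype κ] {δ : Fin w → ℕ} {d' : Fin w → Fin h → ℕ}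
    (E' : Fin w → κ → Fin n → ℤ) (b : IxM κ M δ d' → F) (x : Fin n → F) (P : Fin h → Option (F × F))
    (u : Fin (M + 1) → F) (k : Fin w) :
    fm (cfY b (fun k t => bT (E' k) x P t) k) u = sM E' b x P u k := by
  unfold fm cfY sM
  rw [Fintype.sum_prod_type]
  refine sum_congr rfl fun γ _ => ?_
  rw [sum_mul]
  refine sum_congr rfl fun t _ => ?_
  ring

end VK
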