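import Pool.Agent.Lib.MP_17a322_ntVY.UA
import Pool.Agent.Lib.MP_17a322_ntVY.UB
import Pool.Agent.Lib.MP_17a322_ntVY.UG
import Pool.Agent.Lib.MP_17a322_ntLY.A4

/-!
# LEAF UI: the number of points of one fibre

PROOF.  `S = Sj (D + 1) (TT T ell)` by `sj_succ`.  For `b : Fin (M + 1)` apply it to `y α = 1` if `α` is the monomial `u b ^ (D + 1)` and `0` else: this gives `a_b`, and by `ent_ev` (leaf UA): `u b ^ (D + 1) = ∑ i, (if δ i ≤ D + 1 then fm (a_b ⟨inl i, ·⟩) u * fm (T i) u else 0) + ∑ j, fm (a_b ⟨inr j, ·⟩) u * fm (TT T ell (inr j)) u` for all `u`.  Count: the linear forms `t j = ∑ c, ell j c * u c` (`fm_TT`) take at most `(Nat.card k) ^ r` values together; for fixed `t` the points `u` with `fm (T i) u = v i` satisfy `u b ^ (D + 1) = eval u (A b)` with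
`A b = ∑ i with δ i ≤ D + 1, C (v i) * (form a_b ⟨inl i, ·⟩) + ∑ j, C (t j) * (form a_b ⟨inr j, ·⟩)` as polynomials: the `i`-th term is `0` if `v i = 0` and of degree at most `D + 1 - δ i < D + 1` else (`hv`), the others of degree at most `D`.  `LVY.bez` with `N = D + 1`: at most `(D + 1) ^ (M + 1)` of them.  The counting is as in `LVZ.slice` (`MP_17a322_ntLZ/A6.lean`: `Finset.card_le_mul_card_image`).
-/

namespace VK

open Finset

/-- the form with the coefficients `c` as a polynomial -/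
private noncomputable def UI_pf {k : Type} [Field k] {M d : ℕ} (c : MWS.Mo M d → k) :
    MvPolynomial (Fin (M + 1)) k :=
  ∑ γ : MWS.Mo M d, MvPolynomial.C (c γ) * ∏ i, MvPolynomial.X i ^ (γ.1 i : ℕ)

private theorem UI_eval {k : Type} [Field k] {M d : ℕ} (c : MWS.Mo M d → k) (u : Fin (M + 1) → k) :
    MvPolynomial.eval u (UI_pf c) = fm c u := by
  unfold UI_pf fm MWS.mo
  rw [map_sum]
  refine Finset.sum_congr rfl fun γ _ => ?_
  rw [map_mul, MvPolynomial.eval_C, map_prod]
  simp only [map_pow, MvPolynomial.eval_X]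

private theorem UI_deg {k : Type} [Field k] {M d : ℕ} (c : MWS.Mo M d → k) :
    (UI_pf c).totalDegree ≤ d := by
  unfold UI_pf
  refine MvPolynomial.totalDegree_finsetSum_le fun γ _ => ?_
  refine (MvPolynomial.totalDegree_mul _ _).trans ?_
  rw [MvPolynomial.totalDegree_C, zero_add]
  refine (MvPolynomial.totalDegree_finsetProd _ _).trans ?_
  refine le_trans (Finset.sum_le_sum fun i _ => ?_) (le_of_eq γ.2)
  refine (MvPolynomial.totalDegree_pow _ _).trans ?_
  rw [MvPolynomial.totalDegree_X, mul_one]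

private theorem UI_sum {F ι : Type} [Field F] [Fintype ι] {q N : ℕ} (hN : 1 ≤ N)
    (g : ι → MvPolynomial (Fin q) F) (hg : ∀ i, (g i).totalDegree < N) : (∑ i, g i).totalDegree < N := by
  refine lt_of_le_of_lt (MvPolynomial.totalDegree_finsetSum _ _) ?_
  rw [Finset.sup_lt_iff (by rw [bot_eq_zero]; exact hN)]
  exact fun i _ => hg i

private theorem UI_C {F : Type} [Field F] {q N : ℕ} (c : F) (g : MvPolynomial (Fin q) F)
    (hg : g.totalDegree < N) : (MvPolynomial.C c * g).totalDegree < N := by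
  refine lt_of_le_of_lt (MvPolynomial.totalDegree_mul _ _) ?_
  rw [MvPolynomial.totalDegree_C, zero_add]
  exact hg

theorem cnt_sj {k κ : Type} [Field k] [Finite k] [Fintype κ] {M r : ℕ} {δ : κ → ℕ} (D : ℕ)
    (T : (i : κ) → MWS.Mo M (δ i) → k) (ell : Fin r → Fin (M + 1) → k) (h : Sj D (TT T ell)) (v : κ → k)
    (hv : ∀ i, v i = 0 ∨ 1 ≤ δ i) :
    Nat.card {u : Fin (M + 1) → k // ∀ i, fm (T i) u = v i} ≤ (D + 1) ^ (M + 1) * Nat.card k ^ r := by
  classical
  have : Fintype k := Fintype.ofFinite k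
  have S := sj_succ D _ h
  have hm : ∀ b : Fin (M + 1), ∃ m : MWS.Mo M (D + 1), ∀ u : Fin (M + 1) → k,
      MWS.mo u m = u b ^ (D + 1) := by
    intro b
    refine ⟨⟨fun i => if i = b then Fin.last (D + 1) else 0, ?_⟩, fun u => ?_⟩
    · rw [Finset.sum_eq_single b]
      · show ((if b = b then Fin.last (D + 1) else 0 : Fin (D + 1 + 1)) : ℕ) = _
        rw [if_pos rfl, Fin.val_last]
      · intro i _ hi
        show ((if i = b then Fin.last (D + 1) else 0 : Fin (D + 1 + 1)) : ℕ) = _
        rw [if_neg hi, Fin.val_zero]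
      · intro hb
        exact absurd (Finset.mem_univ b) hb
    · unfold MWS.mo
      rw [Finset.prod_eq_single b]
      · show u b ^ ((if b = b then Fin.last (D + 1) else 0 : Fin (D + 1 + 1)) : ℕ) = _
        rw [if_pos rfl, Fin.val_last]
      · intro i _ hi
        show u i ^ ((if i = b then Fin.last (D + 1) else 0 : Fin (D + 1 + 1)) : ℕ) = _
        rw [if_neg hi, Fin.val_zero, pow_zero]
      · intro hb
        exact absurd (Finset.mem_univ b) hb
  choose m hm' using hm
  have ha : ∀ b, ∃ a : ((i : κ ⊕ Fin r) × MWS.Mo M (D + 1 - Sum.elim δ (fun _ => 1) i)) → k,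
      ∀ α, ∑ q, a q * Ent (D + 1) (TT T ell) q α = if α = m b then 1 else 0 :=
    fun b => S fun α => if α = m b then 1 else 0
  choose a ha' using ha
  have key : ∀ (b : Fin (M + 1)) (u : Fin (M + 1) → k), u b ^ (D + 1) =
      (∑ i : κ, if δ i ≤ D + 1 then fm (fun β => a b ⟨Sum.inl i, β⟩) u * fm (T i) u else 0) +
        ∑ j : Fin r, fm (fun β => a b ⟨Sum.inr j, β⟩) u * fm (TT T ell (Sum.inr j)) u := by
    intro b u
    have h1 := ent_ev (D + 1) (TT T ell) (a b) u
    have h2 : ∑ α, (∑ q, a b q * Ent (D + 1) (TT T ell) q α) * MWS.mo u α = u b ^ (D + 1) := by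
      rw [← hm' b u, Finset.sum_eq_single (m b)]
      · rw [ha', if_pos rfl, one_mul]
      · intro α _ hα
        rw [ha', if_neg hα, zero_mul]
      · intro hb
        exact absurd (Finset.mem_univ _) hb
    rw [← h2, h1, Fintype.sum_sum_type]
    refine congrArg₂ (· + ·) rfl (Finset.sum_congr rfl fun j _ => if_pos (Nat.le_add_left 1 D))
  obtain ⟨tt, htt⟩ : ∃ tt : (Fin (M + 1) → k) → (Fin r → k),
      ∀ u j, tt u j = fm (TT T ell (Sum.inr j)) u := ⟨fun u j => fm (TT T ell (Sum.inr j)) u,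
        fun _ _ => rfl⟩
  obtain ⟨Z, hZ⟩ : ∃ Z : Finset (Fin (M + 1) → k), ∀ u, u ∈ Z ↔ ∀ i, fm (T i) u = v i :=
    ⟨Finset.univ.filter fun u => ∀ i, fm (T i) u = v i, fun u => by
      rw [Finset.mem_filter, and_iff_right (Finset.mem_univ u)]⟩
  rw [Nat.subtype_card Z hZ]
  have h1 : ∀ t ∈ Z.image tt, (Z.filter fun x => tt x = t).card ≤ (D + 1) ^ (M + 1) := by
    intro t _
    refine LVY.bez (F := k) (N := D + 1) (fun b =>
      (∑ i : κ, if δ i ≤ D + 1 then MvPolynomial.C (v i) * UI_pf (fun β => a b ⟨Sum.inl i, β⟩) else 0) +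
        ∑ j : Fin r, MvPolynomial.C (t j) * UI_pf (fun β => a b ⟨Sum.inr j, β⟩)) ?_ _ ?_
    · intro b
      refine lt_of_le_of_lt (MvPolynomial.totalDegree_add _ _) ?_
      refine max_lt (UI_sum (Nat.le_add_left 1 D) _ fun i => ?_)
        (UI_sum (Nat.le_add_left 1 D) _ fun j => ?_)
      · by_cases hd : δ i ≤ D + 1
        · rw [if_pos hd]
          rcases hv i with h2 | h2
          · rw [h2, map_zero, zero_mul, MvPolynomial.totalDegree_zero]
            exact Nat.succ_pos D
          · refine UI_C _ _ (lt_of_le_of_lt (UI_deg _) ?_)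
            show D + 1 - δ i < D + 1
            omega
        · rw [if_neg hd, MvPolynomial.totalDegree_zero]
          exact Nat.succ_pos D
      · refine UI_C _ _ (lt_of_le_of_lt (UI_deg _) ?_)
        show D + 1 - 1 < D + 1
        omega
    · intro x hx b
      rw [Finset.mem_filter] at hx
      obtain ⟨hx1, hx3⟩ := hx
      rw [hZ] at hx1
      rw [key b x, map_add, map_sum, map_sum]
      congr 1
      · refine Finset.sum_congr rfl fun i _ => ?_
        by_cases hd : δ i ≤ D + 1
        · rw [if_pos hd, if_pos hd, map_mul, MvPolynomial.eval_C, UI_eval, hx1 i, mul_comm]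
        · rw [if_neg hd, if_neg hd, map_zero]
      · refine Finset.sum_congr rfl fun j _ => ?_
        rw [map_mul, MvPolynomial.eval_C, UI_eval, ← hx3, htt, mul_comm]
  refine (Finset.card_le_mul_card_image _ _ h1).trans ?_
  apply Nat.mul_le_mul_left
  refine (Finset.card_le_univ _).trans ?_
  rw [Fintype.card_fun, Fintype.card_fin, Nat.card_eq_fintype_card]

end VK
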