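import Pool.Agent.Lib.MP_17a322_ntVY.UH
import Pool.Agent.Lib.MP_17a322_ntVY.UI

/-!
# LEAF UJ: the number of points of all fibres

PROOF.  `cert` and `cnt_sj`, `fm_cfY`; `C = (D + 1) ^ (M + 1)`.
-/

namespace VK

open Finset NumberField

theorem cnt_fib (K : Type) [Field K] [NumberField K] {n h M w : ℕ} {κ : Type} [Fintype κ] {δ : Fin w → ℕ}
    {d' : Fin w → Fin h → ℕ} (A' B' : Fin h → 𝓞 K) (E' : Fin w → κ → Fin n → ℤ) (b : IxM κ M δ d' → 𝓞 K) (r : ℕ)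
    (hF : Fib A' B' E' b r) : ∃ C N0 : ℕ, N0 ≠ 0 ∧ ∀ (k : Type) [Field k] [Finite k] (φ : 𝓞 K →+* k), (N0 : k) ≠ 0 →
      ∀ (x : Fin n → k) (P : Fin h → Option (k × k)), (∀ l, x l ≠ 0) → (∀ l, IsPt (φ (A' l)) (φ (B' l)) (P l)) →
        ∀ v : Fin w → k, (∀ i, v i = 0 ∨ 1 ≤ δ i) →
          Nat.card {u : Fin (M + 1) → k // ∀ i, sM E' (fun t => φ (b t)) x P u i = v i} ≤ C * Nat.card k ^ r := by
  obtain ⟨L, ell, D, N0, hN0, hc⟩ := cert K A' B' E' b r hF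
  refine ⟨(D + 1) ^ (M + 1), N0, hN0, ?_⟩
  intro k _ _ φ hφ x P hx hP v hv
  obtain ⟨i, hi⟩ := hc k φ hφ x P hx hP
  have h1 := cnt_sj D (cfY (fun t => φ (b t)) (fun k t => bT (E' k) x P t))
    (fun a c => φ (ell i a c)) hi v hv
  have h2 : ∀ u : Fin (M + 1) → k,
      (∀ i, sM E' (fun t => φ (b t)) x P u i = v i) ↔
        ∀ i, fm (cfY (fun t => φ (b t)) (fun k t => bT (E' k) x P t) i) u = v i := by
    intro u
    refine forall_congr' fun j => ?_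
    rw [fm_cfY]
  rw [Nat.card_congr (Equiv.subtypeEquivRight h2)]
  exact h1

end VK
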