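import Pool.Agent.Lib.MP_17a322_ntVB.Defs

/-!
# Complete intersections in any fixed variety over `G_m^n × B`: the definitions of the statement
-/

namespace VK

open Finset NumberField

/-- `(x, P, u)` is a common zero of the `w` sections on `G_m^n × B × ℙ^M` with the coefficients `b` -/
def OnY {F : Type} [Field F] {n h M w : ℕ} {κ : Type} [Fintype κ] {δ : Fin w → ℕ} {d' : Fin w → Fin h → ℕ}
    (E' : Fin w → κ → Fin n → ℤ) (b : IxM κ M δ d' → F) (x : Fin n → F) (P : Fin h → Option (F × F))
    (u : Fin (M + 1) → F) : Prop := ∀ k, sM E' b x P u k = 0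

/-- for every point of `G_m^n × B` over the algebraic closure there are `r` linear forms without common zero on the fibre
of the common zero set of the sections with the coefficients `b`: all its fibres have dimension at most `r - 1` -/
def FibP {K : Type} [Field K] [NumberField K] {n h M w : ℕ} {κ : Type} [Fintype κ] {δ : Fin w → ℕ}
    {d' : Fin w → Fin h → ℕ} (A' B' : Fin h → 𝓞 K) (E' : Fin w → κ → Fin n → ℤ) (b : IxM κ M δ d' → 𝓞 K) (r : ℕ) :
    Prop :=
  ∀ (x : Fin n → AlgebraicClosure K) (P : Fin h → Option (AlgebraicClosure K × AlgebraicClosure K)), (∀ l, x l ≠ 0) →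
    (∀ l, IsPt (algebraMap K (AlgebraicClosure K) (A' l)) (algebraMap K (AlgebraicClosure K) (B' l)) (P l)) →
    ∃ ell : Fin r → Fin (M + 1) → AlgebraicClosure K, ∀ u : Fin (M + 1) → AlgebraicClosure K,
      OnY E' (fun t => algebraMap K (AlgebraicClosure K) (b t)) x P u → (∀ a, ∑ c, ell a c * u c = 0) → u = 0

/-- the local factor `(max_i |u_i|_v) ^ μ ∏_l max (1, |x(P_l)|_v) ^ (d l)` of the sections of
`O(2 d_1 O) ⊠ .. ⊠ O(2 d_g O) ⊠ O(μ)` at the point `(P, u)` -/
noncomputable def lf {K : Type} [Field K] [NumberField K] {g M : ℕ} (v : FinitePlace K) (μ : ℕ) (d : Fin g → ℕ)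
    (P : Fin g → Option (K × K)) (u : Fin (M + 1) → K) : ℝ :=
  (⨆ i, v (u i)) ^ μ * ∏ l, max 1 (v ((P l).elim 0 Prod.fst)) ^ d l

end VK
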