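import Pool.Agent.Lib.MP_17a322_ntVY.CMDef

/-!
# LEAF CE: reduction of Abel's equation

PROOF.  Let `P`, `Q`, `m` be as in `IsCM`.  There is an integer `N ≠ 0` such that `N * P`, `N * Q` are the images of `P₁`, `Q₁ : (𝓞 K)[X]` and `m = m₁ / m₂` with `m₁, m₂ : 𝓞 K` not `0` (`IsLocalization.integerNormalization`, `IsLocalization.exist_integer_multiples`; `IsIntegralClosure`/`NumberField.RingOfIntegers` is integral over `ℤ`: every `a : K` has `n ≠ 0` in `ℤ` with `n * a` integral).  `R₁ = P₁' Q₁ - P₁ Q₁'` is the image of `N ^ 2 R`, and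
`C (T * m₁ ^ 2) * (Q₁ * (P₁ ^ 3 + C A * P₁ * Q₁ ^ 2 + C B * Q₁ ^ 3)) = C (m₂ ^ 2) * (X ^ 3 + C A * X + C B) * R₁ ^ 2` in `(𝓞 K)[X]` (both sides of the equation of `IsCM` times `N ^ 4 * m₂ ^ 2`; the map `(𝓞 K)[X] → K[X]` is injective).  Let `c` be a nonzero coefficient of `R₁`.  For a ring homomorphism `φ : 𝓞 K → ZMod p` and `a ≠ 0` in `𝓞 K` with `φ a = 0` the prime `p` divides the norm of `a` (`Algebra.norm ℤ a ≠ 0`, and `a` divides its norm in `𝓞 K`: `Algebra.dvd_norm` or `Ideal.absNorm_mem`), so for `p > |norm (m₁ m₂ c)|` we have `φ m₁, φ m₂, φ c ≠ 0`.  Map the equation by `φ` and divide by `φ m₂ ^ 2`: `μ = T * (φ m₁ / φ m₂) ^ 2`, not a square as `T` is not a square modulo `p`; the polynomials `P₁.map φ`, `Q₁.map φ` (`Polynomial.derivative_map`); `R₁.map φ ≠ 0` as its coefficient `φ c ≠ 0`.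
-/

namespace VK

open Polynomial NumberField

private theorem CE_norm {K : Type} [Field K] [NumberField K] (P : K[X]) :
    ∃ (P₁ : (𝓞 K)[X]) (b : 𝓞 K), b ≠ 0 ∧ P₁.map (algebraMap (𝓞 K) K) = C (algebraMap (𝓞 K) K b) * P := by
  obtain ⟨b, hbm, hb⟩ := IsLocalization.integerNormalization_spec (nonZeroDivisors (𝓞 K)) P
  refine ⟨_, b, nonZeroDivisors.ne_zero hbm, hb.trans ?_⟩
  ext i
  rw [coeff_smul, coeff_C_mul, Algebra.smul_def]

private theorem CE_norm2 {K : Type} [Field K] [NumberField K] (P Q : K[X]) :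
    ∃ (P₁ Q₁ : (𝓞 K)[X]) (n : K), n ≠ 0 ∧ P₁.map (algebraMap (𝓞 K) K) = C n * P ∧
      Q₁.map (algebraMap (𝓞 K) K) = C n * Q := by
  obtain ⟨P₁, b, hb, hP⟩ := CE_norm P
  obtain ⟨Q₁, b', hb', hQ⟩ := CE_norm Q
  refine ⟨C b' * P₁, C b * Q₁, algebraMap (𝓞 K) K (b * b'), ?_, ?_, ?_⟩
  · exact (map_ne_zero_iff _ (FaithfulSMul.algebraMap_injective (𝓞 K) K)).2 (mul_ne_zero hb hb')
  · rw [Polynomial.map_mul, map_C, hP, map_mul, map_mul]
    ring
  · rw [Polynomial.map_mul, map_C, hQ, map_mul, map_mul]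
    ring

private theorem CE_dvd {K : Type} [Field K] [NumberField K] (a : 𝓞 K) {p : ℕ} (φ : 𝓞 K →+* ZMod p) (h : φ a = 0) :
    p ∣ Ideal.absNorm (Ideal.span {a}) := by
  have h1 := Ideal.absNorm_mem (Ideal.span {a})
  obtain ⟨b, hb⟩ := Ideal.mem_span_singleton.1 h1
  have h2 := congrArg φ hb
  rw [map_mul, h, zero_mul, map_natCast] at h2
  exact (ZMod.natCast_eq_zero_iff _ _).1 h2

theorem cm_red {K : Type} [Field K] [NumberField K] (T : ℤ) (A B : 𝓞 K) (h : IsCM T ((A : 𝓞 K) : K) ((B : 𝓞 K) : K)) :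
    ∃ p1 : ℕ, ∀ (p : ℕ) [Fact p.Prime], p1 ≤ p → ¬ IsSquare ((T : ℤ) : ZMod p) → ∀ φ : 𝓞 K →+* ZMod p,
      ∃ (μ : ZMod p) (P Q : (ZMod p)[X]), ¬ IsSquare μ ∧ derivative P * Q - P * derivative Q ≠ 0 ∧
        C μ * (Q * (P ^ 3 + C (φ A) * P * Q ^ 2 + C (φ B) * Q ^ 3)) =
          (X ^ 3 + C (φ A) * X + C (φ B)) * (derivative P * Q - P * derivative Q) ^ 2 := by
  obtain ⟨P, Q, m, hm, hR, hE⟩ := h
  obtain ⟨P₁, Q₁, n, hn, hP, hQ⟩ := CE_norm2 P Q
  obtain ⟨m₁, m₂, hm₂, hm12⟩ := IsFractionRing.div_surjective (A := 𝓞 K) m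
  have hm₂0 : m₂ ≠ 0 := nonZeroDivisors.ne_zero hm₂
  have hinj := FaithfulSMul.algebraMap_injective (𝓞 K) K
  have hm₂K : algebraMap (𝓞 K) K m₂ ≠ 0 := (map_ne_zero_iff _ hinj).2 hm₂0
  have hmm : m * algebraMap (𝓞 K) K m₂ = algebraMap (𝓞 K) K m₁ := by
    rw [← hm12, div_mul_cancel₀ _ hm₂K]
  have hm₁0 : m₁ ≠ 0 := by
    rintro rfl
    rw [map_zero] at hmm
    exact mul_ne_zero hm hm₂K hmm
  have hRm : (derivative P₁ * Q₁ - P₁ * derivative Q₁).map (algebraMap (𝓞 K) K) =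
      C (n ^ 2) * (derivative P * Q - P * derivative Q) := by
    rw [Polynomial.map_sub, Polynomial.map_mul, Polynomial.map_mul, ← derivative_map, ← derivative_map, hP, hQ,
      derivative_C_mul, derivative_C_mul, C_pow]
    ring
  have hR₁ : derivative P₁ * Q₁ - P₁ * derivative Q₁ ≠ 0 := by
    intro h0
    rw [h0, Polynomial.map_zero] at hRm
    exact mul_ne_zero (C_ne_zero.2 (pow_ne_zero 2 hn)) hR hRm.symm
  obtain ⟨i, hi⟩ : ∃ i, (derivative P₁ * Q₁ - P₁ * derivative Q₁).coeff i ≠ 0 := by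
    by_contra hcon
    push Not at hcon
    exact hR₁ (Polynomial.ext fun i => by rw [hcon i, coeff_zero])
  have hE₁ : C (((T : ℤ) : 𝓞 K) * m₁ ^ 2) * (Q₁ * (P₁ ^ 3 + C A * P₁ * Q₁ ^ 2 + C B * Q₁ ^ 3)) =
      C (m₂ ^ 2) * ((X ^ 3 + C A * X + C B) * (derivative P₁ * Q₁ - P₁ * derivative Q₁) ^ 2) := by
    apply Polynomial.map_injective _ hinj
    have e1 : C (algebraMap (𝓞 K) K m₁) = C m * C (algebraMap (𝓞 K) K m₂) := by
      rw [← C_mul, hmm]
    have hE' : C (T : K) * C m ^ 2 * (Q * (P ^ 3 + C ((A : 𝓞 K) : K) * P * Q ^ 2 + C ((B : 𝓞 K) : K) * Q ^ 3)) =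
        (X ^ 3 + C ((A : 𝓞 K) : K) * X + C ((B : 𝓞 K) : K)) * (derivative P * Q - P * derivative Q) ^ 2 := by
      rw [← hE, C_mul, C_pow]
    rw [Polynomial.map_mul, Polynomial.map_mul, Polynomial.map_mul, Polynomial.map_mul, Polynomial.map_pow (n := 2), hRm,
      Polynomial.map_add, Polynomial.map_add, Polynomial.map_add, Polynomial.map_add, Polynomial.map_mul, Polynomial.map_mul,
      Polynomial.map_mul, Polynomial.map_mul, Polynomial.map_pow, Polynomial.map_pow, Polynomial.map_pow, Polynomial.map_pow,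
      hP, hQ, map_C, map_C, map_C, map_C, map_X, map_mul, map_pow, map_pow, map_intCast, C_mul, C_pow, C_pow, C_pow, e1]
    linear_combination (C (algebraMap (𝓞 K) K m₂) ^ 2 * C n ^ 4) * hE'
  obtain ⟨a, ha⟩ : ∃ a : 𝓞 K, a = m₁ * m₂ * (derivative P₁ * Q₁ - P₁ * derivative Q₁).coeff i := ⟨_, rfl⟩
  have ha0 : a ≠ 0 := by
    rw [ha]
    exact mul_ne_zero (mul_ne_zero hm₁0 hm₂0) hi
  refine ⟨Ideal.absNorm (Ideal.span {a}) + 1, fun p hp hp1 hT φ => ?_⟩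
  have hφa : φ a ≠ 0 := by
    intro h0
    have h1 := CE_dvd a φ h0
    have h2 : Ideal.absNorm (Ideal.span {a}) ≠ 0 := by
      rw [Ne, Ideal.absNorm_eq_zero_iff, Ideal.span_singleton_eq_bot]
      exact ha0
    have h3 := Nat.le_of_dvd (Nat.pos_of_ne_zero h2) h1
    omega
  rw [ha, map_mul, map_mul] at hφa
  have hφc := right_ne_zero_of_mul hφa
  have hφ1 := left_ne_zero_of_mul (left_ne_zero_of_mul hφa)
  have hφ2 := right_ne_zero_of_mul (left_ne_zero_of_mul hφa)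
  have hRφ : derivative (P₁.map φ) * Q₁.map φ - P₁.map φ * derivative (Q₁.map φ) =
      (derivative P₁ * Q₁ - P₁ * derivative Q₁).map φ := by
    rw [Polynomial.map_sub, Polynomial.map_mul, Polynomial.map_mul, derivative_map, derivative_map]
  refine ⟨((T : ℤ) : ZMod p) * (φ m₁ / φ m₂) ^ 2, P₁.map φ, Q₁.map φ, ?_, ?_, ?_⟩
  · rintro ⟨r, hr⟩
    refine hT ⟨r * (φ m₂ / φ m₁), ?_⟩
    have h1 : ((T : ℤ) : ZMod p) = ((T : ℤ) : ZMod p) * (φ m₁ / φ m₂) ^ 2 * (φ m₂ / φ m₁) ^ 2 := by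
      field_simp
    rw [h1, hr]
    ring
  · rw [hRφ]
    intro h0
    apply hφc
    rw [← coeff_map, h0, coeff_zero]
  · rw [hRφ]
    have h1 := congrArg (Polynomial.map φ) hE₁
    rw [Polynomial.map_mul, Polynomial.map_mul, Polynomial.map_mul, Polynomial.map_mul,
      Polynomial.map_pow (n := 2) (p := derivative P₁ * Q₁ - P₁ * derivative Q₁), map_C, map_C, map_mul, map_pow, map_pow,
      map_intCast] at h1
    have e2 : (P₁ ^ 3 + C A * P₁ * Q₁ ^ 2 + C B * Q₁ ^ 3).map φ =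
        P₁.map φ ^ 3 + C (φ A) * P₁.map φ * Q₁.map φ ^ 2 + C (φ B) * Q₁.map φ ^ 3 := by
      simp only [Polynomial.map_add, Polynomial.map_mul, Polynomial.map_pow, map_C]
    have e3 : (X ^ 3 + C A * X + C B : (𝓞 K)[X]).map φ = X ^ 3 + C (φ A) * X + C (φ B) := by
      simp only [Polynomial.map_add, Polynomial.map_mul, Polynomial.map_pow, map_C, map_X]
    rw [e2, e3] at h1
    have h2 : C (((T : ℤ) : ZMod p) * (φ m₁ / φ m₂) ^ 2) =
        C ((φ m₂ ^ 2)⁻¹) * C (((T : ℤ) : ZMod p) * φ m₁ ^ 2) := by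
      rw [← C_mul]
      congr 1
      field_simp
    have h3 : C ((φ m₂ ^ 2)⁻¹) * C (φ m₂ ^ 2) = (1 : (ZMod p)[X]) := by
      rw [← C_mul, inv_mul_cancel₀ (pow_ne_zero 2 hφ2), C_1]
    rw [h2, mul_assoc, h1, ← mul_assoc, h3, one_mul]

end VK
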