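import Pool.Agent.Lib.MP_17a322_ntVY.CB

/-!
# LEAF CC: the Hasse invariant of a curve with complex multiplication vanishes at the inert primes

PROOF.  Let `F = X ^ 3 + C A * X + C B`, `k = (p - 1) / 2`, `R = P' Q - P Q'`, `N = P ^ 3 + C A * P * Q ^ 2 + C B * Q ^ 3`, `H` the coefficient.  `h` to the power `k`: `F ^ k * R ^ (p - 1) = C (μ ^ k) * Q ^ k * N ^ k`, and `μ ^ k = -1` as `μ` is not a square (`ZMod.euler_criterion`, `ZMod.pow_div_two_eq_neg_one_or_one`; `μ ≠ 0`).  So `G := Q ^ k * N ^ k * R = - F ^ k * R ^ p`.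
(1) `derivative^[p - 1] G = -R ^ p * derivative^[p - 1] (F ^ k)` (the derivative of a `p`-th power is `0`), and `derivative^[p - 1] (F ^ k) = C (-H)`: the coefficient at `j` is `descFactorial (j + p - 1) (p - 1) * coeff (F ^ k) (j + p - 1)`, for `j = 0` it is `(p - 1)! * H = -H`, for `1 ≤ j ≤ p - 1` the first factor is divisible by `p` (the product of the `p - 1` numbers `j + 1, .., j + p - 1` contains `p`), for `j ≥ p` the second one is `0` (degree of `F ^ k` is `3 k < 2 p - 1`).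
(2) `F ^ k = ∑ i in range (3 k + 1), C a_i * X ^ i`, so `N ^ k = ∑ C a_i * P ^ i * Q ^ (3 k - i)` (homogenisation; e.g. the sum over the coefficients: both sides are the image of `F ^ k` under the map `∑ a_i X ^ i ↦ ∑ a_i P ^ i Q ^ (d - i)` on polynomials of degree `≤ d`, multiplicative in the degrees; or in the field of fractions: `N = Q ^ 3 * F(P / Q)`), `G = ∑ C a_i * P ^ i * Q ^ (4 k - i) * R` with `4 k = 2 p - 2`, and `derivative^[p - 1] G = C H * (-R ^ p)` by `jac_quot`.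
So `C H * R ^ p = - C H * R ^ p`, `2 * C H * R ^ p = 0`, `H = 0` (`R ≠ 0`; `Q ≠ 0` follows from `R ≠ 0` and `h`).
-/

namespace VK

open Polynomial

private theorem CC_hom {p : ℕ} [Fact p.Prime] (A B : ZMod p) (P Q : (ZMod p)[X]) (hQ : Q ≠ 0) (k : ℕ) :
    (P ^ 3 + C A * P * Q ^ 2 + C B * Q ^ 3) ^ k =
      ∑ i ∈ Finset.range (3 * k + 1),
        C (((X ^ 3 + C A * X + C B : (ZMod p)[X]) ^ k).coeff i) * (P ^ i * Q ^ (3 * k - i)) := by
  obtain ⟨φ, hφ⟩ : ∃ φ : (ZMod p)[X] →+* RatFunc (ZMod p), φ = algebraMap (ZMod p)[X] (RatFunc (ZMod p)) :=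
    ⟨_, rfl⟩
  have hinj : Function.Injective φ := by
    rw [hφ]
    exact IsFractionRing.injective (ZMod p)[X] (RatFunc (ZMod p))
  have hq : φ Q ≠ 0 := (map_ne_zero_iff φ hinj).2 hQ
  have hdeg : ((X ^ 3 + C A * X + C B : (ZMod p)[X]) ^ k).natDegree < 3 * k + 1 := by
    have h1 : (X ^ 3 + C A * X + C B : (ZMod p)[X]).natDegree ≤ 3 := by compute_degree
    have h2 := natDegree_pow_le (p := (X ^ 3 + C A * X + C B : (ZMod p)[X])) (n := k)
    nlinarith
  have h1 : eval₂ (φ.comp C) (φ P / φ Q) ((X ^ 3 + C A * X + C B : (ZMod p)[X]) ^ k) =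
      ((φ P / φ Q) ^ 3 + φ (C A) * (φ P / φ Q) + φ (C B)) ^ k := by
    rw [eval₂_pow, eval₂_add, eval₂_add, eval₂_mul, eval₂_pow, eval₂_X, eval₂_C, eval₂_C]
    rfl
  rw [eval₂_eq_sum_range' (φ.comp C) hdeg (φ P / φ Q)] at h1
  refine hinj ?_
  rw [map_pow, map_sum]
  have h2 : φ (P ^ 3 + C A * P * Q ^ 2 + C B * Q ^ 3) =
      φ Q ^ 3 * ((φ P / φ Q) ^ 3 + φ (C A) * (φ P / φ Q) + φ (C B)) := by
    simp only [map_add, map_mul, map_pow]
    field_simp
  rw [h2, mul_pow, ← h1, ← pow_mul, Finset.mul_sum]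
  refine Finset.sum_congr rfl fun i hi => ?_
  have h3 : i ≤ 3 * k := Nat.lt_succ_iff.1 (Finset.mem_range.1 hi)
  have h4 : φ Q ^ (3 * k) = φ Q ^ (3 * k - i) * φ Q ^ i := by
    rw [← pow_add, Nat.sub_add_cancel h3]
  rw [map_mul, map_mul, map_pow, map_pow, h4, div_pow, RingHom.comp_apply]
  field_simp

private theorem CC_lin {p : ℕ} [Fact p.Prime] (R W : (ZMod p)[X]) (n : ℕ) :
    derivative^[n] (R ^ p * W) = R ^ p * derivative^[n] W := by
  induction n with
  | zero => rfl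
  | succ n ih =>
    rw [Function.iterate_succ_apply', ih, Function.iterate_succ_apply', derivative_mul, derivative_pow,
      CharP.cast_eq_zero, map_zero, zero_mul, zero_mul, zero_mul, zero_add]

private theorem CC_one {p : ℕ} [Fact p.Prime] (W : (ZMod p)[X]) (hW : W.natDegree < 2 * p - 1) :
    derivative^[p - 1] W = -C (W.coeff (p - 1)) := by
  have hp : p.Prime := Fact.out
  have hp1 : 1 ≤ p := hp.one_lt.le
  ext m
  rw [coeff_iterate_derivative, coeff_neg, coeff_C]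
  rcases Nat.eq_zero_or_pos m with hm | hm
  · rw [hm, if_pos rfl, zero_add, Nat.descFactorial_self, nsmul_eq_mul, ZMod.wilsons_lemma, neg_one_mul]
  · rw [if_neg hm.ne', neg_zero]
    by_cases hmp : m < p
    · have h1 : p ∣ m * (m + (p - 1)).descFactorial (p - 1) := by
        have h2 : (m + (p - 1)).descFactorial (p - 1 + 1) = m * (m + (p - 1)).descFactorial (p - 1) := by
          rw [Nat.descFactorial_succ, Nat.add_sub_cancel]
        rw [← h2, Nat.sub_add_cancel hp1]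
        exact (Nat.dvd_factorial hp.pos le_rfl).trans (Nat.factorial_dvd_descFactorial _ _)
      have h3 : p ∣ (m + (p - 1)).descFactorial (p - 1) :=
        (hp.dvd_mul.1 h1).resolve_left fun h => absurd (Nat.le_of_dvd hm h) (not_le.2 hmp)
      rw [nsmul_eq_mul, (CharP.cast_eq_zero_iff (ZMod p) p _).2 h3, zero_mul]
    · rw [coeff_eq_zero_of_natDegree_lt (by omega), smul_zero]

theorem hasse_zero {p : ℕ} [Fact p.Prime] (hp : 5 ≤ p) (A B μ : ZMod p) (hμ : ¬ IsSquare μ) (P Q : (ZMod p)[X])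
    (hR : derivative P * Q - P * derivative Q ≠ 0)
    (h : C μ * (Q * (P ^ 3 + C A * P * Q ^ 2 + C B * Q ^ 3)) =
      (X ^ 3 + C A * X + C B) * (derivative P * Q - P * derivative Q) ^ 2) :
    ((X ^ 3 + C A * X + C B : (ZMod p)[X]) ^ ((p - 1) / 2)).coeff (p - 1) = 0 := by
  have hpp : p.Prime := Fact.out
  obtain ⟨k, hk⟩ : ∃ k : ℕ, p = 2 * k + 1 := hpp.odd_of_ne_two (by omega)
  have hk2 : (p - 1) / 2 = k := by omega
  have hp1 : p - 1 = 2 * k := by omega
  rw [hk2]
  obtain ⟨F, hF⟩ : ∃ F : (ZMod p)[X], F = X ^ 3 + C A * X + C B := ⟨_, rfl⟩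
  obtain ⟨R, hRd⟩ : ∃ R : (ZMod p)[X], R = derivative P * Q - P * derivative Q := ⟨_, rfl⟩
  obtain ⟨N, hN⟩ : ∃ N : (ZMod p)[X], N = P ^ 3 + C A * P * Q ^ 2 + C B * Q ^ 3 := ⟨_, rfl⟩
  have hFd : F.natDegree = 3 := by
    rw [hF]
    compute_degree!
  have hF0 : F ≠ 0 := fun h0 => by
    rw [h0, natDegree_zero] at hFd
    omega
  rw [← hRd, ← hF, ← hN] at h
  rw [← hRd] at hR
  have hQ : Q ≠ 0 := by
    intro h0
    rw [h0, zero_mul, mul_zero] at h
    exact mul_ne_zero hF0 (pow_ne_zero 2 hR) h.symm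
  have hμ0 : μ ≠ 0 := by
    intro h0
    exact hμ (by rw [h0]; exact IsSquare.zero)
  have hμk : μ ^ k = -1 := by
    have h1 := ZMod.pow_div_two_eq_neg_one_or_one p hμ0
    have h2 := (ZMod.euler_criterion p hμ0).not.1 hμ
    have h3 : p / 2 = k := by omega
    rw [h3] at h1 h2
    exact h1.resolve_left h2
  have hG : Q ^ k * N ^ k * R = -(R ^ p * F ^ k) := by
    have h1 : (C μ * (Q * N)) ^ k = (F * R ^ 2) ^ k := by rw [h]
    rw [mul_pow, ← map_pow, hμk, map_neg, map_one, mul_pow, mul_pow, ← pow_mul] at h1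
    have h2 : R ^ p = R ^ (2 * k) * R := by
      rw [← pow_succ, ← hk]
    rw [h2]
    linear_combination (-R) * h1
  rw [← hF]
  obtain ⟨H, hH⟩ : ∃ H : ZMod p, H = (F ^ k).coeff (p - 1) := ⟨_, rfl⟩
  rw [← hH]
  have hFk : (F ^ k).natDegree < 2 * p - 1 := by
    have h1 := natDegree_pow_le (p := F) (n := k)
    rw [hFd] at h1
    omega
  have e1 : derivative^[p - 1] (Q ^ k * N ^ k * R) = R ^ p * C H := by
    rw [hG, iterate_derivative_neg, CC_lin, CC_one _ hFk, ← hH]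
    ring
  have e2 : derivative^[p - 1] (Q ^ k * N ^ k * R) = -(R ^ p * C H) := by
    have h1 : Q ^ k * N ^ k * R =
        ∑ i ∈ Finset.range (3 * k + 1), C ((F ^ k).coeff i) * (P ^ i * Q ^ (2 * p - 2 - i) * R) := by
      rw [hN, CC_hom A B P Q hQ k, ← hF, Finset.mul_sum, Finset.sum_mul]
      refine Finset.sum_congr rfl fun i hi => ?_
      have h3 : i ≤ 3 * k := Nat.lt_succ_iff.1 (Finset.mem_range.1 hi)
      have h4 : 2 * p - 2 - i = k + (3 * k - i) := by omega
      rw [h4, pow_add]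
      ring
    rw [h1, iterate_derivative_sum, Finset.sum_eq_single (p - 1)]
    · rw [iterate_derivative_C_mul, hRd, jac_quot P Q (by omega), if_pos rfl, ← hRd, ← hH]
      ring
    · intro i hi hne
      have h3 : i ≤ 3 * k := Nat.lt_succ_iff.1 (Finset.mem_range.1 hi)
      rw [iterate_derivative_C_mul, hRd, jac_quot P Q (by omega), if_neg hne, mul_zero]
    · intro h3
      exact absurd (Finset.mem_range.2 (by omega)) h3
  have e3 : R ^ p * C (2 * H) = 0 := by
    rw [C_mul, C_ofNat]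
    linear_combination e2 - e1
  have h2 : (2 : ZMod p) ≠ 0 := by
    intro h0
    have h3 : ((2 : ℕ) : ZMod p) = 0 := by exact_mod_cast h0
    have h4 := Nat.le_of_dvd (by norm_num) ((CharP.cast_eq_zero_iff (ZMod p) p 2).1 h3)
    omega
  have h5 := C_eq_zero.1 ((mul_eq_zero.1 e3).resolve_left (pow_ne_zero p hR))
  exact (mul_eq_zero.1 h5).resolve_left h2

end VK
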