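import Mathlib

/-!
# LEAF CD: a curve with Hasse invariant zero has `p` affine points (Mathlib only)

PROOF.  Let `F = X ^ 3 + C A * X + C B`, `k = (p - 1) / 2`.  The number of points is `∑ x, (1 + χ (F x)) = p + a`, `a = ∑ x, χ (F x)`, `χ = quadraticChar (ZMod p)` (`quadraticChar_card_sqrts`; `MP_17a322_ntVB/BD.lean` has this count: lemma `BD_card` and the proof of `nz_four`, to be copied).  In `ZMod p`: `a = ∑ x, (F x) ^ k` (`quadraticChar_eq_pow_of_char_ne_two'`), and `∑ x, x ^ i = 0` for `i` not divisible by `p - 1` or `i = 0`, `-1` for `i = p - 1` (`FiniteField.sum_pow_lt_card_sub_one`, `ZMod`; only `i ≤ 3 k < 2 (p - 1)` occur), so `a = - coeff (F ^ k) (p - 1) = 0` in `ZMod p`, `p ∣ a`, `|a| ≤ p`.  So `a = 0`, or `a = p`, or `a = -p`; in the last two cases `χ (F x) = ε` for all `x`, `ε = 1` or `ε = -1`.  Then `F ^ k - C ε` vanishes at all `x`, so it is `(X ^ p - X) * G` (`FiniteField.X_pow_card_sub_X_dvd..`, or: `∏ (X - C x) = X ^ p - X` divides it), `G` of degree `3 k - p < p`.  Taking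 derivatives and multiplying by `F`: `k F ^ k F' = - F G + (X ^ p - X) F G'`, with `F ^ k = C ε + (X ^ p - X) G`: `k ε F' + F G = (X ^ p - X) (F G' - k G F')`.  The left side has degree `≤ 3 + (3 k - p) < p`, so both sides are `0` and `F G = - k ε F'`; `F' ≠ 0` (leading coefficient `3 ≠ 0`), so `G ≠ 0` and the degree of the left side is at least `3`, of the right side `2`: a contradiction.
-/

namespace VK

open Polynomial

private theorem CD_pow {p : ℕ} [Fact p.Prime] {i : ℕ} (hi : i < 2 * (p - 1)) :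
    ∑ x : ZMod p, x ^ i = if i = p - 1 then -1 else 0 := by
  classical
  have hp1 := (Fact.out : p.Prime).one_lt
  by_cases h0 : i = 0
  · subst h0
    rw [if_neg (by omega)]
    simp
  · have h1 : ∑ x : ZMod p, x ^ i = ∑ x : (ZMod p)ˣ, ((x : ZMod p) ^ i) := by
      have h2 : (Finset.univ : Finset (ZMod p)ˣ).map ⟨fun x : (ZMod p)ˣ => (x : ZMod p), fun _ _ hxy => Units.ext hxy⟩ =
          Finset.univ \ {0} := by
        ext x
        simp only [Finset.mem_map, Finset.mem_univ, Function.Embedding.coeFn_mk, true_and, Finset.mem_sdiff,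
          Finset.mem_singleton]
        exact isUnit_iff_ne_zero
      rw [← Finset.sum_sdiff (Finset.subset_univ ({0} : Finset (ZMod p))), Finset.sum_singleton, zero_pow h0,
        add_zero, ← h2, Finset.sum_map]
      rfl
    have h3 : ∑ x : (ZMod p)ˣ, ((x : ZMod p) ^ i) = if p - 1 ∣ i then -1 else 0 := by
      have h4 := FiniteField.sum_pow_units (ZMod p) i
      rw [ZMod.card] at h4
      exact h4
    rw [h1, h3]
    by_cases hi1 : i = p - 1
    · rw [if_pos hi1, if_pos (by rw [hi1])]
    · rw [if_neg hi1, if_neg]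
      rintro ⟨m, hm⟩
      have hm0 : m ≠ 0 := by
        rintro rfl
        exact h0 (by rw [hm, mul_zero])
      have hm1 : m ≠ 1 := by
        rintro rfl
        exact hi1 (by rw [hm, mul_one])
      have hm2 : 2 ≤ m := by omega
      have h5 : (p - 1) * 2 ≤ (p - 1) * m := Nat.mul_le_mul_left _ hm2
      omega

private theorem CD_sum {p : ℕ} [Fact p.Prime] (Q : (ZMod p)[X]) (hQ : Q.natDegree < 2 * (p - 1)) :
    ∑ x : ZMod p, Q.eval x = -Q.coeff (p - 1) := by
  have h1 : ∀ x : ZMod p, Q.eval x = ∑ i ∈ Finset.range (2 * (p - 1)), Q.coeff i * x ^ i := fun x =>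
    Polynomial.eval_eq_sum_range' hQ x
  have hp1 := (Fact.out : p.Prime).one_lt
  rw [Finset.sum_congr rfl fun x _ => h1 x, Finset.sum_comm]
  have h2 : ∀ i ∈ Finset.range (2 * (p - 1)), ∑ x : ZMod p, Q.coeff i * x ^ i =
      if i = p - 1 then -Q.coeff (p - 1) else 0 := by
    intro i hi
    rw [← Finset.mul_sum, CD_pow (Finset.mem_range.mp hi)]
    split_ifs with h
    · rw [h, mul_neg, mul_one]
    · rw [mul_zero]
  rw [Finset.sum_congr rfl h2, Finset.sum_ite_eq', if_pos (Finset.mem_range.mpr (by omega))]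

private theorem CD_deriv {p : ℕ} [Fact p.Prime] : derivative (X ^ p - X : (ZMod p)[X]) = -1 := by
  rw [derivative_sub, derivative_X_pow, derivative_X, CharP.cast_eq_zero, map_zero, zero_mul, zero_sub]

/-- `F ^ k` cannot be constant on `ZMod p` -/
private theorem CD_const {p : ℕ} [Fact p.Prime] (hp : 5 ≤ p) (A B e : ZMod p) (he : e ≠ 0)
    (h : ∀ x : ZMod p, (x ^ 3 + A * x + B) ^ ((p - 1) / 2) = e) : False := by
  set F : (ZMod p)[X] := X ^ 3 + C A * X + C B with hF
  set k := (p - 1) / 2 with hk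
  have hodd : p % 2 = 1 := by
    rcases (Fact.out : p.Prime).eq_two_or_odd with h2 | h2
    · omega
    · exact h2
  have hk1 : 2 * k + 1 = p := by omega
  have hFdeg : F.natDegree = 3 := by
    rw [hF]
    compute_degree!
  have hF0 : F ≠ 0 := by
    intro h0
    rw [h0, natDegree_zero] at hFdeg
    exact absurd hFdeg (by norm_num)
  have hM : (X ^ p - X : (ZMod p)[X]).Monic := by
    apply monic_X_pow_sub
    rw [degree_X]
    exact_mod_cast (by omega : 1 < p)
  have hMdeg : (X ^ p - X : (ZMod p)[X]).natDegree = p := FiniteField.X_pow_card_sub_X_natDegree_eq (ZMod p) (by omega)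
  obtain ⟨G, hG, hGdeg⟩ : ∃ G : (ZMod p)[X], F ^ k = C e + (X ^ p - X) * G ∧ G.natDegree ≤ 3 * k - p := by
    refine ⟨(F ^ k - C e) /ₘ (X ^ p - X), ?_, ?_⟩
    · have h1 : (F ^ k - C e) %ₘ (X ^ p - X) = 0 := by
        by_contra h0
        have h2 : ((F ^ k - C e) %ₘ (X ^ p - X)).natDegree < p := by
          have h3 := natDegree_modByMonic_lt (F ^ k - C e) hM (by
            intro h4
            rw [h4, natDegree_one] at hMdeg
            omega)
          rwa [hMdeg] at h3
        have h4 : ∀ x : ZMod p, ((F ^ k - C e) %ₘ (X ^ p - X)).eval x = 0 := by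
          intro x
          have h5 := congrArg (eval x) (modByMonic_add_div (F ^ k - C e) (X ^ p - X))
          rw [eval_add, eval_mul, eval_sub, eval_pow, eval_X, ZMod.pow_card, sub_self, zero_mul, add_zero] at h5
          rw [h5, hF]
          simp only [eval_sub, eval_pow, eval_add, eval_mul, eval_C, eval_X]
          rw [h x, sub_self]
        have h6 := card_roots' ((F ^ k - C e) %ₘ (X ^ p - X))
        have h7 : Fintype.card (ZMod p) ≤ Multiset.card ((F ^ k - C e) %ₘ (X ^ p - X)).roots := by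
          rw [← Finset.card_univ]
          exact Multiset.card_le_card (Finset.val_le_iff_val_subset.mpr fun x _ => (mem_roots h0).mpr (h4 x))
        rw [ZMod.card] at h7
        omega
      have h2 := modByMonic_add_div (F ^ k - C e) (X ^ p - X)
      rw [h1, zero_add] at h2
      rw [h2]
      ring
    · rw [natDegree_divByMonic _ hM, hMdeg]
      have h1 : (F ^ k - C e).natDegree ≤ 3 * k := by
        refine (natDegree_sub_le _ _).trans (max_le ?_ ?_)
        · refine natDegree_pow_le.trans ?_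
          rw [hFdeg, mul_comm]
        · rw [natDegree_C]
          exact Nat.zero_le _
      omega
  have hd := congrArg derivative hG
  rw [derivative_add, derivative_C, zero_add, derivative_mul, CD_deriv, derivative_pow] at hd
  have hkk : F * F ^ (k - 1) = F ^ k := by
    rw [← pow_succ', Nat.sub_add_cancel (by omega)]
  have hL : C ((k : ZMod p) * e) * derivative F + F * G =
      (X ^ p - X) * (F * derivative G - C (k : ZMod p) * G * derivative F) := by
    have h1 : C (k : ZMod p) * (F ^ k) * derivative F = F * (-1 * G + (X ^ p - X) * derivative G) := by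
      rw [← hd, ← hkk]
      ring
    rw [hG] at h1
    rw [C_mul]
    linear_combination h1
  have hdF : (derivative F).natDegree ≤ 2 := by
    have h1 := natDegree_derivative_le F
    rw [hFdeg] at h1
    exact h1
  have hLdeg : (C ((k : ZMod p) * e) * derivative F + F * G).natDegree < p := by
    refine lt_of_le_of_lt (natDegree_add_le _ _) (max_lt ?_ ?_)
    · exact lt_of_le_of_lt ((natDegree_C_mul_le _ _).trans hdF) (by omega)
    · refine lt_of_le_of_lt natDegree_mul_le ?_
      rw [hFdeg]
      omega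
  have hW : F * derivative G - C (k : ZMod p) * G * derivative F = 0 := by
    by_contra hW
    rw [hL, natDegree_mul hM.ne_zero hW, hMdeg] at hLdeg
    omega
  rw [hW, mul_zero] at hL
  have hkz : (k : ZMod p) ≠ 0 := by
    intro h0
    rw [ZMod.natCast_eq_zero_iff] at h0
    have := Nat.le_of_dvd (by omega) h0
    omega
  have hc3 : (derivative F).coeff 2 = 3 := by
    rw [coeff_derivative, hF]
    simp
    norm_num
  have h3 : (3 : ZMod p) ≠ 0 := by
    intro h0
    have h1 : ((3 : ℕ) : ZMod p) = 0 := by exact_mod_cast h0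
    rw [ZMod.natCast_eq_zero_iff] at h1
    have := Nat.le_of_dvd (by norm_num) h1
    omega
  have hG0 : G ≠ 0 := by
    rintro rfl
    rw [mul_zero, add_zero] at hL
    have h1 := congrArg (fun q : (ZMod p)[X] => q.coeff 2) hL
    simp only [coeff_C_mul, coeff_zero, hc3] at h1
    exact (mul_ne_zero (mul_ne_zero hkz he) h3) h1
  have h5 : F * G = -(C ((k : ZMod p) * e) * derivative F) := by linear_combination hL
  have h6 := congrArg natDegree h5
  rw [natDegree_mul hF0 hG0, hFdeg, natDegree_neg] at h6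
  have h7 := (natDegree_C_mul_le ((k : ZMod p) * e) (derivative F)).trans hdF
  omega

theorem card_of_coeff {p : ℕ} [Fact p.Prime] (hp : 5 ≤ p) (A B : ZMod p)
    (h : ((X ^ 3 + C A * X + C B : (ZMod p)[X]) ^ ((p - 1) / 2)).coeff (p - 1) = 0) :
    Nat.card {z : ZMod p × ZMod p // z.2 ^ 2 = z.1 ^ 3 + A * z.1 + B} = p := by
  classical
  have hodd : p % 2 = 1 := by
    rcases (Fact.out : p.Prime).eq_two_or_odd with h2 | h2
    · omega
    · exact h2
  have hp2 : ringChar (ZMod p) ≠ 2 := by
    rw [ZMod.ringChar_zmod_n]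
    omega
  have h1 : Nat.card {z : ZMod p × ZMod p // z.2 ^ 2 = z.1 ^ 3 + A * z.1 + B} =
      ∑ x : ZMod p, Nat.card {y : ZMod p // y ^ 2 = x ^ 3 + A * x + B} := by
    rw [← Nat.card_sigma]
    exact Nat.card_congr
      { toFun := fun z => ⟨z.1.1, ⟨z.1.2, z.2⟩⟩
        invFun := fun w => ⟨(w.1, w.2.1), w.2.2⟩
        left_inv := fun _ => rfl
        right_inv := fun _ => rfl }
  have h2 : ∀ c : ZMod p, (Nat.card {y : ZMod p // y ^ 2 = c} : ℤ) = quadraticChar (ZMod p) c + 1 := by
    intro c
    rw [← quadraticChar_card_sqrts hp2 c, Nat.card_eq_fintype_card, Set.toFinset_card]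
    congr 1
  have hpow : ∀ x : ZMod p, ((quadraticChar (ZMod p) (x ^ 3 + A * x + B) : ℤ) : ZMod p) =
      (x ^ 3 + A * x + B) ^ ((p - 1) / 2) := by
    intro x
    rw [quadraticChar_eq_pow_of_char_ne_two' hp2, ZMod.card]
    congr 1
    omega
  have hdeg : ((X ^ 3 + C A * X + C B : (ZMod p)[X]) ^ ((p - 1) / 2)).natDegree < 2 * (p - 1) := by
    have h3 : (X ^ 3 + C A * X + C B : (ZMod p)[X]).natDegree ≤ 3 := by compute_degree
    have h4 : ((X ^ 3 + C A * X + C B : (ZMod p)[X]) ^ ((p - 1) / 2)).natDegree ≤ (p - 1) / 2 * 3 :=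
      natDegree_pow_le.trans (Nat.mul_le_mul_left _ h3)
    omega
  have ha0 : ((∑ x : ZMod p, quadraticChar (ZMod p) (x ^ 3 + A * x + B) : ℤ) : ZMod p) = 0 := by
    rw [Int.cast_sum, Finset.sum_congr rfl fun x _ => hpow x]
    have h3 := CD_sum _ hdeg
    rw [h, neg_zero] at h3
    rw [← h3]
    refine Finset.sum_congr rfl fun x _ => ?_
    simp
  have hle : ∀ x : ZMod p, quadraticChar (ZMod p) (x ^ 3 + A * x + B) ≤ 1 ∧
      -1 ≤ quadraticChar (ZMod p) (x ^ 3 + A * x + B) := by
    intro x
    rcases quadraticChar_isQuadratic (ZMod p) (x ^ 3 + A * x + B) with h3 | h3 | h3 <;> rw [h3] <;> norm_num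
  have hcard : (∑ x : ZMod p, (1 : ℤ)) = p := by
    rw [Finset.sum_const, Finset.card_univ, ZMod.card, nsmul_eq_mul, mul_one]
  have hup : ∑ x : ZMod p, quadraticChar (ZMod p) (x ^ 3 + A * x + B) < p := by
    rw [← hcard]
    by_contra hcon
    have h4 : ∑ x : ZMod p, (1 - quadraticChar (ZMod p) (x ^ 3 + A * x + B)) ≤ 0 := by
      rw [Finset.sum_sub_distrib]
      linarith
    have h5 : ∑ x : ZMod p, (1 - quadraticChar (ZMod p) (x ^ 3 + A * x + B)) = 0 :=
      le_antisymm h4 (Finset.sum_nonneg fun x _ => by linarith [(hle x).1])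
    have h6 := (Finset.sum_eq_zero_iff_of_nonneg fun x _ => by linarith [(hle x).1]).mp h5
    refine CD_const hp A B 1 one_ne_zero fun x => ?_
    rw [← hpow x]
    have h7 : quadraticChar (ZMod p) (x ^ 3 + A * x + B) = 1 := by linarith [h6 x (Finset.mem_univ x)]
    rw [h7, Int.cast_one]
  have hlo : -(p : ℤ) < ∑ x : ZMod p, quadraticChar (ZMod p) (x ^ 3 + A * x + B) := by
    rw [← hcard]
    by_contra hcon
    have h4 : ∑ x : ZMod p, (1 + quadraticChar (ZMod p) (x ^ 3 + A * x + B)) ≤ 0 := by
      rw [Finset.sum_add_distrib]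
      linarith
    have h5 : ∑ x : ZMod p, (1 + quadraticChar (ZMod p) (x ^ 3 + A * x + B)) = 0 :=
      le_antisymm h4 (Finset.sum_nonneg fun x _ => by linarith [(hle x).2])
    have h6 := (Finset.sum_eq_zero_iff_of_nonneg fun x _ => by linarith [(hle x).2]).mp h5
    refine CD_const hp A B (-1) (neg_ne_zero.mpr one_ne_zero) fun x => ?_
    rw [← hpow x]
    have h7 : quadraticChar (ZMod p) (x ^ 3 + A * x + B) = -1 := by linarith [h6 x (Finset.mem_univ x)]
    rw [h7, Int.cast_neg, Int.cast_one]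
  have hzero : ∑ x : ZMod p, quadraticChar (ZMod p) (x ^ 3 + A * x + B) = 0 := by
    refine Int.eq_zero_of_abs_lt_dvd ((ZMod.intCast_zmod_eq_zero_iff_dvd _ p).mp ha0) ?_
    exact abs_lt.mpr ⟨hlo, hup⟩
  have h7 : ((∑ x : ZMod p, Nat.card {y : ZMod p // y ^ 2 = x ^ 3 + A * x + B} : ℕ) : ℤ) = (p : ℤ) := by
    rw [Nat.cast_sum, Finset.sum_congr rfl fun x _ => h2 (x ^ 3 + A * x + B), Finset.sum_add_distrib, hzero, zero_add,
      hcard]
  rw [h1]
  exact_mod_cast h7

end VK
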