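import Mathlib

/-!
# LEAF CA: the Cartier operator on logarithmic derivatives (Mathlib only)

PROOF.  Let `J U` be the claim for `U`.  It holds for constants, for `X - C α` (`(X - C α) ^ (p - 1)` is monic of degree `p - 1`: its `(p - 1)`-st derivative is `(p - 1)! = -1`, Wilson: `ZMod.wilsons_lemma`, or `Polynomial.iterate_derivative_X_sub_pow`), and `J U`, `J V` imply `J (U * V)`: `(U V) ^ (p - 1) (U V)' = V ^ p * (U ^ (p - 1) U') + U ^ p * (V ^ (p - 1) V')`, and the derivative of a `p`-th power is `0`, so the iterated derivative is linear over `p`-th powers; `((U V)') ^ p = (U' V) ^ p + (U V') ^ p` (`add_pow_char`).  Over the algebraic closure every polynomial is a constant times a product of factors `X - C α` (`IsAlgClosed.splits`, `Splits.eq_prod_roots` or induction on the degree with a root); for a general field map to the algebraic closure (`Polynomial.map_injective`, `Polynomial.iterate_derivative_map`).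
-/

namespace VK

open Polynomial

private theorem CA_lin {k : Type} [Field k] {p : ℕ} [Fact p.Prime] [CharP k p] (V W : k[X]) (n : ℕ) :
    derivative^[n] (V ^ p * W) = V ^ p * derivative^[n] W := by
  induction n with
  | zero => rfl
  | succ n ih =>
    rw [Function.iterate_succ_apply', Function.iterate_succ_apply', ih, derivative_mul, derivative_pow,
      CharP.cast_eq_zero k p]
    simp

private theorem CA_mul {k : Type} [Field k] {p : ℕ} [Fact p.Prime] [CharP k p] {U V : k[X]}
    (hU : derivative^[p - 1] (U ^ (p - 1) * derivative U) = -(derivative U) ^ p)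
    (hV : derivative^[p - 1] (V ^ (p - 1) * derivative V) = -(derivative V) ^ p) :
    derivative^[p - 1] ((U * V) ^ (p - 1) * derivative (U * V)) = -(derivative (U * V)) ^ p := by
  have hp : 0 < p := (Fact.out : p.Prime).pos
  have e1 : (U * V) ^ (p - 1) * derivative (U * V) =
      V ^ p * (U ^ (p - 1) * derivative U) + U ^ p * (V ^ (p - 1) * derivative V) := by
    obtain ⟨m, rfl⟩ : ∃ m, p = m + 1 := ⟨p - 1, by omega⟩
    rw [derivative_mul]
    simp only [Nat.add_sub_cancel]
    ring
  rw [e1, iterate_map_add, CA_lin (p := p) V (U ^ (p - 1) * derivative U), CA_lin (p := p) U (V ^ (p - 1) * derivative V), hU, hV, derivative_mul, add_pow_char, mul_pow, mul_pow]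
  ring

private theorem CA_C {k : Type} [Field k] {p : ℕ} [Fact p.Prime] [CharP k p] (a : k) :
    derivative^[p - 1] ((C a : k[X]) ^ (p - 1) * derivative (C a)) = -(derivative (C a)) ^ p := by
  have hp : p ≠ 0 := (Fact.out : p.Prime).ne_zero
  rw [derivative_C, mul_zero, iterate_derivative_zero, zero_pow hp, neg_zero]

private theorem CA_X {k : Type} [Field k] {p : ℕ} [Fact p.Prime] [CharP k p] (a : k) :
    derivative^[p - 1] ((X - C a : k[X]) ^ (p - 1) * derivative (X - C a)) =
      -(derivative (X - C a)) ^ p := by
  have h1 : derivative (X - C a : k[X]) = 1 := by simp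
  rw [h1, mul_one, one_pow, iterate_derivative_X_sub_pow, Nat.sub_self, pow_zero, nsmul_eq_mul, mul_one]
  have h2 : (((p - 1).factorial : ℕ) : k) = -1 := by
    have h3 := ZMod.wilsons_lemma p
    have h4 := congrArg (ZMod.castHom (dvd_refl p) k) h3
    rw [map_natCast, map_neg, map_one] at h4
    exact h4
  have h5 : (p - 1).descFactorial (p - 1) = (p - 1).factorial := Nat.descFactorial_self _
  rw [h5]
  have h6 : (((p - 1).factorial : ℕ) : k[X]) = C (((p - 1).factorial : ℕ) : k) := by simp
  rw [h6, h2]
  simp

theorem jac {k : Type} [Field k] {p : ℕ} [Fact p.Prime] [CharP k p] (U : k[X]) :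
    derivative^[p - 1] (U ^ (p - 1) * derivative U) = -(derivative U) ^ p := by
  have : CharP (AlgebraicClosure k) p := charP_of_injective_algebraMap (algebraMap k (AlgebraicClosure k)).injective p
  have key : ∀ V : (AlgebraicClosure k)[X],
      derivative^[p - 1] (V ^ (p - 1) * derivative V) = -(derivative V) ^ p := by
    intro V
    have hs : V = C V.leadingCoeff * (V.roots.map (fun a => X - C a)).prod :=
      (IsAlgClosed.splits V).eq_prod_roots
    have hr : ∀ s : Multiset (AlgebraicClosure k),
        derivative^[p - 1] (((s.map (fun a => X - C a)).prod) ^ (p - 1) * derivative ((s.map (fun a => X - C a)).prod)) =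
          -(derivative ((s.map (fun a => X - C a)).prod)) ^ p := by
      intro s
      induction s using Multiset.induction_on with
      | empty => simpa using CA_C (p := p) (1 : AlgebraicClosure k)
      | cons a s ih =>
        rw [Multiset.map_cons, Multiset.prod_cons]
        exact CA_mul (CA_X a) ih
    rw [hs]
    exact CA_mul (CA_C _) (hr _)
  have h := key (U.map (algebraMap k (AlgebraicClosure k)))
  apply Polynomial.map_injective _ (algebraMap k (AlgebraicClosure k)).injective
  rw [derivative_map, ← Polynomial.map_pow, ← Polynomial.map_mul, Polynomial.iterate_derivative_map, ← Polynomial.map_pow, ← Polynomial.map_neg] at h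
  exact h

end VK
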