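import Pool.Agent.Lib.MP_17a322_ntVY.CA

/-!
# LEAF CB: the Cartier operator and pull-back by a rational function (Mathlib and `CA`)

PROOF.  Let `R = P' Q - P Q'`.  If `i = p - 1`: `P ^ (p - 1) * Q ^ (p - 1) * R = Q ^ p * (P ^ (p - 1) * P') - P ^ p * (Q ^ (p - 1) * Q')`; the derivative of a `p`-th power is `0`, so the iterated derivative is `Q ^ p * (-P' ^ p) + P ^ p * Q' ^ p` by `jac`, and this is `-R ^ p` (`sub_pow_char`, `mul_pow`).
Otherwise `p` does not divide `i + 1` (`1 ≤ i + 1 ≤ 2 p - 1`, `i + 1 ≠ p`), and `derivative (P ^ (i + 1) * Q ^ (2 p - 1 - i)) = (i + 1) * P ^ i * P' * Q ^ (2 p - 1 - i) + (2 p - 1 - i) * P ^ (i + 1) * Q ^ (2 p - 2 - i) * Q' = (i + 1) * (P ^ i * Q ^ (2 p - 2 - i) * R)` as `(2 p - 1 - i : k) = -(i + 1)`.  So the polynomial is the derivative of some polynomial `G`, and the iterated derivative is `derivative^[p] G = 0` (`Polynomial.iterate_derivative_eq_factorial_smul_sum`, or: `derivative^[p]` is `0` in characteristic `p` as the coefficients get the factor `descFactorial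 _ p`, divisible by `p!`).
-/

namespace VK

open Polynomial

/-- the derivative of a `p`-th power -/
private theorem CB_dpow {k : Type} [Field k] {p : ℕ} [CharP k p] (U : k[X]) :
    derivative (U ^ p) = 0 := by
  rw [derivative_pow, CharP.cast_eq_zero k p, C_0, zero_mul, zero_mul]

/-- the iterated derivative is linear over `p`-th powers -/
private theorem CB_lin {k : Type} [Field k] {p : ℕ} [CharP k p] (U V : k[X]) (n : ℕ) :
    derivative^[n] (U ^ p * V) = U ^ p * derivative^[n] V := by
  induction n with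
  | zero => rfl
  | succ n ih =>
    rw [Function.iterate_succ_apply', Function.iterate_succ_apply', ih, derivative_mul, CB_dpow U,
      zero_mul, zero_add]

/-- the `p`-th iterated derivative is zero -/
private theorem CB_zero {k : Type} [Field k] {p : ℕ} [hp : Fact p.Prime] [CharP k p] (G : k[X]) :
    derivative^[p] G = 0 := by
  ext m
  rw [coeff_iterate_derivative, coeff_zero, nsmul_eq_mul]
  have h1 : p ∣ (m + p).descFactorial p :=
    (Nat.dvd_factorial hp.1.pos le_rfl).trans (Nat.factorial_dvd_descFactorial _ _)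
  rw [(CharP.cast_eq_zero_iff k p _).2 h1, zero_mul]

theorem jac_quot {k : Type} [Field k] {p : ℕ} [Fact p.Prime] [CharP k p] (P Q : k[X]) {i : ℕ} (hi : i ≤ 2 * p - 2) :
    derivative^[p - 1] (P ^ i * Q ^ (2 * p - 2 - i) * (derivative P * Q - P * derivative Q)) =
      if i = p - 1 then -(derivative P * Q - P * derivative Q) ^ p else 0 := by
  have hp1 : p - 1 + 1 = p := Nat.sub_add_cancel (Fact.out : p.Prime).one_le
  have hp2 : 2 ≤ p := (Fact.out : p.Prime).two_le
  by_cases h : i = p - 1
  · rw [if_pos h]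
    have hj : 2 * p - 2 - i = p - 1 := by omega
    rw [hj, h]
    have e1 : P ^ (p - 1) * Q ^ (p - 1) * (derivative P * Q - P * derivative Q) =
        Q ^ p * (P ^ (p - 1) * derivative P) - P ^ p * (Q ^ (p - 1) * derivative Q) := by
      have eP : P ^ p = P ^ (p - 1) * P := by rw [← pow_succ, hp1]
      have eQ : Q ^ p = Q ^ (p - 1) * Q := by rw [← pow_succ, hp1]
      rw [eP, eQ]
      ring
    rw [e1, iterate_derivative_sub, CB_lin (p := p) Q, CB_lin (p := p) P, jac, jac, sub_pow_char, mul_pow, mul_pow]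
    ring
  · rw [if_neg h]
    obtain ⟨j, hj⟩ : ∃ j, j = 2 * p - 2 - i := ⟨_, rfl⟩
    rw [← hj]
    have hij : i + 1 + (j + 1) = 2 * p := by omega
    have hc : ((i + 1 : ℕ) : k) ≠ 0 := by
      intro h0
      rw [CharP.cast_eq_zero_iff k p] at h0
      obtain ⟨t, ht⟩ := h0
      have h1 : i + 1 < p * 2 := by omega
      rw [ht] at h1
      have h2 : t < 2 := Nat.lt_of_mul_lt_mul_left h1
      have h3 : t = 0 ∨ t = 1 := by omega
      rcases h3 with rfl | rfl
      · omega
      · omega
    have hji : ((j + 1 : ℕ) : k) = -((i + 1 : ℕ) : k) := by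
      have h1 : ((i + 1 + (j + 1) : ℕ) : k) = 0 := by
        rw [hij]
        exact (CharP.cast_eq_zero_iff k p _).2 (Dvd.intro_left 2 rfl)
      rw [Nat.cast_add] at h1
      exact (neg_eq_of_add_eq_zero_right h1).symm
    have e1 : derivative (P ^ (i + 1) * Q ^ (j + 1)) =
        C ((i + 1 : ℕ) : k) * (P ^ i * Q ^ j * (derivative P * Q - P * derivative Q)) := by
      rw [derivative_mul, derivative_pow, derivative_pow, Nat.add_sub_cancel, Nat.add_sub_cancel, hji, C_neg,
        pow_succ P i, pow_succ Q j]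
      ring
    have e2 : P ^ i * Q ^ j * (derivative P * Q - P * derivative Q) =
        derivative (C (((i + 1 : ℕ) : k)⁻¹) * (P ^ (i + 1) * Q ^ (j + 1))) := by
      rw [derivative_C_mul, e1, ← mul_assoc, ← C_mul, inv_mul_cancel₀ hc, C_1, one_mul]
    rw [e2, ← Function.iterate_succ_apply, Nat.succ_eq_add_one, hp1]
    exact CB_zero _

end VK
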