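import Pool.Agent.Lib.MP_17a322_ntVY.CC
import Pool.Agent.Lib.MP_17a322_ntVY.CD
import Pool.Agent.Lib.MP_17a322_ntVY.CE
import Pool.Agent.Lib.MP_17a322_ntVY.ZS

/-!
# The fixed curves with complex multiplication are supersingular at the inert primes (Deuring)
-/

namespace VK

open Finset NumberField

theorem cmd_of {K : Type} [Field K] [NumberField K] {T : ℤ} {A B : 𝓞 K} (h : IsCM T ((A : 𝓞 K) : K) ((B : 𝓞 K) : K)) :
    CMD T A B := by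
  obtain ⟨p1, hp1⟩ := cm_red T A B h
  refine Or.inr (Or.inr ⟨max p1 5, fun p hp hpp hT φ => ?_⟩)
  have : Fact p.Prime := ⟨hp⟩
  obtain ⟨μ, P, Q, hμ, hR, he⟩ := hp1 p ((le_max_left _ _).trans hpp) hT φ
  have h5 : 5 ≤ p := (le_max_right _ _).trans hpp
  exact card_of_coeff h5 (φ A) (φ B) (hasse_zero h5 (φ A) (φ B) μ hμ P Q hR he)

theorem ssg_cm {K : Type} [Field K] [NumberField K] (L : Type) [Field L] [NumberField L] (𝒟 : Finset ℤ) {h : ℕ}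
    (A' B' : Fin h → 𝓞 K) (hd : ∀ l, ds (A' l) (B' l) ≠ 0)
    (hc : ∀ l, ∃ D ∈ 𝒟, IsCM D ((A' l : 𝓞 K) : K) ((B' l : 𝓞 K) : K)) :
    ∃ p0 : ℕ, Ssg L (fun p => ∀ D ∈ 𝒟, ¬ IsSquare ((D : ℤ) : ZMod p)) p0 A' B' :=
  ssg_multi L 𝒟 A' B' hd fun l => by
    obtain ⟨D, hD, h⟩ := hc l
    exact ⟨D, hD, cmd_of h⟩

end VK
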