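import Mathlib

/-!
# Complex multiplication, in the classical form of Abel
-/

namespace VK

open Polynomial

/-- the elliptic curve `y² = F(x)`, `F = x³ + A x + B`, has complex multiplication by `m √T`: the rational function
`f = P / Q`, not constant, is a solution of Abel's equation `T m² F(f) = F f'²`, `m ≠ 0`, that is
`df / √F(f) = m √T dx / √F(x)`; `f(x)` is the `x`-coordinate of the image of the point `(x, y)` under `m √T` -/
def IsCM {K : Type} [Field K] (T : ℤ) (A B : K) : Prop :=
  ∃ (P Q : K[X]) (m : K), m ≠ 0 ∧ derivative P * Q - P * derivative Q ≠ 0 ∧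
    C ((T : K) * m ^ 2) * (Q * (P ^ 3 + C A * P * Q ^ 2 + C B * Q ^ 3)) =
      (X ^ 3 + C A * X + C B) * (derivative P * Q - P * derivative Q) ^ 2

/-- `y² = x³ + A x` has complex multiplication by `√(-1)`: `f = -x` -/
theorem isCM_one {K : Type} [Field K] (A : K) : IsCM (-1) A 0 := by
  refine ⟨-X, 1, 1, one_ne_zero, ?_, ?_⟩
  · simp only [derivative_neg, derivative_X, derivative_one, mul_zero, sub_zero, mul_one]
    exact neg_ne_zero.2 one_ne_zero
  · simp only [derivative_neg, derivative_X, derivative_one, mul_zero, sub_zero, mul_one, Int.cast_neg, Int.cast_one,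
      map_zero, map_neg, map_one, one_pow]
    ring

/-- `y² = x³ + B` has complex multiplication by `√(-3)`: `f = (x³ + 4 B) / (-3 x²)` -/
theorem isCM_three {K : Type} [Field K] [CharZero K] (B : K) : IsCM (-3) 0 B := by
  have h3 : derivative (X ^ 3 : K[X]) = 3 * X ^ 2 := by
    rw [derivative_X_pow]
    simp
    exact map_ofNat C 3
  have h2 : derivative (X ^ 2 : K[X]) = 2 * X := by
    rw [derivative_X_pow]
    simp
    exact map_ofNat C 2
  have hd : derivative (X ^ 3 + C (4 * B) : K[X]) * (C (-3) * X ^ 2) -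
      (X ^ 3 + C (4 * B)) * derivative (C (-3) * X ^ 2 : K[X]) = C (-3) * X * (X ^ 3 - C (8 * B)) := by
    rw [derivative_add, derivative_C, derivative_C_mul, h2, h3]
    simp only [map_mul, map_neg, map_ofNat]
    ring
  refine ⟨X ^ 3 + C (4 * B), C (-3) * X ^ 2, 1, one_ne_zero, ?_, ?_⟩
  · rw [hd]
    refine mul_ne_zero (mul_ne_zero (C_ne_zero.2 (by norm_num)) X_ne_zero) ?_
    exact (monic_X_pow_sub_C _ (by norm_num)).ne_zero
  · rw [hd]
    simp only [Int.cast_neg, Int.cast_ofNat, map_zero, map_neg, one_pow, map_mul, map_ofNat, mul_one]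
    ring

end VK
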