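import Pool.Agent.Lib.MP_17a322_ntVY.Stmt

/-!
# Complete intersections in any fixed variety: definitions of the proof
-/

namespace VK

open Finset NumberField LVH

/-- the local factor `max_i |u_i|_v ∏_l max (1, |x(P_l)|_v) ^ (d0 l)` of the point `(P, u)` -/
noncomputable def nv {K : Type} [Field K] [NumberField K] {g M : ℕ} (v : FinitePlace K) (d0 : Fin g → ℕ)
    (P : Fin g → Option (K × K)) (u : Fin (M + 1) → K) : ℝ :=
  (⨆ i, v (u i)) * ∏ l, max 1 (v ((P l).elim 0 Prod.fst)) ^ d0 l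

/-- the pair `(X, D)` has an `S`-integral point: `X` is the zero set in `G_m^n × E_1 × .. × E_(h+g) × ℙ^M` of the sections
with the coefficients `b` (fixed, on the first `h` curves) not in `W` and of the sections with the coefficients `a` not in
`V`, and `D` is the sum of the divisors of the sections in `W` and in `V`; at the places outside of `S` the local heights of
`D` vanish; the sections of index `k ∈ W` are in the `δ k`-th power of the line bundle `O(2 d0 O) ⊠ O(1)`, and so on -/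
def IntY {K : Type} [Field K] [NumberField K] {n h g M w s : ℕ} {κ ι : Type} [Fintype κ] [Fintype ι] {δ : Fin w → ℕ}
    {d' : Fin w → Fin h → ℕ} {ν : Fin s → ℕ} {d : Fin s → Fin (h + g) → ℕ} (Γ : Subgroup Kˣ)
    (S : Finset (FinitePlace K)) (d0 : Fin (h + g) → ℕ) (W : Finset (Fin w)) (V : Finset (Fin s))
    (E' : Fin w → κ → Fin n → ℤ) (b : IxM κ M δ d' → K) (E : Fin s → ι → Fin n → ℤ) (A B : Fin (h + g) → K)
    (a : IxM ι M ν d → K) : Prop :=
  ∃ x : Fin n → Kˣ, (∀ l, x l ∈ Γ) ∧ ∃ (P : Fin (h + g) → Option (K × K)) (u : Fin (M + 1) → K),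
    (∀ l, IsPt (A l) (B l) (P l)) ∧ u ≠ 0 ∧
    (∀ k ∉ W, sM E' b (fun l => (x l : K)) (fun l => P (Fin.castAdd g l)) u k = 0) ∧
    (∀ j ∉ V, sM E a (fun l => (x l : K)) P u j = 0) ∧
    ∀ v : FinitePlace K, v ∉ S →
      (∀ k ∈ W, v (sM E' b (fun l => (x l : K)) (fun l => P (Fin.castAdd g l)) u k) = nv v d0 P u ^ δ k) ∧
      ∀ j ∈ V, v (sM E a (fun l => (x l : K)) P u j) = nv v d0 P u ^ ν j

/-- for finitely many systems of `r` linear forms: at every geometric point of `G_m^n × B` one of the systems has no common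
zero on the fibre of `Y`, the common zeros of the sections with the coefficients `b`; this means that all the fibres of
`Y → G_m^n × B` have dimension at most `r - 1` -/
def Fib {K : Type} [Field K] [NumberField K] {n h M w : ℕ} {κ : Type} [Fintype κ] {δ : Fin w → ℕ}
    {d' : Fin w → Fin h → ℕ} (A' B' : Fin h → 𝓞 K) (E' : Fin w → κ → Fin n → ℤ) (b : IxM κ M δ d' → 𝓞 K) (r : ℕ) :
    Prop :=
  ∃ (N : ℕ) (ell : Fin N → Fin r → Fin (M + 1) → 𝓞 K), ∀ (x : Fin n → AlgebraicClosure K)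
    (P : Fin h → Option (AlgebraicClosure K × AlgebraicClosure K)), (∀ l, x l ≠ 0) →
    (∀ l, IsPt (algebraMap K (AlgebraicClosure K) (A' l)) (algebraMap K (AlgebraicClosure K) (B' l)) (P l)) →
    ∃ i, ∀ u : Fin (M + 1) → AlgebraicClosure K, OnY E' (fun t => algebraMap K (AlgebraicClosure K) (b t)) x P u →
      (∀ a, ∑ c, algebraMap K (AlgebraicClosure K) (ell i a c) * u c = 0) → u = 0

/-- the subvariety `F_1 = .. = F_s = 0` of `Y × E_1 × .. × E_g` has a point with `x_l ∈ Γ`; `F_1, .., F_s` have the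
coefficients `a`, and `Y ⊆ G_m^n × B × ℙ^M` is given by the sections with the coefficients `b` -/
def ComY {K : Type} [Field K] {n h g M w s : ℕ} {κ ι : Type} [Fintype κ] [Fintype ι] {δ : Fin w → ℕ}
    {d' : Fin w → Fin h → ℕ} {ν : Fin s → ℕ} {d : Fin s → Fin (h + g) → ℕ} (Γ : Subgroup Kˣ)
    (E' : Fin w → κ → Fin n → ℤ) (b : IxM κ M δ d' → K) (E : Fin s → ι → Fin n → ℤ) (A B : Fin (h + g) → K)
    (a : IxM ι M ν d → K) : Prop :=
  ∃ x : Fin n → Kˣ, (∀ l, x l ∈ Γ) ∧ ∃ (P : Fin (h + g) → Option (K × K)) (u : Fin (M + 1) → K),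
    (∀ l, IsPt (A l) (B l) (P l)) ∧ u ≠ 0 ∧
    OnY E' b (fun l => (x l : K)) (fun l => P (Fin.castAdd g l)) u ∧ ∀ j, sM E a (fun l => (x l : K)) P u j = 0

/-- the value at `u` of the form with the coefficients `c` -/
def fm {S : Type} [CommRing S] {M d : ℕ} (c : MWS.Mo M d → S) (u : Fin (M + 1) → S) : S := ∑ γ, c γ * MWS.mo u γ

/-- the coefficient at `α` of the product of the form `T q.1` and of the monomial `q.2` -/
def Ent {S κ : Type} [CommRing S] {M : ℕ} {δ : κ → ℕ} (D : ℕ) (T : (k : κ) → MWS.Mo M (δ k) → S)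
    (q : (k : κ) × MWS.Mo M (D - δ k)) (α : MWS.Mo M D) : S :=
  ∑ γ : MWS.Mo M (δ q.1), if ∀ i, (γ.1 i : ℕ) + (q.2.1 i : ℕ) = (α.1 i : ℕ) then T q.1 γ else 0

/-- all forms of degree `D` are in the ideal generated by the forms `T k` of degrees `δ k` -/
def Sj {S κ : Type} [CommRing S] [Fintype κ] {M : ℕ} {δ : κ → ℕ} (D : ℕ) (T : (k : κ) → MWS.Mo M (δ k) → S) : Prop :=
  ∀ y : MWS.Mo M D → S, ∃ a : ((k : κ) × MWS.Mo M (D - δ k)) → S, ∀ α, ∑ q, a q * Ent D T q α = y α

/-- the family of the forms `T k` and of the linear forms with the coefficients `ell i` -/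
def TT {S κ : Type} [CommRing S] {M r : ℕ} {δ : κ → ℕ} (T : (k : κ) → MWS.Mo M (δ k) → S)
    (ell : Fin r → Fin (M + 1) → S) : (k : κ ⊕ Fin r) → MWS.Mo M (Sum.elim δ (fun _ => 1) k) → S
  | .inl k => T k
  | .inr i => fun γ => ∑ c, if (γ.1 c : ℕ) = 1 then ell i c else 0

/-- the coefficients of the sections restricted to a fibre; `f k t` is the value of the `t`-th basis element -/
def cfY {S : Type} [CommRing S] {h M w : ℕ} {κ : Type} [Fintype κ] {δ : Fin w → ℕ} {d' : Fin w → Fin h → ℕ}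
    (b : IxM κ M δ d' → S) (f : (k : Fin w) → IxT κ (d' k) → S) (k : Fin w) (β : MWS.Mo M (δ k)) : S :=
  ∑ t : IxT κ (d' k), b ⟨k, (β, t)⟩ * f k t

/-- the variables of the charts of `G_m^n × B`: the coordinates `x`, their inverses, and the coordinates `X_l`, `Y_l` -/
abbrev BV (n h : ℕ) : Type := (Fin n ⊕ Fin n) ⊕ (Fin h ⊕ Fin h)

/-- the vector of the values of these variables -/
def pv {F : Type} {n h : ℕ} (x x' : Fin n → F) (X Y : Fin h → F) : BV n h → F :=
  Sum.elim (Sum.elim x x') (Sum.elim X Y)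

/-- the basis of `O(2 d O)` in a chart (`true`: the affine chart, `false`: the point `O`) -/
def bc {S : Type} [CommRing S] (c : Bool) (X Y : S) {d : ℕ} : RamCov.Ix d → S
  | .inl i => if c then X ^ (i : ℕ) else if i = Fin.last d then 1 else 0
  | .inr i => if c then X ^ (i : ℕ) * Y else 0

/-- an element of the basis of the sections as a polynomial in the variables of the chart `c` -/
noncomputable def bP (R : Type) [CommRing R] {n h : ℕ} {κ : Type} (c : Fin h → Bool) (E : κ → Fin n → ℤ)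
    {d : Fin h → ℕ} (t : IxT κ d) : MvPolynomial (BV n h) R :=
  (∏ l, MvPolynomial.X (.inl (.inl l)) ^ (E t.1 l).toNat * MvPolynomial.X (.inl (.inr l)) ^ (-E t.1 l).toNat) *
    ∏ l, bc (c l) (MvPolynomial.X (.inr (.inl l))) (MvPolynomial.X (.inr (.inr l))) (t.2 l)

/-- the points of the chart `c` -/
def InCh {F : Type} {h : ℕ} (c : Fin h → Bool) (X Y : Fin h → F) (l : Fin h) : Option (F × F) :=
  if c l then some (X l, Y l) else none

/-- the local condition for the complete intersections in `Y × E_1 × .. × E_g` -/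
def RY {K : Type} [Field K] [NumberField K] {n h g M w s e : ℕ} {κ ι : Type} [Fintype κ] [Fintype ι]
    (A' B' : Fin h → 𝓞 K) {δ : Fin w → ℕ} {d' : Fin w → Fin h → ℕ} (E' : Fin w → κ → Fin n → ℤ)
    (b : IxM κ M δ d' → 𝓞 K) (ν : Fin s → ℕ) (d : Fin s → Fin (h + g) → ℕ) (E : Fin s → ι → Fin n → ℤ)
    (ω : Fin e → 𝓞 K) : Loc K n (h + g) (IxM ι M ν d × Fin e) :=
  fun p π u z =>
  {c | ∃ _ : Fact p.Prime,
    (∀ l : Fin h, IsPt (res π ((A' l : 𝓞 K) : K)) (res π ((B' l : 𝓞 K) : K)) (z (Fin.castAdd g l))) ∧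
    ∃ y : Fin (M + 1) → ZMod p, y ≠ 0 ∧
      OnY E' (fun t => res π ((b t : 𝓞 K) : K)) u (fun l => z (Fin.castAdd g l)) y ∧
      ∀ j, sM E (fun t => ∑ k, c (t, k) * res π ((ω k : 𝓞 K) : K)) u z y j = 0}

/-- the local condition for the integral points: the coordinates of the torus are `x`, the values of the sections in `W`
and the values of the sections in `V` (and units without meaning for the other indices) -/
def RD {K : Type} [Field K] [NumberField K] {n h g M w s e : ℕ} {κ ι : Type} [Fintype κ] [Fintype ι]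
    (A' B' : Fin h → 𝓞 K) {δ : Fin w → ℕ} {d' : Fin w → Fin h → ℕ} (W : Finset (Fin w)) (V : Finset (Fin s))
    (E' : Fin w → κ → Fin n → ℤ) (b : IxM κ M δ d' → 𝓞 K) (ν : Fin s → ℕ) (d : Fin s → Fin (h + g) → ℕ)
    (E : Fin s → ι → Fin n → ℤ) (ω : Fin e → 𝓞 K) : Loc K (n + (w + s)) (h + g) (IxM ι M ν d × Fin e) :=
  fun p π u z =>
  {c | ∃ _ : Fact p.Prime,
    (∀ l : Fin h, IsPt (res π ((A' l : 𝓞 K) : K)) (res π ((B' l : 𝓞 K) : K)) (z (Fin.castAdd g l))) ∧
    ∃ y : Fin (M + 1) → ZMod p, y ≠ 0 ∧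
      (∀ k, sM E' (fun t => res π ((b t : 𝓞 K) : K)) (fun l => u (Fin.castAdd (w + s) l))
        (fun l => z (Fin.castAdd g l)) y k = if k ∈ W then u (Fin.natAdd n (Fin.castAdd s k)) else 0) ∧
      ∀ j, sM E (fun t => ∑ k, c (t, k) * res π ((ω k : 𝓞 K) : K)) (fun l => u (Fin.castAdd (w + s) l)) z y j =
        if j ∈ V then u (Fin.natAdd n (Fin.natAdd w j)) else 0}

end VK
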