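import Pool.Agent.Lib.MP_17a322_ntVY.Defs

/-!
# LEAF UA: the product of forms

PROOF.  Expand both sides.  `fm (fun β => a ⟨k, β⟩) u * fm (T k) u = ∑ β, ∑ γ, a ⟨k, β⟩ * T k γ * (mo u β * mo u γ)` (`Finset.sum_mul_sum`).  Left side: `Fintype.sum_sigma`, exchange the sums (`Finset.sum_comm`): for every `k`, `β : Mo M (D - δ k)`, `γ : Mo M (δ k)` the sum over `α : Mo M D` of
`(if ∀ i, γ i + β i = α i then T k γ else 0) * mo u α`: if `δ k ≤ D` there is exactly one `α` with `α i = γ i + β i` (`∑ (γ i + β i) = δ k + (D - δ k) = D`, each `γ i + β i ≤ D`, `Finset.single_le_sum`), and `mo u α = mo u β * mo u γ` (`pow_add`, `Finset.prod_mul_distrib`); if `D < δ k` there is none (sum over `i`: `δ k + 0 = D` is false).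
-/

namespace VK

open Finset

private theorem UA_one {S : Type} [CommRing S] {M D d : ℕ} (T : MWS.Mo M d → S) (β : MWS.Mo M (D - d))
    (u : Fin (M + 1) → S) :
    ∑ α : MWS.Mo M D, (∑ γ : MWS.Mo M d, if ∀ i, (γ.1 i : ℕ) + (β.1 i : ℕ) = (α.1 i : ℕ) then T γ else 0) *
      MWS.mo u α = if d ≤ D then MWS.mo u β * fm T u else 0 := by
  classical
  have hsw : ∑ α : MWS.Mo M D, (∑ γ : MWS.Mo M d,
      if ∀ i, (γ.1 i : ℕ) + (β.1 i : ℕ) = (α.1 i : ℕ) then T γ else 0) * MWS.mo u α =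
      ∑ γ : MWS.Mo M d, ∑ α : MWS.Mo M D,
        (if ∀ i, (γ.1 i : ℕ) + (β.1 i : ℕ) = (α.1 i : ℕ) then T γ else 0) * MWS.mo u α := by
    rw [Finset.sum_comm]
    exact Finset.sum_congr rfl fun α _ => Finset.sum_mul _ _ _
  rw [hsw]
  by_cases hd : d ≤ D
  · rw [if_pos hd]
    unfold fm
    rw [Finset.mul_sum]
    refine Finset.sum_congr rfl fun γ _ => ?_
    have hsum : ∑ i, ((γ.1 i : ℕ) + (β.1 i : ℕ)) = D := by
      rw [Finset.sum_add_distrib, γ.2, β.2]
      omega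
    have hle : ∀ i, (γ.1 i : ℕ) + (β.1 i : ℕ) < D + 1 := by
      intro i
      have h1 : (γ.1 i : ℕ) + (β.1 i : ℕ) ≤ ∑ i, ((γ.1 i : ℕ) + (β.1 i : ℕ)) :=
        Finset.single_le_sum (f := fun i => (γ.1 i : ℕ) + (β.1 i : ℕ)) (fun _ _ => Nat.zero_le _)
        (Finset.mem_univ i)
      rw [hsum] at h1
      omega
    let α₀ : MWS.Mo M D := ⟨fun i => ⟨(γ.1 i : ℕ) + (β.1 i : ℕ), hle i⟩, hsum⟩
    rw [Finset.sum_eq_single α₀]
    · have h2 : MWS.mo u α₀ = MWS.mo u γ * MWS.mo u β := by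
        unfold MWS.mo
        rw [← Finset.prod_mul_distrib]
        refine Finset.prod_congr rfl fun i _ => ?_
        show u i ^ ((γ.1 i : ℕ) + (β.1 i : ℕ)) = _
        rw [pow_add]
      rw [if_pos fun i => rfl, h2]
      ring
    · intro α _ hα
      rw [if_neg, zero_mul]
      intro h3
      apply hα
      apply Subtype.ext
      funext i
      exact Fin.ext (h3 i).symm
    · intro h
      exact absurd (Finset.mem_univ _) h
  · rw [if_neg hd]
    refine Finset.sum_eq_zero fun γ _ => Finset.sum_eq_zero fun α _ => ?_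
    rw [if_neg, zero_mul]
    intro h3
    have h4 : ∑ i, ((γ.1 i : ℕ) + (β.1 i : ℕ)) = ∑ i, (α.1 i : ℕ) := Finset.sum_congr rfl fun i _ => h3 i
    rw [Finset.sum_add_distrib, γ.2, β.2, α.2] at h4
    omega

theorem ent_ev {S κ : Type} [CommRing S] [Fintype κ] {M : ℕ} {δ : κ → ℕ} (D : ℕ) (T : (k : κ) → MWS.Mo M (δ k) → S)
    (a : ((k : κ) × MWS.Mo M (D - δ k)) → S) (u : Fin (M + 1) → S) :
    ∑ α, (∑ q, a q * Ent D T q α) * MWS.mo u α =
      ∑ k, if δ k ≤ D then fm (fun β => a ⟨k, β⟩) u * fm (T k) u else 0 := by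
  have h1 : ∑ α, (∑ q, a q * Ent D T q α) * MWS.mo u α =
      ∑ q : ((k : κ) × MWS.Mo M (D - δ k)), a q * ∑ α, Ent D T q α * MWS.mo u α := by
    calc ∑ α, (∑ q, a q * Ent D T q α) * MWS.mo u α
        = ∑ α, ∑ q : ((k : κ) × MWS.Mo M (D - δ k)), a q * Ent D T q α * MWS.mo u α :=
          Finset.sum_congr rfl fun α _ => Finset.sum_mul _ _ _
      _ = ∑ q : ((k : κ) × MWS.Mo M (D - δ k)), ∑ α, a q * Ent D T q α * MWS.mo u α := Finset.sum_comm
      _ = _ := by
          refine Finset.sum_congr rfl fun q _ => ?_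
          rw [Finset.mul_sum]
          exact Finset.sum_congr rfl fun α _ => mul_assoc _ _ _
  rw [h1, Fintype.sum_sigma]
  refine Finset.sum_congr rfl fun k _ => ?_
  have h2 : ∀ β : MWS.Mo M (D - δ k), ∑ α, Ent D T ⟨k, β⟩ α * MWS.mo u α =
      if δ k ≤ D then MWS.mo u β * fm (T k) u else 0 := fun β => UA_one (T k) β u
  simp only [h2]
  by_cases hk : δ k ≤ D
  · simp only [if_pos hk]
    show _ = (∑ β, a ⟨k, β⟩ * MWS.mo u β) * fm (T k) u
    rw [Finset.sum_mul]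
    exact Finset.sum_congr rfl fun β _ => (mul_assoc _ _ _).symm
  · simp only [if_neg hk, mul_zero, Finset.sum_const_zero]

end VK
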