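import Pool.Agent.Lib.MP_17a322_ntVY.Defs

/-!
# LEAF UC: the Nullstellensatz in one fibre

PROOF.  Let `f k = ∑ γ : Mo M (δ k), C (T k γ) * ∏ i, X i ^ (γ i)` in `MvPolynomial (Fin (M + 1)) F`, homogeneous of degree `δ k`, `eval u (f k) = fm (T k) u`, and `I = Ideal.span (Set.range f)`.  The zeros of `I` are `0` at most, so `X b` is in the radical of `I` (`MvPolynomial.vanishingIdeal_zeroLocus_eq_radical` for the algebraically closed field `F`, as `LVY.null` in `MP_17a322_ntLY/A1.lean`): there is `N ≥ 1` with `X b ^ N ∈ I` for all `b`.  Put `D = (M + 1) * N`.  Every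
monomial `∏ X i ^ (α i)`, `α : Mo M D`, is divisible by some `X b ^ N` (otherwise all `α i < N` and the sum is `< (M + 1) N`), so it is in `I`; so is `Y = ∑ α, C (y α) * ∏ i, X i ^ (α i)`.  `Y = ∑ k, c k * f k` (`Ideal.mem_span_range_iff_exists_fun`); take the homogeneous components of degree `D` (see `A2_comp` in `MP_17a322_ntLY/A2.lean`): `Y = ∑ k with δ k ≤ D, c' k * f k` with `c' k` homogeneous of degree `D - δ k`.  `a ⟨k, β⟩` = the coefficient of `c' k` at `β` if `δ k ≤ D` and `0` else; compare the coefficients at `α`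
(`MvPolynomial.coeff_mul`, or: the identity holds for the polynomials; `ent_ev` of leaf UA over the ring `MvPolynomial _ F` with `u = X` is another way to see that `∑ α, C (∑ q, a q * Ent D T q α) * ∏ X i ^ (α i) = Y`, then coefficients).
-/

namespace VK

open Finset

private noncomputable def UC_m {M d : ℕ} (γ : MWS.Mo M d) : Fin (M + 1) →₀ ℕ :=
  Finsupp.equivFunOnFinite.symm fun i => (γ.1 i : ℕ)

private theorem UC_m_apply {M d : ℕ} (γ : MWS.Mo M d) (i : Fin (M + 1)) :
    UC_m γ i = (γ.1 i : ℕ) := rfl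

private theorem UC_m_inj {M d : ℕ} {γ γ' : MWS.Mo M d} (h : UC_m γ = UC_m γ') : γ = γ' := by
  apply Subtype.ext
  funext i
  apply Fin.ext
  rw [← UC_m_apply, ← UC_m_apply, h]

private theorem UC_m_deg {M d : ℕ} (γ : MWS.Mo M d) : (UC_m γ).degree = d := by
  rw [Finsupp.degree_eq_sum]
  exact γ.2

private theorem UC_m_exists {M d : ℕ} {s : Fin (M + 1) →₀ ℕ} (hs : s.degree = d) :
    ∃ γ : MWS.Mo M d, UC_m γ = s := by
  have hs' : ∑ i, s i = d := by rw [← hs, Finsupp.degree_eq_sum]
  have hle : ∀ i, s i ≤ d := fun i => by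
    rw [← hs']
    exact Finset.single_le_sum (f := fun i => s i) (fun _ _ => Nat.zero_le _) (Finset.mem_univ i)
  refine ⟨⟨fun i => ⟨s i, Nat.lt_succ_of_le (hle i)⟩, hs'⟩, ?_⟩
  ext i
  rfl

private noncomputable def UC_f {F : Type} [Field F] {M d : ℕ} (c : MWS.Mo M d → F) :
    MvPolynomial (Fin (M + 1)) F := ∑ γ, MvPolynomial.monomial (UC_m γ) (c γ)

private theorem UC_eval {F : Type} [Field F] {M d : ℕ} (c : MWS.Mo M d → F) (u : Fin (M + 1) → F) :
    MvPolynomial.eval u (UC_f c) = fm c u := by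
  unfold UC_f fm MWS.mo
  rw [map_sum]
  refine Finset.sum_congr rfl fun γ _ => ?_
  rw [MvPolynomial.eval_monomial, Finsupp.prod_fintype _ _ fun i => pow_zero _]
  rfl

private theorem UC_coeff {F : Type} [Field F] {M d : ℕ} (c : MWS.Mo M d → F) (α : MWS.Mo M d) :
    MvPolynomial.coeff (UC_m α) (UC_f c) = c α := by
  classical
  unfold UC_f
  rw [MvPolynomial.coeff_sum, Finset.sum_eq_single α]
  · rw [MvPolynomial.coeff_monomial, if_pos rfl]
  · intro γ _ hγ
    rw [MvPolynomial.coeff_monomial, if_neg fun h => hγ (UC_m_inj h)]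
  · intro h
    exact absurd (Finset.mem_univ α) h

private theorem UC_ishom {F : Type} [Field F] {M d : ℕ} (c : MWS.Mo M d → F) :
    (UC_f c).IsHomogeneous d := by
  unfold UC_f
  exact MvPolynomial.IsHomogeneous.sum _ _ _ fun γ _ =>
    MvPolynomial.isHomogeneous_monomial _ (UC_m_deg γ)

private theorem UC_hom {F : Type} [Field F] {M d : ℕ} {p : MvPolynomial (Fin (M + 1)) F}
    (hp : p.IsHomogeneous d) : UC_f (fun γ : MWS.Mo M d => p.coeff (UC_m γ)) = p := by
  ext s
  by_cases hs : s.degree = d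
  · obtain ⟨γ, rfl⟩ := UC_m_exists hs
    rw [UC_coeff]
  · rw [hp.coeff_eq_zero hs, (UC_ishom _).coeff_eq_zero hs]

private theorem UC_mul {F : Type} [Field F] {M d e D : ℕ} (a : MWS.Mo M e → F)
    (c : MWS.Mo M d → F) (α : MWS.Mo M D) : MvPolynomial.coeff (UC_m α) (UC_f a * UC_f c) =
      ∑ β, a β * ∑ γ : MWS.Mo M d,
        if ∀ i, (γ.1 i : ℕ) + (β.1 i : ℕ) = (α.1 i : ℕ) then c γ else 0 := by
  classical
  unfold UC_f
  rw [Finset.sum_mul_sum, MvPolynomial.coeff_sum]
  refine Finset.sum_congr rfl fun β _ => ?_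
  rw [MvPolynomial.coeff_sum, Finset.mul_sum]
  refine Finset.sum_congr rfl fun γ _ => ?_
  rw [MvPolynomial.monomial_mul, MvPolynomial.coeff_monomial]
  have hiff : UC_m β + UC_m γ = UC_m α ↔ ∀ i, (γ.1 i : ℕ) + (β.1 i : ℕ) = (α.1 i : ℕ) := by
    rw [Finsupp.ext_iff]
    refine forall_congr' fun i => ?_
    rw [Finsupp.add_apply, UC_m_apply, UC_m_apply, UC_m_apply, add_comm]
  by_cases hc : ∀ i, (γ.1 i : ℕ) + (β.1 i : ℕ) = (α.1 i : ℕ)
  · rw [if_pos hc, if_pos (hiff.2 hc)]
  · rw [if_neg hc, if_neg fun h => hc (hiff.1 h), mul_zero]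

open MvPolynomial in
private theorem UC_comp {K σ : Type} [Field K] (N e : ℕ) (h f : MvPolynomial σ K)
    (hf : f.IsHomogeneous e) :
    ∃ h' : MvPolynomial σ K, h'.IsHomogeneous (N - e) ∧ homogeneousComponent N (h * f) = h' * f := by
  classical
  have key : homogeneousComponent N (h * f) =
      ∑ i ∈ Finset.range (h.totalDegree + 1), if i + e = N then homogeneousComponent i h * f else 0 := by
    conv_lhs => rw [← sum_homogeneousComponent h]
    rw [Finset.sum_mul, map_sum]
    refine Finset.sum_congr rfl fun i _ => ?_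
    have hm : (homogeneousComponent i h * f).IsHomogeneous (i + e) :=
      (homogeneousComponent_isHomogeneous i h).mul hf
    rw [homogeneousComponent_of_mem ((mem_homogeneousSubmodule _ _).2 hm)]
    by_cases hc : i + e = N
    · rw [if_pos hc, if_pos hc.symm]
    · rw [if_neg hc, if_neg fun h => hc h.symm]
  refine ⟨∑ i ∈ Finset.range (h.totalDegree + 1), if i + e = N then homogeneousComponent i h else 0, ?_, ?_⟩
  · refine MvPolynomial.IsHomogeneous.sum _ _ _ fun i _ => ?_
    by_cases hc : i + e = N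
    · rw [if_pos hc]
      have hi : i = N - e := by omega
      rw [← hi]
      exact homogeneousComponent_isHomogeneous i h
    · rw [if_neg hc]
      exact isHomogeneous_zero _ _ _
  · rw [key, Finset.sum_mul]
    refine Finset.sum_congr rfl fun i _ => ?_
    by_cases hc : i + e = N
    · rw [if_pos hc, if_pos hc]
    · rw [if_neg hc, if_neg hc, zero_mul]

private theorem UC_null {F : Type} [Field F] [IsAlgClosed F] {q : ℕ}
    (I : Ideal (MvPolynomial (Fin q) F))
    (h : ∀ x : Fin q → F, (∀ g ∈ I, MvPolynomial.eval x g = 0) → x = 0) :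
    ∃ N : ℕ, 1 ≤ N ∧ ∀ b, MvPolynomial.X b ^ N ∈ I := by
  classical
  have key : ∀ b : Fin q, ∃ n : ℕ, (MvPolynomial.X b : MvPolynomial (Fin q) F) ^ n ∈ I := by
    intro b
    have hr : (MvPolynomial.X b : MvPolynomial (Fin q) F) ∈ I.radical := by
      rw [← MvPolynomial.vanishingIdeal_zeroLocus_eq_radical (K := F),
        MvPolynomial.mem_vanishingIdeal_iff]
      intro x hx
      rw [MvPolynomial.mem_zeroLocus_iff] at hx
      have hx0 : x = 0 := by
        refine h x fun g hg => ?_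
        have hg' := hx g hg
        rw [MvPolynomial.aeval_eq_eval] at hg'
        exact hg'
      rw [hx0, MvPolynomial.aeval_X]
      rfl
    exact Ideal.mem_radical_iff.1 hr
  choose n hn using key
  refine ⟨1 + ∑ b, n b, by omega, fun b => ?_⟩
  have hle : n b ≤ 1 + ∑ c, n c :=
    (Finset.single_le_sum (f := n) (fun _ _ => Nat.zero_le _) (Finset.mem_univ b)).trans
      (Nat.le_add_left _ _)
  obtain ⟨m, hm⟩ := Nat.exists_eq_add_of_le hle
  rw [hm, pow_add]
  exact Ideal.mul_mem_right _ _ (hn b)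

private theorem UC_mono {F : Type} [Field F] {M N : ℕ} (I : Ideal (MvPolynomial (Fin (M + 1)) F))
    (hN : ∀ b, MvPolynomial.X b ^ N ∈ I) (α : MWS.Mo M ((M + 1) * N)) (c : F) :
    MvPolynomial.monomial (UC_m α) c ∈ I := by
  classical
  obtain ⟨b, hb⟩ : ∃ b, N ≤ (α.1 b : ℕ) := by
    by_contra hcon
    push Not at hcon
    have h1 : ∑ i, (α.1 i : ℕ) < ∑ _i : Fin (M + 1), N :=
      Finset.sum_lt_sum_of_nonempty ⟨0, Finset.mem_univ 0⟩ fun i _ => hcon i
    rw [α.2, Finset.sum_const, Finset.card_univ, Fintype.card_fin, smul_eq_mul] at h1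
    exact lt_irrefl _ h1
  have hle : Finsupp.single b N ≤ UC_m α := by
    rw [Finsupp.single_le_iff, UC_m_apply]
    exact hb
  have h2 : MvPolynomial.monomial (UC_m α) c =
      MvPolynomial.monomial (UC_m α - Finsupp.single b N) c * MvPolynomial.X b ^ N := by
    rw [MvPolynomial.X_pow_eq_monomial, MvPolynomial.monomial_mul, mul_one,
      tsub_add_cancel_of_le hle]
  rw [h2]
  exact Ideal.mul_mem_left _ _ (hN b)

theorem sj_null {F κ : Type} [Field F] [IsAlgClosed F] [Fintype κ] {M : ℕ} {δ : κ → ℕ}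
    (T : (k : κ) → MWS.Mo M (δ k) → F) (h : ∀ u : Fin (M + 1) → F, (∀ k, fm (T k) u = 0) → u = 0) :
    ∃ D, Sj D T := by
  classical
  obtain ⟨I, hI⟩ : ∃ I : Ideal (MvPolynomial (Fin (M + 1)) F),
      I = Ideal.span (Set.range fun k => UC_f (T k)) := ⟨_, rfl⟩
  obtain ⟨N, -, hN⟩ := UC_null I fun x hx => h x fun k => by
    rw [← UC_eval]
    refine hx _ ?_
    rw [hI]
    exact Ideal.subset_span ⟨k, rfl⟩
  refine ⟨(M + 1) * N, fun y => ?_⟩
  have hY : UC_f y ∈ I := by
    unfold UC_f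
    exact Ideal.sum_mem _ fun α _ => UC_mono I hN α (y α)
  rw [hI] at hY
  obtain ⟨c, hc⟩ := Ideal.mem_span_range_iff_exists_fun.1 hY
  choose c' hc1 hc2 using fun k => UC_comp ((M + 1) * N) (δ k) (c k) (UC_f (T k)) (UC_ishom (T k))
  have hsum : UC_f y = ∑ k, c' k * UC_f (T k) := by
    have h1 : MvPolynomial.homogeneousComponent ((M + 1) * N) (UC_f y) = UC_f y := by
      rw [MvPolynomial.homogeneousComponent_of_mem
        ((MvPolynomial.mem_homogeneousSubmodule _ _).2 (UC_ishom y)), if_pos rfl]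
    rw [← h1]
    conv_lhs => rw [← hc]
    rw [map_sum]
    exact Finset.sum_congr rfl fun k _ => hc2 k
  refine ⟨fun q => (c' q.1).coeff (UC_m q.2), fun α => ?_⟩
  rw [Fintype.sum_sigma, ← UC_coeff y α, hsum, MvPolynomial.coeff_sum]
  refine Finset.sum_congr rfl fun k _ => ?_
  conv_rhs => rw [← UC_hom (hc1 k)]
  rw [UC_mul]
  rfl

end VK
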