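import Pool.Agent.Lib.MP_17a322_ntVY.Defs
import Pool.Agent.Lib.MP_17a322_ntLZ.H4

/-!
# LEAF UD: minors

PROOF.  `LVZ.minors` for `A : Fin N → Fin s → F`, with `N` the number of the `q` and `s` the number of the `α` (`Fintype.equivFin`), and reindexing: `Sj D T` is `∀ y, ∃ a, ∀ α, ∑ q, a q * Ent D T q α = y α` (`Equiv.sum_comp`, functions on the equivalent types), the determinant of a reindexed matrix is the same (`Matrix.det_submatrix_equiv_self`).
-/

namespace VK

open Finset

private theorem UD_minors {F : Type} [Field F] {ι σ : Type} [Fintype ι] [Fintype σ] [DecidableEq σ] (A : ι → σ → F) :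
    (∀ y : σ → F, ∃ a : ι → F, ∀ i, ∑ k, a k * A k i = y i) ↔
      ∃ J : σ → ι, (Matrix.of fun i' i => A (J i') i).det ≠ 0 := by
  classical
  constructor
  · intro h
    obtain ⟨κ, a, -, hspan, hli⟩ := exists_linearIndependent' F A
    have htop : ⊤ ≤ Submodule.span F (Set.range (A ∘ a)) := by
      rw [hspan]
      intro y _
      obtain ⟨c, hc⟩ := h y
      have h1 : y = ∑ k, c k • A k := by
        funext i
        rw [← hc i, Finset.sum_apply]
        rfl
      rw [h1]
      exact Submodule.sum_mem _ fun k _ =>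
        Submodule.smul_mem _ _ (Submodule.subset_span ⟨k, rfl⟩)
    let b : Module.Basis κ F (σ → F) := Module.Basis.mk hli htop
    let e : κ ≃ σ := b.indexEquiv (Pi.basisFun F σ)
    refine ⟨fun i => a (e.symm i), ?_⟩
    have h2 : LinearIndependent F (Matrix.of fun i' i => A (a (e.symm i')) i).row := by
      have h3 := hli.comp e.symm e.symm.injective
      exact h3
    rw [Matrix.linearIndependent_rows_iff_isUnit, Matrix.isUnit_iff_isUnit_det,
      isUnit_iff_ne_zero] at h2
    exact h2
  · rintro ⟨J, hJ⟩ y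
    let M : Matrix σ σ F := Matrix.of fun i' i => A (J i') i
    have hM : IsUnit M.det := isUnit_iff_ne_zero.2 hJ
    let w : σ → F := Matrix.vecMul y M⁻¹
    have hw : Matrix.vecMul w M = y := by
      rw [Matrix.vecMul_vecMul, Matrix.nonsing_inv_mul _ hM, Matrix.vecMul_one]
    refine ⟨fun k => ∑ i' with J i' = k, w i', fun i => ?_⟩
    have h1 : y i = ∑ i', w i' * A (J i') i := by
      rw [← congrFun hw i]
      rfl
    rw [h1, ← Finset.sum_fiberwise Finset.univ J]
    refine Finset.sum_congr rfl fun k _ => ?_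
    rw [Finset.sum_mul]
    refine Finset.sum_congr rfl fun i' hi' => ?_
    rw [(Finset.mem_filter.1 hi').2]

open Classical in
theorem sj_minor {F κ : Type} [Field F] [Fintype κ] {M : ℕ} {δ : κ → ℕ} (D : ℕ)
    (T : (k : κ) → MWS.Mo M (δ k) → F) :
    Sj D T ↔ ∃ J : MWS.Mo M D → ((k : κ) × MWS.Mo M (D - δ k)),
      (Matrix.of fun α' α => Ent D T (J α') α).det ≠ 0 := by
  exact UD_minors fun q α => Ent D T q α

end VK
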