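import Pool.Agent.Lib.MP_17a322_ntVY.UB
import Pool.Agent.Lib.MP_17a322_ntVY.UD

/-!
# LEAF UE: one degree for all fields

PROOF.  Let `R = MvPolynomial ((k : κ) × MWS.Mo M (δ k)) ℤ` (Noetherian) and `T0 k γ = X ⟨k, γ⟩`.  For a field `F`, `T` and `φ : R →+* F`, `φ = eval₂Hom (Int.castRingHom F) (fun t => T t.1 t.2)`: `φ (det (Ent D T0 (J α') α)) = det (Ent D T (J α') α)` (`RingHom.map_det`, `Ent` commutes with ring homomorphisms).  Let `V D ⊆ PrimeSpectrum R` be the zero locus of the finite set of the determinants `det (Ent D T0 (J ·) ·)`, `J` arbitrary.  By `sj_minor`, `Sj D T` iff the prime ideal `ker φ` is not in `V D`.  `V (D + 1) ⊆ V D`: for a prime `𝔭 ∉ V D` let `F` be the fraction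
field of `R / 𝔭` and `T` the images of the variables (`φ` = the canonical map, kernel `𝔭`); `Sj D T`, so `Sj (D + 1) T` by `sj_succ`, so `𝔭 ∉ V (D + 1)`.  The decreasing sequence of closed subsets `V D` of the Noetherian space `PrimeSpectrum R` is stationary from some `D0` on (`PrimeSpectrum` is a `TopologicalSpace.NoetherianSpace`: the closed sets satisfy the descending chain condition; or use the radical vanishing ideals and `monotone_stabilizes_iff_noetherian`).  Given `F`, `T` with `Sj D T` for some `D`: if `D ≤ D0` use `sj_succ`; if `D ≥ D0` then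
`ker φ ∉ V D = V D0`.
-/

namespace VK

open Finset

private theorem UE_ent {S S' κ : Type} [CommRing S] [CommRing S'] {M : ℕ} {δ : κ → ℕ} (φ : S →+* S') (D : ℕ)
    (T : (k : κ) → MWS.Mo M (δ k) → S) (T' : (k : κ) → MWS.Mo M (δ k) → S') (h : ∀ k γ, φ (T k γ) = T' k γ)
    (q : (k : κ) × MWS.Mo M (D - δ k)) (α : MWS.Mo M D) : φ (Ent D T q α) = Ent D T' q α := by
  unfold Ent
  rw [map_sum]
  refine Finset.sum_congr rfl fun γ _ => ?_
  split_ifs
  · exact h _ _
  · exact map_zero φ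

open Classical in
/-- the minors over a ring -/
private noncomputable def UE_dt {κ : Type} {M : ℕ} {δ : κ → ℕ} {R : Type} [CommRing R]
    (T : (k : κ) → MWS.Mo M (δ k) → R) (D : ℕ) (J : MWS.Mo M D → ((k : κ) × MWS.Mo M (D - δ k))) : R :=
  (Matrix.of fun α' α => Ent D T (J α') α).det

open Classical in
private theorem UE_map {κ : Type} {M : ℕ} {δ : κ → ℕ} {R S : Type} [CommRing R] [CommRing S] (φ : R →+* S)
    (T : (k : κ) → MWS.Mo M (δ k) → R) (T' : (k : κ) → MWS.Mo M (δ k) → S) (h : ∀ k γ, φ (T k γ) = T' k γ) (D : ℕ)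
    (J : MWS.Mo M D → ((k : κ) × MWS.Mo M (D - δ k))) : φ (UE_dt T D J) = UE_dt T' D J := by
  unfold UE_dt
  rw [RingHom.map_det]
  refine congrArg Matrix.det ?_
  ext α' α
  exact UE_ent φ D T T' h (J α') α

private theorem UE_key {κ : Type} [Fintype κ] {M : ℕ} {δ : κ → ℕ} {R F : Type} [CommRing R] [Field F]
    (φ : R →+* F) (T : (k : κ) → MWS.Mo M (δ k) → R) (T' : (k : κ) → MWS.Mo M (δ k) → F)
    (h : ∀ k γ, φ (T k γ) = T' k γ) (D : ℕ) : Sj D T' ↔ ∃ J, φ (UE_dt T D J) ≠ 0 := by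
  rw [sj_minor]
  refine exists_congr fun J => ?_
  rw [UE_map φ T T' h D J]
  exact Iff.rfl

private theorem UE_le {F κ : Type} [Field F] [Fintype κ] {M : ℕ} {δ : κ → ℕ} (T : (k : κ) → MWS.Mo M (δ k) → F)
    (D : ℕ) (h : Sj D T) (D' : ℕ) (hD : D ≤ D') : Sj D' T := by
  induction D', hD using Nat.le_induction with
  | base => exact h
  | succ n _ ih => exact sj_succ n T ih

theorem sj_unif {κ : Type} [Fintype κ] (M : ℕ) (δ : κ → ℕ) :
    ∃ D0 : ℕ, ∀ (F : Type) [Field F] (T : (k : κ) → MWS.Mo M (δ k) → F), (∃ D, Sj D T) → Sj D0 T := by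
  let R : Type := MvPolynomial ((k : κ) × MWS.Mo M (δ k)) ℤ
  let T0 : (k : κ) → MWS.Mo M (δ k) → R := fun k γ => MvPolynomial.X ⟨k, γ⟩
  let Z : ℕ → Set R := fun D => {x | ∃ J, x = UE_dt T0 D J}
  have hstep : ∀ (D : ℕ) (p : Ideal R), p.IsPrime → Z (D + 1) ⊆ p → Z D ⊆ p := by
    intro D p hp hZ x hx
    obtain ⟨J, rfl⟩ := hx
    by_contra hcon
    let φ : R →+* FractionRing (R ⧸ p) := (algebraMap (R ⧸ p) (FractionRing (R ⧸ p))).comp (Ideal.Quotient.mk p)
    have hφ : ∀ y : R, φ y = 0 ↔ y ∈ p := by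
      intro y
      rw [← Ideal.Quotient.eq_zero_iff_mem]
      exact map_eq_zero_iff _ (IsFractionRing.injective (R ⧸ p) (FractionRing (R ⧸ p)))
    have h1 : Sj D (fun k γ => φ (T0 k γ)) :=
      (UE_key φ T0 _ (fun _ _ => rfl) D).2 ⟨J, fun h => hcon ((hφ _).1 h)⟩
    obtain ⟨J', hJ'⟩ := (UE_key φ T0 _ (fun _ _ => rfl) (D + 1)).1 (sj_succ D _ h1)
    exact hJ' ((hφ _).2 (hZ ⟨J', rfl⟩))
  have hmono : Monotone fun D => (Ideal.span (Z D)).radical := by
    refine monotone_nat_of_le_succ fun D => ?_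
    rw [Ideal.radical_eq_sInf (Ideal.span (Z (D + 1)))]
    refine le_sInf fun p hp => ?_
    obtain ⟨h1, h2⟩ := hp
    rw [h2.radical_le_iff, Ideal.span_le]
    exact hstep D p h2 (Ideal.span_le.1 h1)
  have hN : IsNoetherian R R := (inferInstance : IsNoetherianRing (MvPolynomial ((k : κ) × MWS.Mo M (δ k)) ℤ))
  obtain ⟨D0, hD0⟩ := monotone_stabilizes_iff_noetherian.2 hN ⟨fun D => (Ideal.span (Z D)).radical, hmono⟩
  refine ⟨D0, fun F _ T hT => ?_⟩
  obtain ⟨D, hD⟩ := hT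
  let φ : R →+* F := MvPolynomial.eval₂Hom (Int.castRingHom F) (fun t => T t.1 t.2)
  have hφT : ∀ k γ, φ (T0 k γ) = T k γ := fun k γ => MvPolynomial.eval₂Hom_X' _ _ _
  obtain ⟨J, hJ⟩ := (UE_key φ T0 T hφT (max D D0)).1 (UE_le T D hD _ (le_max_left _ _))
  rw [UE_key φ T0 T hφT D0]
  by_contra hcon
  push Not at hcon
  have hker : (RingHom.ker φ).IsPrime := RingHom.ker_isPrime φ
  have h1 : (Ideal.span (Z D0)).radical ≤ RingHom.ker φ := by
    rw [hker.radical_le_iff, Ideal.span_le]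
    rintro x ⟨J', rfl⟩
    exact hcon J'
  have h2 : (Ideal.span (Z D0)).radical = (Ideal.span (Z (max D D0))).radical := hD0 _ (le_max_right _ _)
  rw [h2] at h1
  exact hJ (h1 (Ideal.le_radical (Ideal.subset_span ⟨J, rfl⟩)))

end VK
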