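import Mathlib

/-!
# LEAF UF: the Nullstellensatz and reduction modulo primes (Mathlib only)

PROOF.  The polynomials `f i` (over `K`, by `MvPolynomial.map`) have no common zero over the algebraic closure, so they generate the unit ideal of `MvPolynomial σ K` (`MvPolynomial.vanishingIdeal_zeroLocus_eq_radical` for `K` and `AlgebraicClosure K`: the zero locus is empty, so `1` is in the radical, hence in the ideal; see `LVY.null` in `MP_17a322_ntLY/A1.lean`): `1 = ∑ i, c i * f i` over `K` (`Ideal.mem_span_range_iff_exists_fun`).  There is an integer `N ≠ 0` such that all `N * c i` have coefficients in `𝓞 K` (see `A3_clear`, `A3_clear_fin` in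
`MP_17a322_ntLY/A3.lean`: copy them), so `N = ∑ i, c' i * f i` in `MvPolynomial σ (𝓞 K)` (injectivity of `MvPolynomial.map (algebraMap (𝓞 K) K)`).  Apply `eval₂ φ x`: if all `eval₂ φ x (f i) = 0` then `(N : k) = 0`.
-/

namespace VK

open NumberField

private theorem UF_clear {K σ : Type} [Field K] [NumberField K] (p : MvPolynomial σ K) :
    ∃ m : ℕ, m ≠ 0 ∧ ∃ p' : MvPolynomial σ (𝓞 K),
      MvPolynomial.map (algebraMap (𝓞 K) K) p' = MvPolynomial.C (m : K) * p := by
  classical
  obtain ⟨y, hy, hint⟩ := exists_integral_multiples ℤ ℚ (L := K)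
    (p.support.image fun t => MvPolynomial.coeff t p)
  refine ⟨y.natAbs, Int.natAbs_ne_zero.2 hy, ?_⟩
  have hz : ∀ t, ∃ z : 𝓞 K, algebraMap (𝓞 K) K z = (y.natAbs : K) * MvPolynomial.coeff t p := by
    intro t
    by_cases ht : t ∈ p.support
    · have h1 := hint (MvPolynomial.coeff t p) (Finset.mem_image_of_mem _ ht)
      rcases Int.natAbs_eq y with h | h
      · refine ⟨⟨_, h1⟩, ?_⟩
        change y • MvPolynomial.coeff t p = _
        rw [zsmul_eq_mul]
        conv_lhs => rw [h]
        rw [Int.cast_natCast]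
      · refine ⟨⟨_, h1.neg⟩, ?_⟩
        change -(y • MvPolynomial.coeff t p) = _
        rw [zsmul_eq_mul]
        conv_lhs => rw [h]
        rw [Int.cast_neg, Int.cast_natCast, neg_mul, neg_neg]
    · refine ⟨0, ?_⟩
      rw [MvPolynomial.notMem_support_iff.1 ht, mul_zero, map_zero]
  choose z hz using hz
  refine ⟨∑ t ∈ p.support, MvPolynomial.monomial t (z t), ?_⟩
  rw [map_sum]
  conv_rhs => rw [p.as_sum, Finset.mul_sum]
  refine Finset.sum_congr rfl fun t _ => ?_
  rw [MvPolynomial.map_monomial, hz, MvPolynomial.C_mul_monomial]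

private theorem UF_clear_fin {K σ ι : Type} [Field K] [NumberField K] [Fintype ι]
    (p : ι → MvPolynomial σ K) :
    ∃ m : ℕ, m ≠ 0 ∧ ∀ i, ∃ p' : MvPolynomial σ (𝓞 K),
      MvPolynomial.map (algebraMap (𝓞 K) K) p' = MvPolynomial.C (m : K) * p i := by
  choose m hm p' hp' using fun i => UF_clear (p i)
  refine ⟨∏ i, m i, Finset.prod_ne_zero_iff.2 fun i _ => hm i, fun i => ?_⟩
  obtain ⟨c, hc⟩ := Finset.dvd_prod_of_mem m (Finset.mem_univ i)
  refine ⟨MvPolynomial.C (c : 𝓞 K) * p' i, ?_⟩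
  rw [map_mul, hp', MvPolynomial.map_C, map_natCast, hc, Nat.cast_mul, map_mul]
  ring

theorem null_base (K : Type) [Field K] [NumberField K] {σ ι : Type} [Finite σ] [Fintype ι]
    (f : ι → MvPolynomial σ (𝓞 K)) (h : ∀ x : σ → AlgebraicClosure K, ∃ i,
      MvPolynomial.eval₂ ((algebraMap K (AlgebraicClosure K)).comp (algebraMap (𝓞 K) K)) x (f i) ≠ 0) :
    ∃ N : ℕ, N ≠ 0 ∧ ∀ (k : Type) [Field k] (φ : 𝓞 K →+* k), (N : k) ≠ 0 → ∀ x : σ → k, ∃ i,
      MvPolynomial.eval₂ φ x (f i) ≠ 0 := by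
  classical
  have hinj : Function.Injective (MvPolynomial.map (σ := σ) (algebraMap (𝓞 K) K)) :=
    MvPolynomial.map_injective _ (FaithfulSMul.algebraMap_injective (𝓞 K) K)
  have h1 : (1 : MvPolynomial σ K) ∈ Ideal.span
      (Set.range fun i => MvPolynomial.map (algebraMap (𝓞 K) K) (f i)) := by
    have hr : (1 : MvPolynomial σ K) ∈ (Ideal.span
        (Set.range fun i => MvPolynomial.map (algebraMap (𝓞 K) K) (f i))).radical := by
      rw [← MvPolynomial.vanishingIdeal_zeroLocus_eq_radical (K := AlgebraicClosure K),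
        MvPolynomial.mem_vanishingIdeal_iff]
      intro x hx
      rw [MvPolynomial.mem_zeroLocus_iff] at hx
      obtain ⟨i, hi⟩ := h x
      exfalso
      apply hi
      have h2 := hx _ (Ideal.subset_span ⟨i, rfl⟩)
      rw [MvPolynomial.aeval_def, MvPolynomial.eval₂_map] at h2
      exact h2
    obtain ⟨n, hn⟩ := Ideal.mem_radical_iff.1 hr
    rwa [one_pow] at hn
  obtain ⟨c, hc⟩ := Ideal.mem_span_range_iff_exists_fun.1 h1
  obtain ⟨m, hm, hp⟩ := UF_clear_fin c
  choose p' hp' using hp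
  have h2 : ∑ i, p' i * f i = MvPolynomial.C (m : 𝓞 K) := by
    apply hinj
    rw [map_sum, MvPolynomial.map_C, map_natCast]
    have h3 : ∀ i, MvPolynomial.map (algebraMap (𝓞 K) K) (p' i * f i) =
        MvPolynomial.C (m : K) * (c i * MvPolynomial.map (algebraMap (𝓞 K) K) (f i)) := by
      intro i
      rw [map_mul, hp', mul_assoc]
    rw [Finset.sum_congr rfl fun i _ => h3 i, ← Finset.mul_sum, hc, mul_one]
  refine ⟨m, hm, fun k _ φ hk x => ?_⟩
  by_contra hcon
  push Not at hcon
  apply hk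
  have h3 := congrArg (MvPolynomial.eval₂Hom φ x) h2
  rw [map_sum, MvPolynomial.eval₂Hom_C, map_natCast] at h3
  rw [← h3]
  refine Finset.sum_eq_zero fun i _ => ?_
  rw [map_mul, MvPolynomial.coe_eval₂Hom, hcon i, mul_zero]

end VK
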