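import Pool.Agent.Lib.MP_17a322_ntVY.UC
import Pool.Agent.Lib.MP_17a322_ntVY.UE
import Pool.Agent.Lib.MP_17a322_ntVY.UF
import Pool.Agent.Lib.MP_17a322_ntVY.UG

/-!
# LEAF UH: one degree for all fibres

PROOF.  Let `ell` be as in `Fib`, `κ' = Fin w ⊕ Fin r`, `δ' = Sum.elim δ (fun _ => 1)` and `D` from `sj_unif M δ'`.  For a chart `c : Fin h → Bool` consider the following finite family of polynomials over `𝓞 K` in the variables `BV n h`: (i) `X (x l) * X (x' l) - 1`; (ii) for `c l = true`: `Y_l ^ 2 - X_l ^ 3 - C (A' l) X_l - C (B' l)`, for `c l = false`: `0`; here the family is written so that the COMMON ZEROS of (i), (ii) and of (iii) are considered; (iii) for all `i : Fin N` and all `J` the determinant of `Ent D (T_i) (J α') α`, where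
`T_i = TT (cfY (fun t => C (b t)) (fun k t => bP (𝓞 K) c (E' k) t)) (fun a c => C (ell i a c))`.
(iv) They have no common zero over `AlgebraicClosure K`: at a zero of (i) and (ii) `v = pv x x⁻¹ X Y` with all `x l ≠ 0`, and `P = InCh c X Y` is on the curves; `Fib` gives `i`; by `fm_cfY`, `fm_TT` and `sj_null`, `sj_unif` (`AlgebraicClosure K` is a `Type`) `Sj D (TT (cfY ..) ..)` holds, so by `sj_minor` some determinant is not `0`; it is the value of the polynomial in (iii) (`RingHom.map_det` for `eval₂Hom`, `Ent_map`, `TT_map`, `cfY_map`, `eval_bP`).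
`null_base` for every chart gives `N c ≠ 0`; `N0 = ∏ c, N c`.  For a field `k` with `(N0 : k) ≠ 0`, and `x`, `P` on the base: `chart` gives `c`, `X`, `Y`; the point `pv x x⁻¹ X Y` is a zero of (i) and (ii), so some determinant in (iii) is not zero at it: `Sj D ..` by `sj_minor` for this `i`.
-/

namespace VK

open Finset NumberField

private theorem UH_ent {R F : Type} [CommRing R] [Field F] (φ : R →+* F) {n h M w r : ℕ} {κ : Type} [Fintype κ]
    {δ : Fin w → ℕ} {d' : Fin w → Fin h → ℕ} (c : Fin h → Bool) (E' : Fin w → κ → Fin n → ℤ) (b : IxM κ M δ d' → R)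
    (ell : Fin r → Fin (M + 1) → R) (x : Fin n → F) (hx : ∀ l, x l ≠ 0) (X Y : Fin h → F) (D : ℕ)
    (q : (k : Fin w ⊕ Fin r) × MWS.Mo M (D - Sum.elim δ (fun _ => 1) k)) (α : MWS.Mo M D) :
    MvPolynomial.eval₂Hom φ (pv x (fun l => (x l)⁻¹) X Y)
        (Ent D (TT (cfY (fun t => MvPolynomial.C (b t)) (fun k t => bP R c (E' k) t))
          (fun i a => MvPolynomial.C (ell i a))) q α) =
      Ent D (TT (cfY (fun t => φ (b t)) (fun k t => bT (E' k) x (InCh c X Y) t)) (fun i a => φ (ell i a))) q α := by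
  rw [Ent_map]
  have h1 : (fun (k : Fin w ⊕ Fin r) (γ : MWS.Mo M (Sum.elim δ (fun _ => 1) k)) =>
      MvPolynomial.eval₂Hom φ (pv x (fun l => (x l)⁻¹) X Y)
        (TT (cfY (fun t => MvPolynomial.C (b t)) (fun k t => bP R c (E' k) t))
          (fun i a => MvPolynomial.C (ell i a)) k γ)) =
      TT (cfY (fun t => φ (b t)) (fun k t => bT (E' k) x (InCh c X Y) t)) (fun i a => φ (ell i a)) := by
    funext k γ
    rw [TT_map]
    have h2 : (fun (k : Fin w) (γ : MWS.Mo M (δ k)) => MvPolynomial.eval₂Hom φ (pv x (fun l => (x l)⁻¹) X Y)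
        (cfY (fun t => MvPolynomial.C (b t)) (fun k t => bP R c (E' k) t) k γ)) =
        cfY (fun t => φ (b t)) (fun k t => bT (E' k) x (InCh c X Y) t) := by
      funext k γ
      rw [cfY_map]
      have h3 : (fun t => MvPolynomial.eval₂Hom φ (pv x (fun l => (x l)⁻¹) X Y) (MvPolynomial.C (b t))) =
          fun t => φ (b t) := by
        funext t
        exact MvPolynomial.eval₂_C _ _ _
      have h4 : (fun (k : Fin w) (t : IxT κ (d' k)) =>
          MvPolynomial.eval₂Hom φ (pv x (fun l => (x l)⁻¹) X Y) (bP R c (E' k) t)) =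
          fun k t => bT (E' k) x (InCh c X Y) t := by
        funext k t
        exact eval_bP φ c (E' k) x hx X Y t
      rw [h3, h4]
    have h5 : (fun (i : Fin r) (a : Fin (M + 1)) =>
        MvPolynomial.eval₂Hom φ (pv x (fun l => (x l)⁻¹) X Y) (MvPolynomial.C (ell i a))) =
        fun i a => φ (ell i a) := by
      funext i a
      exact MvPolynomial.eval₂_C _ _ _
    rw [h2, h5]
  rw [h1]

open Classical in
private theorem UH_det {R F : Type} [CommRing R] [Field F] (φ : R →+* F) {n h M w r : ℕ} {κ : Type} [Fintype κ]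
    {δ : Fin w → ℕ} {d' : Fin w → Fin h → ℕ} (c : Fin h → Bool) (E' : Fin w → κ → Fin n → ℤ) (b : IxM κ M δ d' → R)
    (ell : Fin r → Fin (M + 1) → R) (x : Fin n → F) (hx : ∀ l, x l ≠ 0) (X Y : Fin h → F) (D : ℕ)
    (J : MWS.Mo M D → ((k : Fin w ⊕ Fin r) × MWS.Mo M (D - Sum.elim δ (fun _ => 1) k))) :
    MvPolynomial.eval₂ φ (pv x (fun l => (x l)⁻¹) X Y)
        (Matrix.of fun α' α => Ent D (TT (cfY (fun t => MvPolynomial.C (b t)) (fun k t => bP R c (E' k) t))
          (fun i a => MvPolynomial.C (ell i a))) (J α') α).det =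
      (Matrix.of fun α' α => Ent D (TT (cfY (fun t => φ (b t)) (fun k t => bT (E' k) x (InCh c X Y) t))
        (fun i a => φ (ell i a))) (J α') α).det := by
  rw [← MvPolynomial.coe_eval₂Hom, RingHom.map_det]
  congr 1
  ext α' α
  exact UH_ent φ c E' b ell x hx X Y D (J α') α

open Classical in
/-- the family of the polynomials for the chart `c` -/
private noncomputable def UH_fam {R : Type} [CommRing R] {n h M w r N : ℕ} {κ : Type} [Fintype κ]
    {δ : Fin w → ℕ} {d' : Fin w → Fin h → ℕ} (A' B' : Fin h → R) (E' : Fin w → κ → Fin n → ℤ) (b : IxM κ M δ d' → R)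
    (ell : Fin N → Fin r → Fin (M + 1) → R) (D : ℕ) (c : Fin h → Bool) :
    Fin n ⊕ Fin h ⊕ (Fin N × (MWS.Mo M D → ((k : Fin w ⊕ Fin r) × MWS.Mo M (D - Sum.elim δ (fun _ => 1) k)))) →
      MvPolynomial (BV n h) R
  | .inl l => MvPolynomial.X (.inl (.inl l)) * MvPolynomial.X (.inl (.inr l)) - 1
  | .inr (.inl l) => if c l then MvPolynomial.X (.inr (.inr l)) ^ 2 - (MvPolynomial.X (.inr (.inl l)) ^ 3 +
      MvPolynomial.C (A' l) * MvPolynomial.X (.inr (.inl l)) + MvPolynomial.C (B' l)) else 0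
  | .inr (.inr q) => (Matrix.of fun α' α => Ent D (TT (cfY (fun t => MvPolynomial.C (b t))
      (fun k t => bP R c (E' k) t)) (fun i a => MvPolynomial.C (ell q.1 i a))) (q.2 α') α).det

private theorem UH_curve {R F : Type} [CommRing R] [Field F] (φ : R →+* F) {n h M w r N : ℕ} {κ : Type} [Fintype κ]
    {δ : Fin w → ℕ} {d' : Fin w → Fin h → ℕ} (A' B' : Fin h → R) (E' : Fin w → κ → Fin n → ℤ) (b : IxM κ M δ d' → R)
    (ell : Fin N → Fin r → Fin (M + 1) → R) (D : ℕ) (c : Fin h → Bool) (x x' : Fin n → F) (X Y : Fin h → F)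
    (l : Fin h) : MvPolynomial.eval₂ φ (pv x x' X Y) (UH_fam A' B' E' b ell D c (Sum.inr (Sum.inl l))) = 0 ↔
      IsPt (φ (A' l)) (φ (B' l)) (InCh c X Y l) := by
  cases hc : c l with
  | true =>
    have h1 : InCh c X Y l = some (X l, Y l) := by
      unfold InCh
      rw [if_pos hc]
    rw [h1]
    simp only [UH_fam, hc, if_true]
    rw [MvPolynomial.eval₂_sub, MvPolynomial.eval₂_add, MvPolynomial.eval₂_add, MvPolynomial.eval₂_mul,
      MvPolynomial.eval₂_pow, MvPolynomial.eval₂_pow, MvPolynomial.eval₂_C, MvPolynomial.eval₂_C,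
      MvPolynomial.eval₂_X, MvPolynomial.eval₂_X, sub_eq_zero]
    exact Iff.rfl
  | false =>
    have h1 : InCh c X Y l = none := by
      unfold InCh
      rw [if_neg (by rw [hc]; exact Bool.false_ne_true)]
    rw [h1]
    simp only [UH_fam, hc]
    rw [if_neg Bool.false_ne_true, MvPolynomial.eval₂_zero]
    exact ⟨fun _ => trivial, fun _ => rfl⟩

theorem cert (K : Type) [Field K] [NumberField K] {n h M w : ℕ} {κ : Type} [Fintype κ] {δ : Fin w → ℕ}
    {d' : Fin w → Fin h → ℕ} (A' B' : Fin h → 𝓞 K) (E' : Fin w → κ → Fin n → ℤ) (b : IxM κ M δ d' → 𝓞 K) (r : ℕ)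
    (hF : Fib A' B' E' b r) : ∃ (L : ℕ) (ell : Fin L → Fin r → Fin (M + 1) → 𝓞 K) (D N0 : ℕ), N0 ≠ 0 ∧
      ∀ (k : Type) [Field k] (φ : 𝓞 K →+* k), (N0 : k) ≠ 0 → ∀ (x : Fin n → k) (P : Fin h → Option (k × k)),
        (∀ l, x l ≠ 0) → (∀ l, IsPt (φ (A' l)) (φ (B' l)) (P l)) → ∃ i,
          Sj D (TT (cfY (fun t => φ (b t)) (fun k t => bT (E' k) x P t)) (fun a c => φ (ell i a c))) := by
  classical
  obtain ⟨N, ell, hell⟩ := hF
  obtain ⟨D, hD⟩ := sj_unif (κ := Fin w ⊕ Fin r) M (Sum.elim δ (fun _ => 1))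
  have hnull : ∀ c : Fin h → Bool, ∃ Nc : ℕ, Nc ≠ 0 ∧ ∀ (k : Type) [Field k] (φ : 𝓞 K →+* k), (Nc : k) ≠ 0 →
      ∀ x : BV n h → k, ∃ j, MvPolynomial.eval₂ φ x (UH_fam A' B' E' b ell D c j) ≠ 0 := by
    intro c
    refine null_base K _ fun v => ?_
    by_contra hcon
    push Not at hcon
    obtain ⟨φ, hφ⟩ : ∃ φ : 𝓞 K →+* AlgebraicClosure K,
        φ = (algebraMap K (AlgebraicClosure K)).comp (algebraMap (𝓞 K) K) := ⟨_, rfl⟩
    rw [← hφ] at hcon
    obtain ⟨x, x', X, Y, rfl⟩ : ∃ x x' X Y, v = pv x x' X Y :=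
      ⟨fun l => v (.inl (.inl l)), fun l => v (.inl (.inr l)), fun l => v (.inr (.inl l)), fun l => v (.inr (.inr l)), by
        funext z
        rcases z with (z | z) | (z | z) <;> rfl⟩
    have hxx : ∀ l, x l * x' l = 1 := by
      intro l
      have h1 := hcon (Sum.inl l)
      simp only [UH_fam] at h1
      rw [MvPolynomial.eval₂_sub, MvPolynomial.eval₂_mul, MvPolynomial.eval₂_X, MvPolynomial.eval₂_X,
        MvPolynomial.eval₂_one] at h1
      exact sub_eq_zero.1 h1
    have hx : ∀ l, x l ≠ 0 := fun l h0 => by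
      have h1 := hxx l
      rw [h0, zero_mul] at h1
      exact zero_ne_one h1
    have hx' : x' = fun l => (x l)⁻¹ := by
      funext l
      exact eq_inv_of_mul_eq_one_right (hxx l)
    subst hx'
    have hP : ∀ l, IsPt (φ (A' l)) (φ (B' l)) (InCh c X Y l) := fun l =>
      (UH_curve φ A' B' E' b ell D c x _ X Y l).1 (hcon (Sum.inr (Sum.inl l)))
    obtain ⟨i, hi⟩ := hell x (InCh c X Y) hx (by
      intro l
      have h1 := hP l
      rw [hφ] at h1
      exact h1)
    have hS : Sj D (TT (cfY (fun t => φ (b t)) (fun k t => bT (E' k) x (InCh c X Y) t))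
        (fun a c => φ (ell i a c))) := by
      refine hD _ _ (sj_null _ fun u hu => hi u ?_ ?_)
      · intro k
        have h1 := hu (Sum.inl k)
        have h2 := fm_cfY E' (fun t => φ (b t)) x (InCh c X Y) u k
        rw [hφ] at h1 h2
        rw [← h1]
        exact h2.symm
      · intro a
        have h1 := hu (Sum.inr a)
        rw [fm_TT] at h1
        rw [hφ] at h1
        exact h1
    obtain ⟨J, hJ⟩ := (sj_minor _ _).1 hS
    apply hJ
    rw [← UH_det φ c E' b (ell i) x hx X Y D J]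
    exact hcon (Sum.inr (Sum.inr (i, J)))
  choose Nc hNc hk using hnull
  refine ⟨N, ell, D, ∏ c, Nc c, Finset.prod_ne_zero_iff.2 fun c _ => hNc c, ?_⟩
  intro k _ φ hN x P hx hP
  obtain ⟨c, X, Y, rfl⟩ := chart P
  have hNck : (Nc c : k) ≠ 0 := by
    intro h0
    apply hN
    rw [Nat.cast_prod]
    exact Finset.prod_eq_zero (Finset.mem_univ c) h0
  obtain ⟨j, hj⟩ := hk c k φ hNck (pv x (fun l => (x l)⁻¹) X Y)
  rcases j with l | l | ⟨i, J⟩
  · exfalso
    apply hj
    simp only [UH_fam]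
    rw [MvPolynomial.eval₂_sub, MvPolynomial.eval₂_mul, MvPolynomial.eval₂_X, MvPolynomial.eval₂_X,
      MvPolynomial.eval₂_one]
    exact sub_eq_zero.2 (mul_inv_cancel₀ (hx l))
  · exact absurd ((UH_curve φ A' B' E' b ell D c x _ X Y l).2 (hP l)) hj
  · refine ⟨i, (sj_minor _ _).2 ⟨J, fun h0 => hj ?_⟩⟩
    rw [← UH_det φ c E' b (ell i) x hx X Y D J] at h0
    exact h0

end VK
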