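import Mathlib

/-!
# LEAF VB: normalised vectors (Mathlib only)

PROOF.  `nrm_ex`: the first index `i` with `x i ≠ 0` (`Finset.exists_min_image`, or `Fin.find`), `l = (x i)⁻¹`.  `nrm_card`: for `x` with `Nrm x` and `l • x` with `Nrm`: the first nonzero coordinate is `1` and `l`, so `l = 1` (for `l = 0` the vector `0` is not normalised).  `card_nrm`: the map `(l, x) ↦ l • x` from `{l // l ≠ 0} × {x // x ∈ S ∧ Nrm x}` to `S` is injective, so `(p - 1) * #{x ∈ S, Nrm x} ≤ C p ^ (m + 1)`, and `p ≤ 2 (p - 1)`.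
-/

namespace VK

open Finset

/-- the first coordinate different from `0` is `1` -/
def Nrm {F : Type} [Field F] {q : ℕ} (x : Fin q → F) : Prop := ∃ i, x i = 1 ∧ ∀ i' < i, x i' = 0

theorem nrm_ne {F : Type} [Field F] {q : ℕ} {x : Fin q → F} (h : Nrm x) : x ≠ 0 := by
  obtain ⟨i, h1, -⟩ := h
  intro h0
  rw [h0, Pi.zero_apply] at h1
  exact zero_ne_one h1

theorem nrm_ex {F : Type} [Field F] {q : ℕ} {x : Fin q → F} (h : x ≠ 0) : ∃ l : F, l ≠ 0 ∧ Nrm (l • x) := by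
  have h1 : ∃ i, x i ≠ 0 := by
    by_contra hc
    push Not at hc
    exact h (funext hc)
  obtain ⟨i, hi, hmin⟩ := WellFounded.has_min (wellFounded_lt : WellFounded ((· < ·) : Fin q → Fin q → Prop))
    {i | x i ≠ 0} h1
  have hi' : x i ≠ 0 := hi
  refine ⟨(x i)⁻¹, inv_ne_zero hi', i, ?_, fun i' hi'' => ?_⟩
  · rw [Pi.smul_apply, smul_eq_mul, inv_mul_cancel₀ hi']
  · have h2 : x i' = 0 := by
      by_contra hc
      exact hmin i' hc hi''
    rw [Pi.smul_apply, smul_eq_mul, h2, mul_zero]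

private theorem VB_one {F : Type} [Field F] {q : ℕ} {x : Fin q → F} {l : F} (hx : Nrm x)
    (hl : Nrm (l • x)) : l = 1 := by
  obtain ⟨i, h1, h2⟩ := hx
  obtain ⟨j, h3, h4⟩ := hl
  rw [Pi.smul_apply, smul_eq_mul] at h3
  rcases lt_trichotomy i j with h | h | h
  · have h5 := h4 i h
    rw [Pi.smul_apply, smul_eq_mul, h1, mul_one] at h5
    rw [h5, zero_mul] at h3
    exact absurd h3 zero_ne_one
  · rw [← h, h1, mul_one] at h3
    exact h3
  · rw [h2 j h, mul_zero] at h3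
    exact absurd h3 zero_ne_one

theorem nrm_card {p : ℕ} [Fact p.Prime] {q : ℕ} (S : Set (Fin q → ZMod p)) (x : Fin q → ZMod p) (hx : Nrm x) :
    Nat.card {l : ZMod p // l • x ∈ {x | x ∈ S ∧ Nrm x}} ≤ 1 := by
  rw [Finite.card_le_one_iff_subsingleton]
  refine ⟨fun a b => Subtype.ext ?_⟩
  rw [VB_one hx a.2.2, VB_one hx b.2.2]

theorem card_nrm {p : ℕ} [Fact p.Prime] {q C m : ℕ} (S : Set (Fin q → ZMod p))
    (hS : ∀ x ∈ S, ∀ l : ZMod p, l • x ∈ S) (h : Nat.card S ≤ C * p ^ (m + 1)) :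
    Nat.card {x : Fin q → ZMod p | x ∈ S ∧ Nrm x} ≤ 2 * C * p ^ m := by
  have hp : p.Prime := Fact.out
  let Φ : (ZMod p)ˣ × {x : Fin q → ZMod p | x ∈ S ∧ Nrm x} → S :=
    fun a => ⟨(a.1 : ZMod p) • a.2.1, hS _ a.2.2.1 _⟩
  have hΦ : Function.Injective Φ := by
    rintro ⟨u, x⟩ ⟨v, y⟩ hxy
    have h1 : (u : ZMod p) • x.1 = (v : ZMod p) • y.1 := congrArg Subtype.val hxy
    have h2 : y.1 = (((v⁻¹ : (ZMod p)ˣ) : ZMod p) * u) • x.1 := by
      rw [mul_smul, h1, smul_smul, Units.inv_mul, one_smul]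
    have h3 : (((v⁻¹ : (ZMod p)ˣ) : ZMod p) * u) = 1 := by
      refine VB_one x.2.2 ?_
      rw [← h2]
      exact y.2.2
    have h4 : x = y := by
      apply Subtype.ext
      rw [h2, h3, one_smul]
    have h5 : u = v := by
      have h6 : v⁻¹ * u = 1 := Units.ext (by rw [Units.val_mul, h3, Units.val_one])
      exact (inv_mul_eq_one.1 h6).symm
    rw [h4, h5]
  have h1 := Nat.card_le_card_of_injective Φ hΦ
  rw [Nat.card_prod, Nat.card_eq_fintype_card (α := (ZMod p)ˣ), ZMod.card_units p] at h1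
  obtain ⟨c, hc⟩ : ∃ c : ℕ, c = Nat.card {x : Fin q → ZMod p | x ∈ S ∧ Nrm x} := ⟨_, rfl⟩
  rw [← hc] at h1 ⊢
  have h2 : (p - 1) * c ≤ C * p ^ (m + 1) := h1.trans h
  have h3 : p ≤ 2 * (p - 1) := by
    have := hp.two_le
    omega
  have h4 : p * c ≤ p * (2 * C * p ^ m) := by
    calc p * c ≤ 2 * (p - 1) * c := Nat.mul_le_mul_right _ h3
      _ = 2 * ((p - 1) * c) := by ring
      _ ≤ 2 * (C * p ^ (m + 1)) := Nat.mul_le_mul_left _ h2
      _ = p * (2 * C * p ^ m) := by rw [pow_succ]; ring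
  exact Nat.le_of_mul_le_mul_left h4 hp.pos

end VK
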