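import Pool.Agent.Lib.MP_17a322_ntVB.BB2

/-!
# LEAF ZM: primes of degree one modulo which several integers are not squares

PROOF.  Induction on `𝒟.card`, for all `L`.  `𝒟 = ∅`: `mean_true` (`mean_mono`).  `𝒟 = {D}`: `D` is not a square in `L` (`T = {D}`, `Even 1` is false), `mean_inert`.
Otherwise let `D₁ ≠ D₂` be in `𝒟`, `𝒟' = 𝒟.erase D₂`, `a = D₁ * D₂`.  In a field `L'` containing `L` with `IsSquare (a : L')`: for the primes `p` of degree one in `L'` (`p` larger than `|D₁|`, `|D₂|`) with all `D ∈ 𝒟'` nonsquares modulo `p` also `D₂` is not a square modulo `p` (`a = α ^ 2` in `L'`, `d1_sq`: `a` is a square modulo `p`, `a ≠ 0`, so `D₁` and `D₂` are both squares or both nonsquares), and `D1 L' p → D1 L p` (`d1_down`).  So `Mean L' (𝒟')` gives `Mean L (𝒟)` by `mean_mono`.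
If `a` is a square in `L`: `L' = L`; the hypothesis holds for `𝒟' ⊆ 𝒟`.  Otherwise `L' = M` of `exists_quad L` for `a`; the hypothesis for `𝒟'` and `L'`: let `T ⊆ 𝒟'`, `c = ∏ D ∈ T, D` a square in `L'`, `c = (u + v α) ^ 2`, `u, v ∈ L`: `c = u ^ 2 + a v ^ 2` and `2 u v = 0` (otherwise `α ∈ L`), so `c = u ^ 2` is a square in `L`, and `T.card` is even, or `c = a v ^ 2`, so `a c = (a v) ^ 2` is a square in `L`: if `D₁ ∈ T` then `a * c = D₁ ^ 2 * ∏ D ∈ insert D₂ (T.erase D₁), D`, so this last product is a square in `L` (`D₁ ≠ 0`: `0` is a square, `T = {D₁}`) and `insert D₂ (T.erase D₁)` has `T.card` elements; if `D₁ ∉ T` then `a * c = ∏ D ∈ insert D₁ (insert D₂ T), D` and `T.card + 2` is even.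
See the proof of `mean_types` in `MP_17a322_ntVB/BB2.lean` for the case of `-1`, `-3`.
-/

namespace VK

open Finset NumberField

private theorem ZM_step {L L' : Type} [Field L] [NumberField L] [Field L'] [NumberField L'] [Algebra L L']
    {𝒟 : Finset ℤ} {D₁ D₂ : ℤ} (h1 : D₁ ∈ 𝒟.erase D₂) (hD₂ : D₂ ≠ 0) {α : L'}
    (hα : α ^ 2 = ((D₁ * D₂ : ℤ) : L'))
    (hm : Mean L' (fun p => ∀ D ∈ 𝒟.erase D₂, ¬ IsSquare ((D : ℤ) : ZMod p))) :
    Mean L (fun p => ∀ D ∈ 𝒟, ¬ IsSquare ((D : ℤ) : ZMod p)) := by
  refine mean_mono D₂.natAbs ?_ hm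
  intro p hp hpm hD hJ
  refine ⟨d1_down hp hD, fun D hDD hs => ?_⟩
  by_cases hDe : D = D₂
  · have hfact : Fact p.Prime := ⟨hp⟩
    rw [hDe] at hs
    have h2 := d1_sq hα hp hD
    have h3 : ((D₂ : ℤ) : ZMod p) ≠ 0 := by
      intro h4
      have h5 : (p : ℤ) ∣ D₂ := (ZMod.intCast_zmod_eq_zero_iff_dvd D₂ p).1 h4
      have h6 : p ∣ D₂.natAbs := Int.natCast_dvd.1 h5
      have h7 := Nat.le_of_dvd (Int.natAbs_pos.2 hD₂) h6
      omega
    refine hJ D₁ h1 ?_
    obtain ⟨r, hr⟩ := hs
    obtain ⟨t, ht⟩ := h2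
    have hr0 : r ≠ 0 := by
      rintro rfl
      rw [mul_zero] at hr
      exact h3 hr
    refine ⟨t / r, ?_⟩
    rw [div_mul_div_comm, ← hr, ← ht, eq_div_iff h3]
    push_cast
    ring
  · exact hJ D (Finset.mem_erase.2 ⟨hDe, hDD⟩) hs

private theorem ZM_ind (n : ℕ) : ∀ (L : Type) [Field L] [NumberField L] (𝒟 : Finset ℤ), 𝒟.card = n →
    (∀ T ⊆ 𝒟, IsSquare (((∏ D ∈ T, D : ℤ)) : L) → Even T.card) →
    Mean L (fun p => ∀ D ∈ 𝒟, ¬ IsSquare ((D : ℤ) : ZMod p)) := by
  induction n with
  | zero =>
    intro L _ _ 𝒟 hc _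
    rw [Finset.card_eq_zero] at hc
    subst hc
    refine mean_mono 0 ?_ (mean_true L)
    intro p _ _ hD _
    exact ⟨hD, fun D hD => absurd hD (Finset.notMem_empty D)⟩
  | succ n ih =>
    intro L _ _ 𝒟 hc h
    have hne0 : ∀ D ∈ 𝒟, ¬ IsSquare ((D : ℤ) : L) := by
      intro D hD hs
      have h1 := h {D} (Finset.singleton_subset_iff.2 hD) (by rw [Finset.prod_singleton]; exact hs)
      rw [Finset.card_singleton] at h1
      exact absurd h1 (by decide)
    have hz : ∀ D ∈ 𝒟, D ≠ 0 := by
      rintro D hD rfl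
      refine hne0 0 hD ?_
      rw [Int.cast_zero]
      exact IsSquare.zero
    by_cases hn : n = 0
    · subst hn
      obtain ⟨D, rfl⟩ := Finset.card_eq_one.1 hc
      refine mean_mono 0 ?_ (mean_inert L (hne0 D (Finset.mem_singleton_self D)))
      intro p _ _ hD hs
      refine ⟨hD, fun D' hD' => ?_⟩
      rw [Finset.mem_singleton.1 hD']
      exact hs
    · obtain ⟨D₁, hD₁, D₂, hD₂, hne⟩ := Finset.one_lt_card.1 (show 1 < 𝒟.card by omega)
      have h1 : D₁ ∈ 𝒟.erase D₂ := Finset.mem_erase.2 ⟨hne, hD₁⟩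
      have hc' : (𝒟.erase D₂).card = n := by
        rw [Finset.card_erase_of_mem hD₂]
        omega
      have hsub : 𝒟.erase D₂ ⊆ 𝒟 := Finset.erase_subset _ _
      by_cases ha : IsSquare ((D₁ * D₂ : ℤ) : L)
      · obtain ⟨α, hα⟩ := ha
        refine ZM_step (L := L) (L' := L) (α := α) h1 (hz D₂ hD₂) (by rw [hα, sq]) ?_
        exact ih L (𝒟.erase D₂) hc' fun T hT hs => h T (hT.trans hsub) hs
      · obtain ⟨M, _, _, _, α, hα, hgen, hnα⟩ := exists_quad L ha
        refine ZM_step (L := L) (L' := M) (α := α) h1 (hz D₂ hD₂) hα ?_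
        refine ih M (𝒟.erase D₂) hc' fun T hT hs => ?_
        obtain ⟨c, hcdef⟩ : ∃ c : ℤ, c = ∏ D ∈ T, D := ⟨_, rfl⟩
        obtain ⟨a, hadef⟩ : ∃ a : ℤ, a = D₁ * D₂ := ⟨_, rfl⟩
        rw [← hcdef] at hs
        rw [← hadef] at hα ha
        obtain ⟨w, hw⟩ := hs
        obtain ⟨u, v, rfl⟩ := hgen w
        have e1 : (algebraMap L M) (u ^ 2 + (a : L) * v ^ 2 - (c : L)) + (algebraMap L M) (2 * u * v) * α = 0 := by
          simp only [map_add, map_sub, map_mul, map_pow, map_ofNat, map_intCast]
          linear_combination (-1 : M) * hw - (algebraMap L M v) ^ 2 * hα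
        have h0 : u * v = 0 := by
          by_contra h0
          have h5 : (2 * u * v : L) ≠ 0 := by
            rw [mul_assoc]
            exact mul_ne_zero two_ne_zero h0
          refine hnα (-(u ^ 2 + (a : L) * v ^ 2 - (c : L)) / (2 * u * v)) ?_
          have h6 : (algebraMap L M) (2 * u * v) ≠ 0 := (map_ne_zero _).2 h5
          rw [map_div₀, map_neg, div_eq_iff h6]
          linear_combination (-1) * e1
        have e2 : (algebraMap L M) (u ^ 2 + (a : L) * v ^ 2 - (c : L)) = 0 := by
          rw [mul_assoc, h0, mul_zero, map_zero, zero_mul, add_zero] at e1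
          exact e1
        have e3 : u ^ 2 + (a : L) * v ^ 2 - (c : L) = 0 := (map_eq_zero _).1 e2
        rcases mul_eq_zero.1 h0 with h4 | h4
        · rw [h4] at e3
          have e4 : (a : L) * (c : L) = ((a : L) * v) * ((a : L) * v) := by
            linear_combination (-(a : L)) * e3
          by_cases hT1 : D₁ ∈ T
          · have hD₂T : D₂ ∉ T.erase D₁ := fun h7 =>
              Finset.notMem_erase D₂ 𝒟 (hT (Finset.mem_of_mem_erase h7))
            have h8 : (insert D₂ (T.erase D₁)).card = T.card := by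
              rw [Finset.card_insert_of_notMem hD₂T, Finset.card_erase_add_one hT1]
            rw [← h8]
            refine h _ ?_ ?_
            · intro D hD
              rcases Finset.mem_insert.1 hD with h9 | h9
              · rw [h9]
                exact hD₂
              · exact hsub (hT (Finset.mem_of_mem_erase h9))
            · have h9 : D₁ * ∏ D ∈ T.erase D₁, D = c := by
                rw [hcdef, Finset.mul_prod_erase T (fun D => D) hT1]
              have h10 : ((D₁ : ℤ) : L) ≠ 0 := Int.cast_ne_zero.2 (hz D₁ hD₁)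
              refine ⟨(a : L) * v / (D₁ : L), ?_⟩
              rw [Finset.prod_insert hD₂T, div_mul_div_comm, ← e4, eq_div_iff (mul_ne_zero h10 h10), ← h9, hadef]
              push_cast
              ring
          · have hD₂T : D₂ ∉ T := fun h7 => Finset.notMem_erase D₂ 𝒟 (hT h7)
            have hD₁T : D₁ ∉ insert D₂ T := by
              rw [Finset.mem_insert]
              rintro (h7 | h7)
              · exact hne h7
              · exact hT1 h7
            have h8 : (insert D₁ (insert D₂ T)).card = T.card + 2 := by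
              rw [Finset.card_insert_of_notMem hD₁T, Finset.card_insert_of_notMem hD₂T]
            have h9 : Even (T.card + 2) := by
              rw [← h8]
              refine h _ ?_ ?_
              · intro D hD
                rcases Finset.mem_insert.1 hD with h9 | h9
                · rw [h9]
                  exact hD₁
                · rcases Finset.mem_insert.1 h9 with h10 | h10
                  · rw [h10]
                    exact hD₂
                  · exact hsub (hT h10)
              · refine ⟨(a : L) * v, ?_⟩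
                rw [Finset.prod_insert hD₁T, Finset.prod_insert hD₂T, ← hcdef, ← e4, hadef]
                push_cast
                ring
            exact (Nat.even_add.1 h9).2 (by decide)
        · rw [h4] at e3
          refine h T (hT.trans hsub) ?_
          rw [← hcdef]
          exact ⟨u, by linear_combination (-1) * e3⟩

theorem mean_multi (L : Type) [Field L] [NumberField L] (𝒟 : Finset ℤ)
    (h : ∀ T ⊆ 𝒟, IsSquare (((∏ D ∈ T, D : ℤ)) : L) → Even T.card) :
    Mean L (fun p => ∀ D ∈ 𝒟, ¬ IsSquare ((D : ℤ) : ZMod p)) := by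
  exact ZM_ind 𝒟.card L 𝒟 rfl h

end VK
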